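import Pool.Agent.Work.MP_d3517d_nt.ES.CountSym
import Pool.Agent.Work.MP_d3517d_nt.ES.RhoS
import Pool.Agent.Work.MP_d3517d_nt.ES.RhoC
import Pool.Agent.Work.MP_d3517d_nt.ES.Mult2

/-!
# The exact Eichler-Shimura relation with its Eisenstein lines: the statement (MP_d3517d_nt, POS)

`ExactES n`: for every level `L` divisible by `4` the systems of eigenvalues of all `T_q`, `U_q` on
the partial symbols of level `L` (cusps `4 ∣ c`) with values in `V_n` are twice those of the cusp
forms of weight `n + 2`, together with the lines `eisV n L d ψ`, `d ∣ L`, `ψ` a Dirichlet character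
modulo `gcd (d, L / d)` (for `4 ∣ d` the boundary symbols, for `¬ 4 ∣ d` the residues); for `n = 0`
two lines are missing.
-/

set_option autoImplicit false

open MvPolynomial Gouvea.Sys Gouvea.ES

noncomputable section

namespace Gouvea.POS

/-- the system of eigenvalues with given values at the primes -/
def sysOf (g : Nat.Primes → ℂ) : MvPolynomial Nat.Primes ℤ →+* ℂ :=
  eval₂Hom (Int.castRingHom ℂ) g

@[simp] theorem sysOf_X (g : Nat.Primes → ℂ) (q : Nat.Primes) : sysOf g (X q) = g q := by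
  rw [sysOf, eval₂Hom_X']

theorem sysOf_val (χ : MvPolynomial Nat.Primes ℤ →+* ℂ) : sysOf (fun q => χ (X q)) = χ := by
  apply MvPolynomial.ringHom_ext
  · intro r
    have e : (C r : MvPolynomial Nat.Primes ℤ) = (r : MvPolynomial Nat.Primes ℤ) := by simp
    rw [e, map_intCast, map_intCast]
  · intro q
    rw [sysOf_X]

/-- the values of the Eisenstein line `(d, ψ)` -/
def eisV (n L d : ℕ) (ψ : DirichletCharacter ℂ (d.gcd (L / d))) (q : Nat.Primes) : ℂ :=
  if 4 ∣ d then
    (if (q : ℕ) ∣ d then 0 else ψ⁻¹ ((q : ℕ) : ZMod (d.gcd (L / d)))) +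
      (if (q : ℕ) ∣ L / d then 0 else
        ((q : ℕ) : ℂ) ^ (n + 1) * ψ ((q : ℕ) : ZMod (d.gcd (L / d))))
  else
    (if (q : ℕ) ∣ d then 0 else
        ((q : ℕ) : ℂ) ^ (n + 1) * ψ⁻¹ ((q : ℕ) : ZMod (d.gcd (L / d)))) +
      (if (q : ℕ) ∣ L / d then 0 else ψ ((q : ℕ) : ZMod (d.gcd (L / d))))

/-- the values of the two lines which are missing for `n = 0` -/
def trivV (L : ℕ) (q : Nat.Primes) : ℂ :=
  if (q : ℕ) ∣ L then ((q : ℕ) : ℂ) else 1 + ((q : ℕ) : ℂ)

/-- all the Eisenstein lines of level `L` -/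
def eisL (n L : ℕ) : Multiset (MvPolynomial Nat.Primes ℤ →+* ℂ) :=
  L.divisors.val.bind fun d =>
    (Finset.univ : Finset (DirichletCharacter ℂ (d.gcd (L / d)))).val.map
      fun ψ => sysOf (eisV n L d ψ)

/-- **Exact Eichler-Shimura in degree `n`.** -/
def ExactES (n : ℕ) : Prop :=
  ∀ (hn : Even n) (L : ℕ) [NeZero L] (h4 : 4 ∣ L),
    haveI := finiteDimensional_Sym ℂ L n hn
    Sys (rhoS ℂ L n h4) + (if n = 0 then 2 • {sysOf (trivV L)} else 0) =
      2 • Sys (rhoC L (n + 2)) + eisL n L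

end Gouvea.POS
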