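import Pool.Agent.Work.MP_d3517d_nt.POS.CharSumP
import Pool.Agent.Work.MP_d3517d_nt.POS.ExDefs
import Pool.Agent.Work.MP_d3517d_nt.Fin.Defs

/-!
# The Eisenstein lines in a residue class, convolved with `μ * μ` (MP_d3517d_nt, POS)

`eisLg e n L`: the Eisenstein lines of level `L`, where the divisors `d` of `L` divisible by `e`
play the role of the boundary symbols; `eisL n L = eisLg 4 n L`.  If `A` contains no prime dividing
`c N` and `c` is prime to `N`, then the number of lines of level `c M` in a residue class on `A`,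
convolved with `μ * μ` over `M ∣ N`, is nonnegative.
-/

set_option autoImplicit false

open MvPolynomial Finset DirichletCharacter Gouvea.Sys Gouvea.ES Gouvea.Fin

noncomputable section

namespace Gouvea.POS

/-- the values of the Eisenstein line `(d, ψ)`, with branch divisor `e` -/
def eisVg (e n L d : ℕ) (ψ : DirichletCharacter ℂ (d.gcd (L / d))) (q : Nat.Primes) : ℂ :=
  if e ∣ d then
    (if (q : ℕ) ∣ d then 0 else ψ⁻¹ ((q : ℕ) : ZMod (d.gcd (L / d)))) +
      (if (q : ℕ) ∣ L / d then 0 else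
        ((q : ℕ) : ℂ) ^ (n + 1) * ψ ((q : ℕ) : ZMod (d.gcd (L / d))))
  else
    (if (q : ℕ) ∣ d then 0 else
        ((q : ℕ) : ℂ) ^ (n + 1) * ψ⁻¹ ((q : ℕ) : ZMod (d.gcd (L / d)))) +
      (if (q : ℕ) ∣ L / d then 0 else ψ ((q : ℕ) : ZMod (d.gcd (L / d))))

/-- all the Eisenstein lines of level `L`, with branch divisor `e` -/
def eisLg (e n L : ℕ) : Multiset (MvPolynomial Nat.Primes ℤ →+* ℂ) :=
  L.divisors.val.bind fun d =>
    (Finset.univ : Finset (DirichletCharacter ℂ (d.gcd (L / d)))).val.map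
      fun ψ => sysOf (eisVg e n L d ψ)

theorem eisLg_four (n L : ℕ) : eisLg 4 n L = eisL n L := rfl

theorem card_filter_bind {α β : Type*} (s : Finset α) (f : α → Multiset β) (P : β → Prop)
    [DecidablePred P] : ((s.val.bind f).filter P).card = ∑ a ∈ s, ((f a).filter P).card := by
  rw [Multiset.filter_bind, Multiset.card_bind]
  rfl

theorem card_filter_map {α β : Type*} (s : Finset α) (f : α → β) (P : β → Prop)
    [DecidablePred P] : ((s.val.map f).filter P).card = ∑ a ∈ s, if P (f a) then 1 else 0 := by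
  rw [Multiset.filter_map, Multiset.card_map, ← Finset.card_filter]
  rfl

variable {p : ℕ} [Fact p.Prime] (j : algebraicClosure ℚ ℂ →+* PadicAlgCl p)

open scoped Classical in
/-- the indicator of the characters whose Eisenstein line lies in the class -/
def hEis (n : ℕ) (A : Set Nat.Primes) (cc : Nat.Primes → PadicAlgCl p) (g : ℕ)
    (ψ : DirichletCharacter ℂ g) : ℝ :=
  if ∀ q ∈ A, ‖emb p j (ψ ((q : ℕ) : ZMod g) +
    ((q : ℕ) : ℂ) ^ (n + 1) * ψ⁻¹ ((q : ℕ) : ZMod g)) - cc q‖ < 1 then 1 else 0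

theorem hEis_nonneg (n : ℕ) (A : Set Nat.Primes) (cc : Nat.Primes → PadicAlgCl p) (g : ℕ)
    (ψ : DirichletCharacter ℂ g) : 0 ≤ hEis j n A cc g ψ := by
  unfold hEis
  split_ifs <;> norm_num

theorem changeLevel_apply_prime {g g' : ℕ} (hg : g ∣ g') (q : Nat.Primes) (hq : ¬ (q : ℕ) ∣ g')
    (ψ : DirichletCharacter ℂ g) :
    changeLevel hg ψ ((q : ℕ) : ZMod g') = ψ ((q : ℕ) : ZMod g) := by
  have h1 : IsCoprime ((q : ℕ) : ℤ) (g' : ℤ) :=
    Nat.isCoprime_iff_coprime.2 ((Nat.Prime.coprime_iff_not_dvd q.2).2 hq)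
  have h2 := changeLevel_eq_cast_of_dvd' ψ hg h1
  rwa [Int.cast_natCast, Int.cast_natCast] at h2

theorem hEis_changeLevel (n : ℕ) (A : Set Nat.Primes) (cc : Nat.Primes → PadicAlgCl p)
    {g g' : ℕ} (hg : g ∣ g') (hA : ∀ q ∈ A, ¬ (q : ℕ) ∣ g') (ψ : DirichletCharacter ℂ g) :
    hEis j n A cc g' (changeLevel hg ψ) = hEis j n A cc g ψ := by
  unfold hEis
  have h1 : (∀ q ∈ A, ‖emb p j (changeLevel hg ψ ((q : ℕ) : ZMod g') +
      ((q : ℕ) : ℂ) ^ (n + 1) * (changeLevel hg ψ)⁻¹ ((q : ℕ) : ZMod g')) - cc q‖ < 1) ↔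
      ∀ q ∈ A, ‖emb p j (ψ ((q : ℕ) : ZMod g) +
        ((q : ℕ) : ℂ) ^ (n + 1) * ψ⁻¹ ((q : ℕ) : ZMod g)) - cc q‖ < 1 := by
    refine forall₂_congr fun q hq => ?_
    rw [← map_inv, changeLevel_apply_prime hg q (hA q hq), changeLevel_apply_prime hg q (hA q hq)]
  by_cases h2 : ∀ q ∈ A, ‖emb p j (ψ ((q : ℕ) : ZMod g) +
        ((q : ℕ) : ℂ) ^ (n + 1) * ψ⁻¹ ((q : ℕ) : ZMod g)) - cc q‖ < 1
  · rw [if_pos h2, if_pos (h1.2 h2)]
  · rw [if_neg h2, if_neg fun h => h2 (h1.1 h)]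

open scoped Classical in
/-- the number of Eisenstein lines of level `L` in a class on primes which do not divide `L` -/
theorem card_eisLg (e n L : ℕ) (A : Set Nat.Primes) (cc : Nat.Primes → PadicAlgCl p)
    (hA : ∀ q ∈ A, ¬ (q : ℕ) ∣ L) :
    ((((eisLg e n L).filter fun χ => InC j A cc χ).card : ℕ) : ℝ) =
      ∑ d ∈ L.divisors, ∑ ψ : DirichletCharacter ℂ (Nat.gcd d (L / d)), hEis j n A cc _ ψ := by
  rw [eisLg, card_filter_bind, Nat.cast_sum]
  refine Finset.sum_congr rfl fun d hd => ?_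
  rw [card_filter_map, Nat.cast_sum]
  have hd' : d ∣ L := Nat.dvd_of_mem_divisors hd
  have h1 : ∀ q ∈ A, ¬ (q : ℕ) ∣ d := fun q hq h => hA q hq (h.trans hd')
  have h2 : ∀ q ∈ A, ¬ (q : ℕ) ∣ L / d := fun q hq h => hA q hq (h.trans (Nat.div_dvd_of_dvd hd'))
  by_cases he : e ∣ d
  · rw [← Equiv.sum_comp (Equiv.inv (DirichletCharacter ℂ (Nat.gcd d (L / d))))]
    refine Finset.sum_congr rfl fun ψ _ => ?_
    rw [hEis]
    have h3 : InC j A cc (sysOf (eisVg e n L d ψ⁻¹)) ↔ ∀ q ∈ A,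
        ‖emb p j (ψ ((q : ℕ) : ZMod _) +
          ((q : ℕ) : ℂ) ^ (n + 1) * ψ⁻¹ ((q : ℕ) : ZMod _)) - cc q‖ < 1 := by
      refine forall₂_congr fun q hq => ?_
      rw [sysOf_X, eisVg, if_pos he, if_neg (h1 q hq), if_neg (h2 q hq), inv_inv]
    rw [Equiv.inv_apply, Nat.cast_ite, Nat.cast_one, Nat.cast_zero]
    exact if_congr h3 rfl rfl
  · refine Finset.sum_congr rfl fun ψ _ => ?_
    rw [hEis]
    have h3 : InC j A cc (sysOf (eisVg e n L d ψ)) ↔ ∀ q ∈ A,
        ‖emb p j (ψ ((q : ℕ) : ZMod _) +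
          ((q : ℕ) : ℂ) ^ (n + 1) * ψ⁻¹ ((q : ℕ) : ZMod _)) - cc q‖ < 1 := by
      refine forall₂_congr fun q hq => ?_
      rw [sysOf_X, eisVg, if_neg he, if_neg (h1 q hq), if_neg (h2 q hq), add_comm]
    rw [Nat.cast_ite, Nat.cast_one, Nat.cast_zero]
    exact if_congr h3 rfl rfl

open scoped Classical in
/-- **The Eisenstein lines in a residue class, convolved with `μ * μ`** -/
theorem eis_beta_nonneg (e c N n : ℕ) (hcN : c.Coprime N) (hc : c ≠ 0) (A : Set Nat.Primes)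
    (cc : Nat.Primes → PadicAlgCl p) (hA : ∀ q ∈ A, ¬ (q : ℕ) ∣ c * N) :
    0 ≤ ∑ x ∈ N.divisorsAntidiagonal,
      (((ArithmeticFunction.moebius * ArithmeticFunction.moebius) x.1 : ℤ) : ℝ) *
        (((eisLg e n (c * x.2)).filter fun χ => InC j A cc χ).card : ℝ) := by
  have h1 := sum_beta_char_nonneg_mul c N hcN hc (hEis j n A cc) (hEis_nonneg j n A cc)
    (fun g g' hg hg' ψ => hEis_changeLevel j n A cc hg
      (fun q hq h => hA q hq (h.trans hg')) ψ)
  refine h1.trans (le_of_eq (Finset.sum_congr rfl fun x hx => ?_))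
  rw [card_eisLg j e n (c * x.2) A cc]
  intro q hq h
  exact hA q hq (h.trans (Nat.mul_dvd_mul_left c
    ⟨x.1, by rw [← (Nat.mem_divisorsAntidiagonal.1 hx).1, mul_comm]⟩))

end Gouvea.POS
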