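import Pool.Agent.Work.MP_d3517d_nt.POS.CuspInst
import Pool.Agent.Work.MP_d3517d_nt.POS.ExDefs

/-!
# The Eisenstein lines (MP_d3517d_nt, POS)

`Sys_HOut`: the systems of eigenvalues of `q⁻¹ hop` on the functions of degree `n + 2` which vanish
at the cusps `4 ∣ c`; `Sys_HIn`: those of `qⁿ hop` on the functions of degree `-n` at the cusps
`4 ∣ c`.
-/

open Finset Module CongruenceSubgroup MvPolynomial
open scoped MatrixGroups

noncomputable section

namespace Gouvea.POS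

open Gouvea.Sys Gouvea.Cnt

lemma inC_of {u v : ℤ} (h : IsCoprime u v) (hv : (4 : ℤ) ∣ v) (q : ℕ) (b : ℤ) :
    inC (u + b * v, q * v) := by
  have hu : Odd u := by
    by_contra hu
    rw [Int.not_odd_iff_even] at hu
    have h2 : (2 : ℤ) ∣ v := Dvd.dvd.trans (by norm_num) hv
    exact absurd (h.isUnit_of_dvd' hu.two_dvd h2) (by decide)
  refine ⟨1, u + b * v, q * v, one_ne_zero, ?_, hv.mul_left _, by simp⟩
  refine hu.add_even ?_
  obtain ⟨t, ht⟩ := hv
  exact ⟨b * (2 * t), by rw [ht]; ring⟩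

lemma inC_of' {u v : ℤ} (h : IsCoprime u v) (hv : (4 : ℤ) ∣ v) {q : ℕ} (h2 : q ≠ 2)
    (hq : q.Prime) : inC (q * u, v) := by
  have hu : Odd u := by
    by_contra hu
    rw [Int.not_odd_iff_even] at hu
    have h2 : (2 : ℤ) ∣ v := Dvd.dvd.trans (by norm_num) hv
    exact absurd (h.isUnit_of_dvd' hu.two_dvd h2) (by decide)
  have hqo : Odd (q : ℤ) := by exact_mod_cast hq.odd_of_ne_two h2
  exact ⟨1, q * u, v, one_ne_zero, hqo.mul hu, hv, by simp⟩

/-- `T_q` on a function at a primitive vector -/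
lemma hop_apply' (L q : ℕ) (F : ℤ × ℤ → ℂ) (u v : ℤ) : hop L q F (u, v) =
    ∑ b ∈ range q, F (u + b * v, q * v) + if q ∣ L then 0 else F (q * u, v) := by
  unfold hop vm
  simp

lemma HF_zero_of_prim {e : ℤ} {L : ℕ} {F : ℤ × ℤ → ℂ} (hF : F ∈ HF e L)
    (h : ∀ u v, IsCoprime u v → F (u, v) = 0) : F = 0 := by
  funext v
  by_cases hv : v = (0, 0)
  · rw [hv]
    exact hF.1
  · obtain ⟨m, hm, a, c, hac, rfl⟩ := exists_prim hv
    rw [hF.2.1 m (by exact_mod_cast hm.ne') (a, c), h a c hac, mul_zero]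
    rfl

lemma HF_inv {e : ℤ} {L : ℕ} {F : ℤ × ℤ → ℂ} (hF : F ∈ HF e L) {a b c d u v : ℤ}
    (h : a * d - b * c = 1) (hc : (L : ℤ) ∣ c) : F (a * u + b * v, c * u + d * v) = F (u, v) := by
  let g : SL(2, ℤ) := ⟨!![a, b; c, d], by rw [Matrix.det_fin_two_of]; linear_combination h⟩
  have hg : g ∈ Gamma0 L := by
    rw [Gamma0_mem]
    exact (ZMod.intCast_zmod_eq_zero_iff_dvd _ _).2 hc
  exact hF.2.2 g hg (u, v)

/-- the Eisenstein lines for `4 ∤ d` (residues) -/
def eisOut (n L : ℕ) : Multiset (MvPolynomial Nat.Primes ℤ →+* ℂ) :=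
  ∑ d ∈ L.divisors with ¬ 4 ∣ d, ∑ ψ : DirichletCharacter ℂ (d.gcd (L / d)),
    {sysOf (eisV n L d ψ)}

/-- the Eisenstein lines for `4 ∣ d` (boundary symbols) -/
def eisIn (n L : ℕ) : Multiset (MvPolynomial Nat.Primes ℤ →+* ℂ) :=
  ∑ d ∈ L.divisors with 4 ∣ d, ∑ ψ : DirichletCharacter ℂ (d.gcd (L / d)),
    {sysOf (eisV n L d ψ)}

theorem eisL_eq (n L : ℕ) : eisL n L = eisIn n L + eisOut n L := by
  unfold eisL eisIn eisOut
  rw [Finset.sum_filter_add_sum_filter_not]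
  simp only [map_val_eq_sum]
  rfl

theorem line_eq_sysOf {al be : ℕ → ℂ} {L d : ℕ} {ψ : DirichletCharacter ℂ (cg L d)}
    {g : Nat.Primes → ℂ} (h : ∀ q : Nat.Primes, lam al be L d ψ q = g q) :
    line (fun q : Nat.Primes => (q : ℕ)) al be L d ψ = sysOf g := by
  rw [← sysOf_val (line (fun q : Nat.Primes => (q : ℕ)) al be L d ψ)]
  congr 1
  funext q
  rw [line_X, h]

lemma prime_ne_zero (q : Nat.Primes) : ((q : ℕ) : ℂ) ≠ 0 := by
  exact_mod_cast q.2.ne_zero

/-- **The residues.** -/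
theorem Sys_HOut {n : ℕ} (hn : Even n) {L : ℕ} [NeZero L] (h4 : 4 ∣ L) {V : Type*}
    [AddCommGroup V] [Module ℂ V] (ρ : MvPolynomial Nat.Primes ℤ →+* Module.End ℂ V)
    (ev : V →ₗ[ℂ] (ℤ × ℤ → ℂ)) (hinj : Function.Injective ev)
    (hmem : ∀ x, ev x ∈ HOut ((n : ℤ) + 2) L) (hsurj : ∀ F ∈ HOut ((n : ℤ) + 2) L, ∃ x, ev x = F)
    (hT : ∀ (q : Nat.Primes) x, ev (ρ (X q) x) = ((q : ℕ) : ℂ)⁻¹ • hop L q (ev x)) :
    ∃ _ : FiniteDimensional ℂ V, Sys ρ = eisOut n L := by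
  have hL : 0 < L := Nat.pos_of_ne_zero (NeZero.ne L)
  have he : Even ((n : ℤ) + 2) := by
    obtain ⟨m, hm⟩ := hn
    exact ⟨m + 1, by rw [hm]; push_cast; ring⟩
  obtain ⟨hfd, hS⟩ := Sys_cusps (K := ℂ) (fun q : Nat.Primes => (q : ℕ)) (fun q => q.2) hL
    (L.divisors.filter fun d => ¬ 4 ∣ d) (fun d hd => Nat.dvd_of_mem_divisors (mem_filter.1 hd).1)
    ρ ev (fun q => (q : ℂ) ^ (n + 1)) (fun q => (q : ℂ)⁻¹)
    (by
      intro x hx
      apply hinj
      rw [map_zero]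
      refine HF_zero_of_prim (hmem x).1 fun u v h => ?_
      by_cases hv : (4 : ℤ) ∣ v
      · exact (hmem x).2 _ ((inC_prim_iff h).2 hv)
      · exact hx u v h (mem_filter.2 ⟨Nat.mem_divisors.2 ⟨cd_dvd_right L v, hL.ne'⟩,
          fun h1 => hv ((four_dvd_cd h4 v).1 h1)⟩))
    (by
      intro d hd ψ
      obtain ⟨hd1, hd2⟩ := mem_filter.1 hd
      obtain ⟨x, hx⟩ := hsurj (Eh ((n : ℤ) + 2) L d ψ) ⟨Eh_mem_HF he hL d ψ, by
        intro v hv
        by_cases h0 : v = (0, 0)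
        · rw [h0]
          simp [Eh]
        · obtain ⟨m, hm, a, c, hac, rfl⟩ := exists_prim h0
          have hm' : (m : ℤ) ≠ 0 := by exact_mod_cast hm.ne'
          rw [Eh_mul he L d ψ hm' hac]
          rw [inC_mul_iff hm', inC_prim_iff hac, ← four_dvd_cd h4] at hv
          unfold Ep
          rw [if_neg (fun h1 : cd L c = d => hd2 (h1 ▸ hv)), mul_zero]⟩
      refine ⟨x, fun u v h => ?_⟩
      rw [hx, Eh_prim he L d ψ h]
      rfl)
    (by
      intro x a b c e u v h1 h2 _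
      exact HF_inv (hmem x).1 h1 h2)
    (by
      intro x q u v _
      have h1 := (hmem x).1.2.1 ((q : ℕ) : ℤ) (by exact_mod_cast q.2.ne_zero) (u, v)
      rw [h1, ← mul_assoc]
      congr 1
      have h2 : ((n : ℤ) + 2) = ((n + 1 : ℕ) : ℤ) + 1 := by push_cast; ring
      rw [h2, Int.cast_natCast, zpow_add_one₀ (prime_ne_zero q), zpow_natCast, mul_comm,
        mul_assoc, mul_inv_cancel₀ (prime_ne_zero q), mul_one])
    (by
      intro x u v h hv
      refine (hmem x).2 _ ((inC_prim_iff h).2 ?_)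
      rw [← four_dvd_cd h4]
      by_contra h1
      exact hv (mem_filter.2 ⟨Nat.mem_divisors.2 ⟨cd_dvd_right L v, hL.ne'⟩, h1⟩))
    (by
      intro x q u v _ _
      rw [hT, Pi.smul_apply, smul_eq_mul, hop_apply'])
  refine ⟨hfd, hS.trans ?_⟩
  unfold eisOut
  refine sum_congr rfl fun d hd => ?_
  obtain ⟨hd1, hd2⟩ := mem_filter.1 hd
  refine sum_congr rfl fun ψ _ => ?_
  congr 1
  refine line_eq_sysOf fun q => ?_
  unfold lam eisV
  rw [if_neg hd2, mul_inv_cancel₀ (prime_ne_zero q), one_mul]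
  rfl

/-- **The boundary symbols.** -/
theorem Sys_HIn {n : ℕ} (hn : Even n) {L : ℕ} [NeZero L] (h4 : 4 ∣ L) {V : Type*}
    [AddCommGroup V] [Module ℂ V] (ρ : MvPolynomial Nat.Primes ℤ →+* Module.End ℂ V)
    (π : HF (-(n : ℤ)) L →ₗ[ℂ] V) (hsurj : Function.Surjective π)
    (hker : ∀ F, π F = 0 ↔ ∀ v, inC v → (F : ℤ × ℤ → ℂ) v = 0)
    (hT : ∀ (q : Nat.Primes) (F : HF (-(n : ℤ)) L), ∃ G : HF (-(n : ℤ)) L,
      (G : ℤ × ℤ → ℂ) = ((q : ℕ) : ℂ) ^ n • hop L q F ∧ ρ (X q) (π F) = π G) :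
    ∃ _ : FiniteDimensional ℂ V, Sys ρ = eisIn n L := by
  classical
  have hL : 0 < L := Nat.pos_of_ne_zero (NeZero.ne L)
  have he : Even (-(n : ℤ)) := by
    obtain ⟨m, hm⟩ := hn
    exact ⟨-m, by rw [hm]; push_cast; ring⟩
  -- the values at the cusps `4 ∣ c`
  have hwd : ∀ F G : HF (-(n : ℤ)) L, π F = π G → ∀ v, inC v →
      (F : ℤ × ℤ → ℂ) v = (G : ℤ × ℤ → ℂ) v := by
    intro F G h v hv
    have h1 := (hker (F - G)).1 (by rw [map_sub, h, sub_self]) v hv
    exact sub_eq_zero.1 h1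
  let ev : V →ₗ[ℂ] (ℤ × ℤ → ℂ) :=
    { toFun := fun x v => if inC v then ((Function.surjInv hsurj x : HF (-(n : ℤ)) L) :
        ℤ × ℤ → ℂ) v else 0
      map_add' := fun x y => by
        funext v
        by_cases hv : inC v
        · rw [Pi.add_apply, if_pos hv, if_pos hv, if_pos hv]
          refine hwd _ (Function.surjInv hsurj x + Function.surjInv hsurj y) ?_ v hv
          rw [map_add, Function.surjInv_eq hsurj, Function.surjInv_eq hsurj,
            Function.surjInv_eq hsurj]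
        · rw [Pi.add_apply, if_neg hv, if_neg hv, if_neg hv, add_zero]
      map_smul' := fun a x => by
        funext v
        by_cases hv : inC v
        · rw [Pi.smul_apply, if_pos hv, if_pos hv]
          refine hwd _ (a • Function.surjInv hsurj x) ?_ v hv
          rw [map_smul, Function.surjInv_eq hsurj, Function.surjInv_eq hsurj]
        · rw [Pi.smul_apply, if_neg hv, if_neg hv, smul_zero] }
  have hev : ∀ F v, ev (π F) v = if inC v then (F : ℤ × ℤ → ℂ) v else 0 := by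
    intro F v
    change (if inC v then ((Function.surjInv hsurj (π F) : HF (-(n : ℤ)) L) : ℤ × ℤ → ℂ) v
      else 0) = _
    by_cases hv : inC v
    · rw [if_pos hv, if_pos hv]
      exact hwd _ _ (Function.surjInv_eq hsurj _) v hv
    · rw [if_neg hv, if_neg hv]
  have hinv4 : ∀ {a b c e u v : ℤ}, a * e - b * c = 1 → (L : ℤ) ∣ c → IsCoprime u v →
      (inC (a * u + b * v, c * u + e * v) ↔ inC (u, v)) := by
    intro a b c e u v h1 h2 h
    have h5 : IsCoprime (a * u + b * v) (c * u + e * v) :=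
      isCoprime_vm (g := !![a, b; c, e]) (by rw [Matrix.det_fin_two_of]; linear_combination h1) h
    rw [inC_prim_iff h5, inC_prim_iff h, ← four_dvd_cd h4, ← four_dvd_cd h4, cd_smul h1 h2]
  obtain ⟨hfd, hS⟩ := Sys_cusps (K := ℂ) (fun q : Nat.Primes => (q : ℕ)) (fun q => q.2) hL
    (L.divisors.filter fun d => 4 ∣ d) (fun d hd => Nat.dvd_of_mem_divisors (mem_filter.1 hd).1)
    ρ ev (fun _ => 1) (fun q => (q : ℂ) ^ n)
    (by
      intro x hx
      obtain ⟨F, rfl⟩ := hsurj x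
      rw [hker]
      intro v hv
      by_cases h0 : v = (0, 0)
      · rw [h0]
        exact F.2.1
      · obtain ⟨m, hm, a, c, hac, rfl⟩ := exists_prim h0
        have hm' : (m : ℤ) ≠ 0 := by exact_mod_cast hm.ne'
        rw [inC_mul_iff hm'] at hv
        have h1 := hx a c hac (mem_filter.2 ⟨Nat.mem_divisors.2 ⟨cd_dvd_right L c, hL.ne'⟩,
          (four_dvd_cd h4 c).2 ((inC_prim_iff hac).1 hv)⟩)
        rw [hev, if_pos hv] at h1
        rw [F.2.2.1 m hm' (a, c), h1, mul_zero])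
    (by
      intro d hd ψ
      obtain ⟨hd1, hd2⟩ := mem_filter.1 hd
      refine ⟨π ⟨Eh (-(n : ℤ)) L d ψ, Eh_mem_HF he hL d ψ⟩, fun u v h => ?_⟩
      rw [hev]
      change (if inC (u, v) then Eh (-(n : ℤ)) L d ψ (u, v) else 0) = _
      rw [Eh_prim he L d ψ h]
      by_cases hv : inC (u, v)
      · rw [if_pos hv]
        rfl
      · rw [if_neg hv, if_neg]
        intro h1
        rw [inC_prim_iff h, ← four_dvd_cd h4, h1] at hv
        exact hv hd2)
    (by
      intro x a b c e u v h1 h2 h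
      obtain ⟨F, rfl⟩ := hsurj x
      rw [hev, hev]
      by_cases hv : inC (u, v)
      · rw [if_pos hv, if_pos ((hinv4 h1 h2 h).2 hv), HF_inv F.2 h1 h2]
      · rw [if_neg hv, if_neg (fun h3 => hv ((hinv4 h1 h2 h).1 h3))])
    (by
      intro x q u v _
      obtain ⟨F, rfl⟩ := hsurj x
      have hq : ((q : ℕ) : ℤ) ≠ 0 := by exact_mod_cast q.2.ne_zero
      rw [hev, hev]
      by_cases hv : inC (u, v)
      · rw [if_pos hv, if_pos ((inC_mul_iff hq).2 hv), F.2.2.1 _ hq (u, v), one_mul, zpow_neg,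
          Int.cast_natCast, zpow_natCast, ← mul_assoc,
          mul_inv_cancel₀ (pow_ne_zero _ (prime_ne_zero q)), one_mul]
      · rw [if_neg hv, if_neg (fun h => hv ((inC_mul_iff hq).1 h)), mul_zero, mul_zero])
    (by
      intro x u v h hv
      obtain ⟨F, rfl⟩ := hsurj x
      rw [hev, if_neg]
      intro h1
      rw [inC_prim_iff h, ← four_dvd_cd h4] at h1
      exact hv (mem_filter.2 ⟨Nat.mem_divisors.2 ⟨cd_dvd_right L v, hL.ne'⟩, h1⟩))
    (by
      intro x q u v h hv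
      obtain ⟨F, rfl⟩ := hsurj x
      obtain ⟨G, hG, hπ⟩ := hT q F
      have hv4 : (4 : ℤ) ∣ v := (four_dvd_cd h4 v).1 (mem_filter.1 hv).2
      rw [hπ, hev, if_pos ((inC_prim_iff h).2 hv4), hG, Pi.smul_apply, smul_eq_mul, hop_apply']
      congr 2
      · refine sum_congr rfl fun b _ => ?_
        rw [hev, if_pos]
        exact inC_of h hv4 q b
      · by_cases hq : (q : ℕ) ∣ L
        · rw [if_pos hq, if_pos hq]
        · rw [if_neg hq, if_neg hq, hev, if_pos]
          exact inC_of' h hv4 (fun h2 => hq (by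
            have h3 : (q : ℕ) = 2 := h2
            rw [h3]
            exact dvd_trans (by norm_num) h4)) q.2)
  refine ⟨hfd, hS.trans ?_⟩
  unfold eisIn
  refine sum_congr rfl fun d hd => ?_
  obtain ⟨hd1, hd2⟩ := mem_filter.1 hd
  refine sum_congr rfl fun ψ _ => ?_
  congr 1
  refine line_eq_sysOf fun q => ?_
  unfold lam eisV
  rw [if_pos hd2, one_mul, pow_succ']
  rfl

end Gouvea.POS
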