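import Mathlib

/-!
# The basis of the functions on `(ℤ/g)ˣ` given by the Dirichlet characters (MP_d3517d_nt, POS)
-/

set_option autoImplicit false

open Module

noncomputable section

namespace Gouvea.POS

variable (K : Type*) [Field K]

/-- a Dirichlet character as a function on the units -/
def chf {g : ℕ} (ψ : DirichletCharacter K g) : (ZMod g)ˣ → K := fun s => ψ (s : ZMod g)

theorem linearIndependent_chf (g : ℕ) :
    LinearIndependent K (fun ψ : DirichletCharacter K g => chf K ψ) := by
  have h := linearIndependent_monoidHom (ZMod g)ˣ K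
  have hinj : Function.Injective (fun ψ : DirichletCharacter K g =>
      ((ψ : ZMod g →* K).comp (Units.coeHom (ZMod g)) : (ZMod g)ˣ →* K)) := by
    intro ψ χ hψ
    ext s
    exact DFunLike.congr_fun hψ s
  exact h.comp _ hinj

variable [IsAlgClosed K] [CharZero K]

theorem card_char (g : ℕ) [NeZero g] :
    Fintype.card (DirichletCharacter K g) = Nat.card (ZMod g)ˣ := by
  have : NeZero (Monoid.exponent (ZMod g)ˣ) := ⟨Monoid.exponent_ne_zero_of_finite⟩
  rw [← Nat.card_eq_fintype_card]
  exact MulChar.card_eq_card_units_of_hasEnoughRootsOfUnity (ZMod g) K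

/-- **The basis of the functions on `(ℤ/g)ˣ` given by the characters.** -/
def charBasis (g : ℕ) [NeZero g] : Basis (DirichletCharacter K g) K ((ZMod g)ˣ → K) :=
  basisOfLinearIndependentOfCardEqFinrank (linearIndependent_chf K g)
    (by
      have := Fintype.ofFinite (ZMod g)ˣ
      rw [card_char, Module.finrank_fintype_fun_eq_card, Nat.card_eq_fintype_card])

theorem charBasis_apply (g : ℕ) [NeZero g] (ψ : DirichletCharacter K g) : charBasis K g ψ = chf K ψ := by
  rw [charBasis, coe_basisOfLinearIndependentOfCardEqFinrank]

end Gouvea.POS
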