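import Pool.Agent.Work.MP_d3517d_nt.ES.Mult2

/-!
# Systems of eigenvalues of triangular operators (MP_d3517d_nt, POS)
-/

open Module Submodule

namespace Gouvea.Sys

section Tri

variable {R : Type*} [CommRing R] {K : Type*} [Field K]

/-- removing one basis vector -/
theorem linearIndependent_mkQ {V : Type*} [AddCommGroup V] [Module K V] {J : Type*}
    (b : Basis J K V) (j0 : J) :
    LinearIndependent K (fun j : {j // j ≠ j0} => (K ∙ b j0).mkQ (b j)) := by
  have h1 : LinearIndependent K (fun j : {j // j ≠ j0} => b j) :=
    b.linearIndependent.comp _ Subtype.val_injective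
  refine h1.map (f := (K ∙ b j0).mkQ) ?_
  rw [ker_mkQ]
  have h2 : Set.range (fun j : {j // j ≠ j0} => b j) = b '' {j | j ≠ j0} := by
    ext v
    simp
  have h3 : (K ∙ b j0) = span K (b '' {j0}) := by simp
  rw [h2, h3]
  exact b.linearIndependent.disjoint_span_image (by simp)

/-- the basis of the quotient by the line of one basis vector -/
noncomputable def quotBasis {V : Type*} [AddCommGroup V] [Module K V] {J : Type*}
    (b : Basis J K V) (j0 : J) : Basis {j // j ≠ j0} K (V ⧸ (K ∙ b j0)) :=
  Basis.mk (linearIndependent_mkQ b j0) (by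
    rintro x -
    obtain ⟨v, rfl⟩ := (K ∙ b j0).mkQ_surjective x
    have hv : v ∈ span K (Set.range b) := by rw [b.span_eq]; trivial
    induction hv using span_induction with
    | mem x hx =>
      obtain ⟨j, rfl⟩ := hx
      by_cases hj : j = j0
      · subst hj
        have : (K ∙ b j).mkQ (b j) = 0 := by
          rw [mkQ_apply, Quotient.mk_eq_zero]
          exact mem_span_singleton_self _
        rw [this]
        exact zero_mem _
      · exact subset_span ⟨⟨j, hj⟩, rfl⟩
    | zero => rw [map_zero]; exact zero_mem _
    | add x y _ _ hx hy => rw [map_add]; exact add_mem hx hy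
    | smul a x _ hx => rw [map_smul]; exact smul_mem _ _ hx)

theorem quotBasis_apply {V : Type*} [AddCommGroup V] [Module K V] {J : Type*}
    (b : Basis J K V) (j0 : J) (j : {j // j ≠ j0}) :
    quotBasis b j0 j = Submodule.Quotient.mk (b j) := by
  rw [quotBasis, Basis.mk_apply, mkQ_apply]

theorem quotBasis_repr {V : Type*} [AddCommGroup V] [Module K V] {J : Type*}
    (b : Basis J K V) (j0 : J) (v : V) (j : {j // j ≠ j0}) :
    (quotBasis b j0).repr (Submodule.Quotient.mk v) j = b.repr v j := by
  classical
  have h : (Finsupp.lapply j).comp (((quotBasis b j0).repr.toLinearMap).comp (K ∙ b j0).mkQ) =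
      (Finsupp.lapply (j : J)).comp b.repr.toLinearMap := by
    refine b.ext fun i => ?_
    simp only [LinearMap.comp_apply, LinearEquiv.coe_coe, Finsupp.lapply_apply, mkQ_apply,
      Basis.repr_self]
    by_cases hi : i = j0
    · subst hi
      have h0 : (Submodule.Quotient.mk (b i) : V ⧸ (K ∙ b i)) = 0 := by
        rw [Quotient.mk_eq_zero]
        exact mem_span_singleton_self _
      rw [h0, map_zero, Finsupp.coe_zero, Pi.zero_apply, Finsupp.single_eq_of_ne j.2]
    · rw [show (Submodule.Quotient.mk (b i) : V ⧸ (K ∙ b j0)) = quotBasis b j0 ⟨i, hi⟩ from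
        (quotBasis_apply b j0 ⟨i, hi⟩).symm, Basis.repr_self]
      by_cases hij : i = (j : J)
      · subst hij
        simp
      · rw [Finsupp.single_eq_of_ne (fun h => hij h.symm),
          Finsupp.single_eq_of_ne (fun h => hij (by rw [h]))]
  exact LinearMap.congr_fun h v

/-- **Systems of eigenvalues of triangular operators.** -/
theorem Sys_of_triangular [IsAlgClosed K] : ∀ (m : ℕ) {V : Type*} [AddCommGroup V] [Module K V]
    [FiniteDimensional K V] {ρ : R →+* Module.End K V} {J : Type*} [Fintype J]
    (_ : Fintype.card J = m) (b : Basis J K V) (c : J → R →+* K) (rk : J → ℕ)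
    (_ : ∀ r j i, rk i ≤ rk j → b.repr (ρ r (b j)) i = b.repr (c j r • b j) i),
    Sys ρ = Finset.univ.val.map c := by
  classical
  intro m
  induction m with
  | zero =>
    intro V _ _ _ ρ J _ hJ b c rk h
    have hJ' : IsEmpty J := Fintype.card_eq_zero_iff.1 hJ
    have h0 : (Sys ρ).card = 0 := by rw [card_Sys, finrank_eq_card_basis b, hJ]
    rw [Multiset.card_eq_zero.1 h0]
    simp
  | succ m ih =>
    intro V _ _ _ ρ J _ hJ b c rk h
    have hne : (Finset.univ : Finset J).Nonempty := by
      rw [← Finset.card_pos, Finset.card_univ, hJ]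
      exact Nat.succ_pos _
    obtain ⟨j0, -, hmax⟩ := Finset.exists_max_image Finset.univ rk hne
    have hev : ∀ r, ρ r (b j0) = c j0 r • b j0 := fun r =>
      b.ext_elem fun i => h r j0 i (hmax i (Finset.mem_univ i))
    have hst : ∀ r, ∀ v ∈ (K ∙ b j0), ρ r v ∈ (K ∙ b j0) := by
      intro r v hv
      obtain ⟨a, rfl⟩ := mem_span_singleton.1 hv
      rw [map_smul, hev]
      exact smul_mem _ _ (smul_mem _ _ (mem_span_singleton_self _))
    rw [Sys_sub_add_quot ρ _ hst]
    have h1 : Sys (subRep ρ (K ∙ b j0) hst) = {c j0} := by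
      have hf : finrank K (K ∙ b j0) = 1 := finrank_span_singleton (b.ne_zero j0)
      refine Sys_of_finrank_one _ hf fun r => ?_
      ext v
      obtain ⟨a, ha⟩ := mem_span_singleton.1 v.2
      rw [subRep_apply, LinearMap.smul_apply, Module.End.one_apply, Submodule.coe_smul, ← ha,
        map_smul, hev, smul_comm]
    have h2 : Sys (quotRep ρ (K ∙ b j0) hst) =
        (Finset.univ : Finset {j // j ≠ j0}).val.map (fun j : {j // j ≠ j0} => c j.1) := by
      refine ih (J := {j // j ≠ j0}) ?_ (quotBasis b j0) (fun j => c j.1) (fun j => rk j.1) ?_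
      · rw [Fintype.card_subtype_compl, Fintype.card_subtype_eq, hJ, Nat.add_sub_cancel]
      · intro r j i hij
        rw [quotBasis_apply, quotRep_mk, quotBasis_repr, h r j i hij, ← Submodule.Quotient.mk_smul,
          quotBasis_repr]
    rw [h1, h2, Multiset.singleton_add]
    have h3 : (Finset.univ : Finset J) = insert j0 ((Finset.univ : Finset {j // j ≠ j0}).map
        ⟨Subtype.val, Subtype.val_injective⟩) := by
      ext j
      by_cases hj : j = j0 <;> simp [hj]
    rw [h3, Finset.insert_val_of_notMem (by simp), Multiset.map_cons, Finset.map_val,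
      Multiset.map_map]
    rfl

/-- the triangularity can be tested on generators -/
theorem triangular_of_generators {ι : Type*} {V : Type*} [AddCommGroup V] [Module K V]
    {ρ : R →+* Module.End K V} {J : Type*} [Fintype J] {g : ι → R}
    (hg : Algebra.adjoin ℤ (Set.range g) = ⊤) (b : Basis J K V) (c : J → R →+* K) (rk : J → ℕ)
    (h : ∀ s j i, rk i ≤ rk j → b.repr (ρ (g s) (b j)) i = b.repr (c j (g s) • b j) i) (r : R) :
    ∀ j i, rk i ≤ rk j → b.repr (ρ r (b j)) i = b.repr (c j r • b j) i := by
  classical
  have hr : r ∈ Algebra.adjoin ℤ (Set.range g) := hg ▸ Algebra.mem_top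
  induction hr using Algebra.adjoin_induction with
  | mem x hx =>
    obtain ⟨s, rfl⟩ := hx
    exact h s
  | algebraMap n =>
    intro j i _
    rw [eq_intCast, map_intCast, map_intCast]
    have h1 : ((n : Module.End K V)) (b j) = (n : K) • b j := by simp [Int.cast_smul_eq_zsmul]
    rw [h1]
  | add x y _ _ hx hy =>
    intro j i hij
    rw [map_add, map_add, add_smul, LinearMap.add_apply, map_add, map_add, Finsupp.add_apply,
      Finsupp.add_apply, hx j i hij, hy j i hij]
  | mul x y _ _ hx hy =>
    intro j i hij
    have e1 : ρ y (b j) = ∑ k, b.repr (ρ y (b j)) k • b k := (b.sum_repr _).symm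
    rw [map_mul, map_mul, Module.End.mul_apply, e1, map_sum, map_sum, Finsupp.finsetSum_apply]
    simp only [map_smul, Finsupp.smul_apply, smul_eq_mul]
    have e2 : ∀ k, b.repr (ρ y (b j)) k * b.repr (ρ x (b k)) i =
        if k = j then c j y * b.repr (c j x • b j) i else 0 := by
      intro k
      by_cases hk : rk k ≤ rk j
      · rw [hy j k hk, map_smul, Finsupp.smul_apply, Basis.repr_self, Finsupp.single_apply]
        by_cases hkj : j = k
        · subst hkj
          rw [if_pos rfl, if_pos rfl, hx j i hij, smul_eq_mul, mul_one]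
        · rw [if_neg hkj, if_neg (fun h => hkj h.symm)]
          simp
      · push Not at hk
        rw [if_neg (fun h => by rw [h] at hk; exact lt_irrefl _ hk)]
        rw [hx k i (by omega), map_smul, Finsupp.smul_apply, Basis.repr_self,
          Finsupp.single_apply, if_neg (fun h => by rw [h] at hk; omega)]
        simp
    rw [Finset.sum_congr rfl fun k _ => e2 k, Finset.sum_ite_eq' Finset.univ j]
    simp only [Finset.mem_univ, if_true, map_smul, Finsupp.smul_apply, smul_eq_mul]
    ring

end Tri

end Gouvea.Sys
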