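import Pool.Agent.Work.MP_d3517d_nt.POS.CuspEig
import Pool.Agent.Work.MP_d3517d_nt.POS.CharBasis
import Pool.Agent.Work.MP_d3517d_nt.POS.SysTri

/-!
# The systems of eigenvalues of the functions on the cusps of `Γ₀(L)` (MP_d3517d_nt, POS)
-/

set_option autoImplicit false

open Finset Module

noncomputable section

namespace Gouvea.POS

open Gouvea.Sys

variable {K : Type*} [Field K]

/-- the eigenvalue of `T_q` or `U_q` on the line `(d, ψ)` -/
def lam (al be : ℕ → K) (L d : ℕ) (ψ : DirichletCharacter K (cg L d)) (q : ℕ) : K :=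
  (if q ∣ d then 0 else al q * ψ⁻¹ q) + (if q ∣ L / d then 0 else q * be q * ψ q)

/-- the system of eigenvalues of the line `(d, ψ)` -/
def line {ι : Type*} (pr : ι → ℕ) (al be : ℕ → K) (L d : ℕ) (ψ : DirichletCharacter K (cg L d)) :
    MvPolynomial ι ℤ →+* K :=
  MvPolynomial.eval₂Hom (Int.castRingHom K) (fun i => lam al be L d ψ (pr i))

@[simp]
theorem line_X {ι : Type*} (pr : ι → ℕ) (al be : ℕ → K) (L d : ℕ)
    (ψ : DirichletCharacter K (cg L d)) (i : ι) :
    line pr al be L d ψ (MvPolynomial.X i) = lam al be L d ψ (pr i) := by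
  simp [line]

theorem map_val_eq_sum {α β : Type*} (s : Finset α) (f : α → β) :
    s.val.map f = ∑ i ∈ s, ({f i} : Multiset β) := by
  rw [← Multiset.sum_map_singleton (s.val.map f), Multiset.map_map]
  rfl

variable [IsAlgClosed K] [CharZero K]

/-- a vector with given invariants -/
def repU {L d : ℕ} (hL : 0 < L) (hd : d ∣ L) (s : (ZMod (cg L d))ˣ) : ℤ :=
  (exists_rep hL hd s).choose

lemma repU_spec {L d : ℕ} (hL : 0 < L) (hd : d ∣ L) (s : (ZMod (cg L d))ˣ) :
    IsCoprime (repU hL hd s) (d : ℤ) ∧ cd L (d : ℤ) = d ∧ cs L d (repU hL hd s) d = s :=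
  (exists_rep hL hd s).choose_spec

/-- **The systems of eigenvalues of the functions on the cusps.** -/
theorem Sys_cusps {ι : Type*} (pr : ι → ℕ) (hpr : ∀ i, (pr i).Prime) {L : ℕ} (hL : 0 < L)
    (S : Finset ℕ) (hS : ∀ d ∈ S, d ∣ L) {V : Type*} [AddCommGroup V] [Module K V]
    (ρ : MvPolynomial ι ℤ →+* Module.End K V) (ev : V →ₗ[K] (ℤ × ℤ → K)) (al be : ℕ → K)
    (hinj : ∀ x, (∀ u v, IsCoprime u v → cd L v ∈ S → ev x (u, v) = 0) → x = 0)
    (hex : ∀ d ∈ S, ∀ ψ : DirichletCharacter K (cg L d), ∃ x : V, ∀ u v, IsCoprime u v →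
      ev x (u, v) = if cd L v = d then ψ (cs L d u v) else 0)
    (hinv : ∀ x a b c e u v, a * e - b * c = 1 → (L : ℤ) ∣ c → IsCoprime u v →
      ev x (a * u + b * v, c * u + e * v) = ev x (u, v))
    (hhom : ∀ x i u v, IsCoprime u v →
      be (pr i) * ev x (pr i * u, pr i * v) = al (pr i) * ev x (u, v))
    (hsupp : ∀ x u v, IsCoprime u v → cd L v ∉ S → ev x (u, v) = 0)
    (hT : ∀ x i u v, IsCoprime u v → cd L v ∈ S → ev (ρ (MvPolynomial.X i) x) (u, v) =
      be (pr i) * (∑ b ∈ range (pr i), ev x (u + b * v, pr i * v) +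
        if pr i ∣ L then 0 else ev x (pr i * u, v))) :
    ∃ _ : FiniteDimensional K V,
      Sys ρ = ∑ d ∈ S, ∑ ψ : DirichletCharacter K (cg L d), {line pr al be L d ψ} := by
  classical
  have hne : ∀ d : {d // d ∈ S}, NeZero (cg L d) := fun d =>
    ⟨(cg_pos (Nat.pos_of_dvd_of_pos (hS d d.2) hL)).ne'⟩
  -- the coordinates
  let Φ : V →ₗ[K] (∀ d : {d // d ∈ S}, (ZMod (cg L d))ˣ → K) :=
    { toFun := fun x d s => ev x (repU hL (hS d d.2) s, d)
      map_add' := fun x y => by
        funext d s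
        simp
      map_smul' := fun a x => by
        funext d s
        simp }
  have hΦ : ∀ x (d : {d // d ∈ S}) s, Φ x d s = ev x (repU hL (hS d d.2) s, d) := fun _ _ _ => rfl
  -- the value at any vector
  have hval : ∀ x u v (h : IsCoprime u v) (hv : cd L v ∈ S),
      ev x (u, v) = Φ x ⟨cd L v, hv⟩ (isUnit_cs hL h).unit := by
    intro x u v h hv
    rw [hΦ]
    obtain ⟨h1, h2, h3⟩ := repU_spec hL (hS _ hv) (isUnit_cs hL h).unit
    obtain ⟨a, b, c, e, e1, e2, e3, e4⟩ := exists_smul hL h h1 h2.symm (by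
      rw [h3, IsUnit.unit_spec])
    rw [← hinv x a b c e u v e1 e2 h, e3, e4]
  have hinj' : Function.Injective Φ := by
    rw [injective_iff_map_eq_zero]
    intro x hx
    refine hinj x fun u v h hv => ?_
    rw [hval x u v h hv, hx]
    rfl
  let b0 := Pi.basis (fun d : {d // d ∈ S} => charBasis K (cg L d))
  have hsurj' : Function.Surjective Φ := by
    rw [← LinearMap.range_eq_top, eq_top_iff, ← b0.span_eq, Submodule.span_le]
    rintro _ ⟨⟨d, ψ⟩, rfl⟩
    obtain ⟨x, hx⟩ := hex d d.2 ψ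
    refine ⟨x, ?_⟩
    rw [Pi.basis_apply]
    funext d' s
    obtain ⟨h1, h2, h3⟩ := repU_spec hL (hS d' d'.2) s
    rw [hΦ, hx _ _ h1, h2]
    by_cases hd : d' = d
    · subst hd
      rw [if_pos rfl, h3, Pi.single_eq_same, charBasis_apply]
      rfl
    · rw [if_neg (fun h => hd (Subtype.ext h)), Pi.single_eq_of_ne hd]
      rfl
  let Φe := LinearEquiv.ofBijective Φ ⟨hinj', hsurj'⟩
  let b := b0.map Φe.symm
  have hfd : FiniteDimensional K V := b.finiteDimensional_of_finite
  refine ⟨hfd, ?_⟩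
  have hrepr : ∀ x j, b.repr x j = (charBasis K (cg L j.1)).repr (Φ x j.1) j.2 := by
    intro x j
    rw [Basis.map_repr, LinearEquiv.trans_apply, LinearEquiv.symm_symm]
    exact Pi.basis_repr _ _ _
  have hb : ∀ j, Φ (b j) = Pi.single j.1 (chf K j.2) := by
    intro j
    have h1 : Φ (b j) = b0 j := by
      change Φe (b0.map Φe.symm j) = b0 j
      rw [Basis.map_apply, LinearEquiv.apply_symm_apply]
    rw [h1, Pi.basis_apply, charBasis_apply]
  -- the values of the basis functions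
  have hE : ∀ (j : Σ d : {d // d ∈ S}, DirichletCharacter K (cg L d)) u v, IsCoprime u v →
      ev (b j) (u, v) = if cd L v = j.1 then j.2 (cs L j.1 u v) else 0 := by
    intro j u v h
    by_cases hv : cd L v ∈ S
    · rw [hval _ u v h hv, hb]
      by_cases hj : (⟨cd L v, hv⟩ : {d // d ∈ S}) = j.1
      · obtain ⟨d, ψ⟩ := j
        simp only at hj
        subst hj
        rw [if_pos rfl, Pi.single_eq_same]
        change ψ _ = ψ _
        rw [IsUnit.unit_spec]
      · rw [Pi.single_eq_of_ne hj, if_neg (fun h => hj (Subtype.ext h))]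
        rfl
    · rw [hsupp _ u v h hv, if_neg]
      intro h1
      exact hv (h1 ▸ j.1.2)
  -- triangularity
  have htri := Gouvea.Sys.triangular_of_generators (ρ := ρ)
    (g := fun i => (MvPolynomial.X i : MvPolynomial ι ℤ)) MvPolynomial.adjoin_range_X b
    (fun j => line pr al be L j.1 j.2) (fun j => L - j.1) (by
      intro i j j' hjj
      have hle : (j.1 : ℕ) ≤ j'.1 := by
        have h1 := Nat.le_of_dvd hL (hS j.1 j.1.2)
        have h2 := Nat.le_of_dvd hL (hS j'.1 j'.1.2)
        have h3 : L - (j'.1 : ℕ) ≤ L - j.1 := hjj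
        omega
      rw [hrepr, hrepr]
      congr 2
      funext s
      obtain ⟨h1, h2, h3⟩ := repU_spec hL (hS j'.1 j'.1.2) s
      rw [hΦ, hΦ, hT _ _ _ _ h1 (by rw [h2]; exact j'.1.2), map_smul, Pi.smul_apply, smul_eq_mul,
        line_X]
      exact hecke_E (E := fun u v => ev (b j) (u, v)) hL
        (Nat.pos_of_dvd_of_pos (hS j.1 j.1.2) hL) (hpr i) (hE j)
        (fun u v h => hhom (b j) i u v h) h1 (by rw [h2]; exact hle))
  have hmain := Gouvea.Sys.Sys_of_triangular _ rfl b (fun j => line pr al be L j.1 j.2)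
    (fun j => L - j.1) htri
  rw [hmain, map_val_eq_sum, Fintype.sum_sigma, ← Finset.sum_coe_sort S]

end Gouvea.POS
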