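import Pool.Agent.Work.MP_d3517d_nt.POS.CombE
import Pool.Agent.Work.MP_d3517d_nt.Fin.Main
import Pool.Agent.Work.MP_d3517d_nt.Fin.SrcApx
import Pool.Agent.Work.MP_d3517d_nt.NF.Partial
import Pool.Agent.Work.MP_d3517d_nt.ES.Integral

/-!
# Positivity of the density of the newforms in one class, `p ≥ 5` (MP_d3517d_nt, POS)

`newden_pos`: if `f₀` is a newform of level `N`, `p ∤ N`, then the density of the newforms of
level `N` which are congruent to `f₀` is positive. For `n + n' + 2 = (p - 1) m` it is `1 / (p - 1) m`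
times the number of the `N`-new systems of level `N p` in the weights `n + 2` and (twisted)
`n' + 2`, plus the Eisenstein lines, minus the trivial one.
-/

set_option autoImplicit false

open MvPolynomial Gouvea.Sys Gouvea.ES Gouvea.Desc Gouvea.Fin Gouvea.NF ArithmeticFunction

noncomputable section

namespace Gouvea.POS

variable {p : ℕ} [Fact p.Prime] (j : algebraicClosure ℚ ℂ →+* PadicAlgCl p)

theorem denF_indep {N M : ℕ} {A : Set Nat.Primes} {c : Nat.Primes → PadicAlgCl p}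
    {s α α' : PadicAlgCl p} {m m' : ℝ} (h : 2 ∣ N)
    (S : Set Nat.Primes → (Nat.Primes → PadicAlgCl p) → ℝ) :
    denF N M A c s α m S = denF N M A c s α' m' S := by
  unfold denF
  rw [if_pos h, if_pos h]

theorem sum_beta (N : ℕ) (hN : 0 < N) :
    ∑ x ∈ N.divisorsAntidiagonal, (moebius * moebius) x.1 = moebius N := by
  have h1 : (moebius * moebius) * ((zeta : ArithmeticFunction ℕ) : ArithmeticFunction ℤ) =
      moebius := by
    rw [mul_assoc, moebius_mul_coe_zeta, mul_one]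
  have h2 := congrArg (fun f : ArithmeticFunction ℤ => f N) h1
  rw [← h2]
  beta_reduce
  rw [ArithmeticFunction.mul_apply]
  refine Finset.sum_congr rfl fun x hx => ?_
  have hx2 : x.2 ≠ 0 := by
    intro h0
    have h3 := (Nat.mem_divisorsAntidiagonal.1 hx).1
    rw [h0, mul_zero] at h3
    omega
  rw [natCoe_apply, zeta_apply_ne hx2, Nat.cast_one, mul_one]

theorem cS_MC (M k : ℕ) [NeZero M] (A : Set Nat.Primes) (c : Nat.Primes → PadicAlgCl p) :
    (cS M k (InC j A c) : ℝ) = MC j (Sys (rhoC M k)) A c := by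
  rw [cS_tot, tot_eq_MC]

theorem primeTo_InC_mul (N : ℕ) (c : Nat.Primes → PadicAlgCl p) :
    PrimeTo (N * p) (InC j (AN p N) c) := by
  intro χ χ' h h1 q hq
  rw [← h q hq]
  exact h1 q hq

theorem hh_nonneg (N : ℕ) (γ : Nat.Primes → kap p) (a : kap p) {m : ℝ} (hm : 0 ≤ m)
    (A : Set Nat.Primes) (n g : ℕ) (ψ : DirichletCharacter ℂ g) : 0 ≤ hh j N γ a m A n g ψ := by
  unfold hh
  split_ifs
  · exact ind_nonneg _
  · exact mul_nonneg (ind_nonneg _) (div_nonneg (add_nonneg (ind_nonneg _) (ind_nonneg _)) hm)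

theorem hh_changeLevel (N : ℕ) (γ : Nat.Primes → kap p) (a : kap p) (m : ℝ) (n : ℕ) {g g' : ℕ}
    (hg : g ∣ g') (hg' : g' ∣ N) (ψ : DirichletCharacter ℂ g) :
    hh j N γ a m (AN p N) n g' (DirichletCharacter.changeLevel hg ψ) =
      hh j N γ a m (AN p N) n g ψ := by
  have hA : ∀ q ∈ AN p N \ {pr2}, ¬ (q : ℕ) ∣ g' := fun q hq h =>
    hq.1 ((h.trans hg').mul_right p)
  have h1 : QQ j (AN p N) n γ (DirichletCharacter.changeLevel hg ψ) ↔ QQ j (AN p N) n γ ψ :=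
    QQ_changeLevel j hg hA ψ
  unfold hh
  rw [ind_congr h1]
  by_cases h2 : 2 ∣ N
  · rw [if_pos h2, if_pos h2]
  · have h3 : ¬ ((pr2 : Nat.Primes) : ℕ) ∣ g' := fun h => h2 (h.trans hg')
    rw [if_neg h2, if_neg h2, ← map_inv, cu_changeLevel j hg ψ h3, cu_changeLevel j hg ψ⁻¹ h3]

theorem sum_CS_nonneg {N : ℕ} (hN : 0 < N) (hpN : ¬ p ∣ N) (γ : Nat.Primes → kap p) (a : kap p)
    {m : ℝ} (hm : 0 ≤ m) (n : ℕ) :
    0 ≤ ∑ x ∈ N.divisorsAntidiagonal, (((moebius * moebius) x.1 : ℤ) : ℝ) *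
      CS (hh j N γ a m (AN p N) n) (x.2 * p) := by
  have h1 := sum_beta_char_nonneg N hN (fun g ψ => hh j N γ a m (AN p N) n g ψ)
    (fun g ψ => hh_nonneg j N γ a hm (AN p N) n g ψ)
    (fun g g' hg hg' ψ => hh_changeLevel j N γ a m n hg hg' ψ)
  have h2 : ∑ x ∈ N.divisorsAntidiagonal, (((moebius * moebius) x.1 : ℤ) : ℝ) *
      CS (hh j N γ a m (AN p N) n) (x.2 * p) =
      2 * ∑ x ∈ N.divisorsAntidiagonal, (((moebius * moebius) x.1 : ℤ) : ℝ) *
        ∑ d ∈ x.2.divisors, ∑ ψ : DirichletCharacter ℂ (Nat.gcd d (x.2 / d)),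
          hh j N γ a m (AN p N) n _ ψ := by
    rw [Finset.mul_sum]
    refine Finset.sum_congr rfl fun x hx => ?_
    have hx2 : x.2 ∣ N := Nat.dvd_of_mem_divisors (Nat.snd_mem_divisors_of_mem_antidiagonal hx)
    have hx0 : x.2 ≠ 0 := fun h0 => by
      rw [h0] at hx2
      exact hN.ne' (Nat.eq_zero_of_zero_dvd hx2)
    rw [CS_mul_prime _ hx0 (Fact.out : p.Prime) fun h => hpN (h.trans hx2)]
    unfold CS SH
    ring
  rw [h2]
  exact mul_nonneg (by norm_num) h1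

/-- **Positivity of the density of the newforms in the class of a newform**, `p ≥ 5`. -/
theorem newden_pos (hp : 5 ≤ p) {N : ℕ} (hN : 0 < N) (hpN : ¬ p ∣ N)
    (hEX : ∀ n, ExactES n) (hI : Int1) {k0 : ℕ} {f0 : Gouvea.Cusp N k0}
    (hf0 : IsNewform N k0 f0) : 0 < newden bet N (clc j f0) (k0 - 2) := by
  classical
  have : NeZero N := ⟨hN.ne'⟩
  have hp3 : 3 ≤ p := by omega
  have hpp : p.Prime := Fact.out
  have hne : f0 ≠ 0 := by
    rintro rfl
    have h1 := hf0.norm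
    rw [show coef (⇑(0 : Gouvea.Cusp N k0)) 1 = 0 from ?_] at h1
    · exact zero_ne_one h1
    · have h2 := NF.coef_smul (N := N) (k := k0) hN (NF.coe_mem_Sp (0 : Gouvea.Cusp N k0))
        (c := 0) (n := 1)
      simpa using h2
  have hev : Even k0 := by
    rw [← Nat.not_odd_iff_even]
    exact fun h => hne (cusp_odd h f0)
  have hk0 : k0 ≠ 0 := by
    rintro rfl
    exact hne (cusp_weight_zero f0)
  obtain ⟨n, hn⟩ : ∃ n, k0 = n + 2 := ⟨k0 - 2, by
    obtain ⟨i, hi⟩ := hev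
    omega⟩
  subst hn
  rw [Nat.add_sub_cancel]
  have hev' : Even n := (Nat.even_add.1 hev).2 even_two
  set c : Nat.Primes → PadicAlgCl p := clc j f0 with hcdef
  have hc : ∀ q ∈ AN p N, ‖c q‖ ≤ 1 := fun q hq =>
    norm_emb_le j (isIntegral_coef hN q.2 (fun h => hq (Dvd.dvd.mul_right h p)) hf0)
  -- the second weight
  obtain ⟨n', hn'⟩ : ∃ n', n + n' + 2 = (p - 1) * (n + 2) := by
    have h1 : n + 2 ≤ (p - 1) * (n + 2) := Nat.le_mul_of_pos_left _ (by omega)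
    exact ⟨(p - 1) * (n + 2) - (n + 2), by omega⟩
  have hpe : Even (p - 1) := by
    obtain ⟨k, hk⟩ := hpp.odd_of_ne_two (by omega)
    exact ⟨k, by omega⟩
  have hevn' : Even n' := by
    have h1 : Even (n + n' + 2) := hn' ▸ hpe.mul_right _
    have h2 : Even (n + n') := (Nat.even_add.1 h1).2 even_two
    exact (Nat.even_add.1 h2).1 hev'
  have hn'0 : n' ≠ 0 := by
    rintro rfl
    have h1 : 2 * (n + 2) ≤ (p - 1) * (n + 2) := Nat.mul_le_mul_right _ (by omega)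
    omega
  -- the choice at `2`
  set r := n % (p - 1) with hr
  set s : PadicAlgCl p := sr p r with hs
  set α : PadicAlgCl p := if 2 ∣ N then 0 else rt (c pr2) r with hα
  set m : ℝ := if 2 ∣ N then 1 else mu (c pr2) r with hm
  have hs1 : ‖s‖ ≤ 1 := norm_sr_le r
  have hs2 : rs s ^ 2 = 2 ^ n := by
    rw [hs, rs_sr]
    have := two_pow_mod (p := p) hp3 n 0
    simpa using this.symm
  have hm1 : 1 ≤ m := by
    rw [hm]
    unfold mu
    split_ifs <;> norm_num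
  have hα1 : ‖α‖ ≤ 1 := by
    rw [hα]
    split_ifs with h2
    · simp
    · have hc2 := hc pr2 (pr2_mem hp3 h2)
      exact (isRt_rt hp hc2 r).norm_le hc2
  have hα2 : ¬ 2 ∣ N → rs α ^ 2 - rs (c pr2) * rs α + 2 ^ (n + 1) = 0 ∧
      rs α ≠ 0 ∧ rs α ^ 2 ≠ 2 ^ n ∧
      m = if ‖c pr2 - 2 * α‖ < 1 then (2 : ℝ) else 1 := by
    intro h2
    have hc2 := hc pr2 (pr2_mem hp3 h2)
    have hαe : α = rt (c pr2) r := by rw [hα, if_neg h2]
    have hrt := isRt_rt hp hc2 r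
    rw [← hαe] at hrt
    have e1 : rs α ^ 2 - rs (c pr2) * rs α + 2 ^ (n + 1) = 0 := by
      have h5 := congrArg rs hrt.1
      rw [rs_zero, sub_eq_add_neg] at h5
      have h3 : ‖α ^ 2‖ ≤ 1 := by rw [norm_pow]; exact pow_le_one₀ (norm_nonneg _) hα1
      have h4 : ‖-(c pr2 * α)‖ ≤ 1 := by rw [norm_neg]; exact norm_mul_le_one hc2 hα1
      have h6 : ‖(2 : PadicAlgCl p) ^ (r + 1)‖ ≤ 1 := by
        rw [norm_pow]; exact pow_le_one₀ (norm_nonneg _) norm_two_le
      rw [rs_add (norm_add_le_one h3 h4) h6, rs_add h3 h4, rs_neg (norm_mul_le_one hc2 hα1),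
        rs_mul hc2 hα1, rs_pow hα1, rs_two_pow, hr, ← two_pow_mod hp3 n 1] at h5
      rw [← h5]
      ring
    have hne2 : (2 : kap p) ^ (n + 1) ≠ 0 := pow_ne_zero _ (two_ne hp3)
    refine ⟨e1, ?_, ?_, ?_⟩
    · intro h0
      rw [h0] at e1
      apply hne2
      linear_combination e1
    · intro h0
      have h6 := two_pow_mod (p := p) hp3 n 0
      rw [add_zero, add_zero, ← hr] at h6
      have h3 : ‖α ^ 2‖ ≤ 1 := by rw [norm_pow]; exact pow_le_one₀ (norm_nonneg _) hα1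
      have h7 : ‖(2 : PadicAlgCl p) ^ r‖ ≤ 1 := by
        rw [norm_pow]; exact pow_le_one₀ (norm_nonneg _) norm_two_le
      rw [h6, ← rs_two_pow, ← rs_pow hα1, rs_eq_iff h3 h7, hrt.2] at h0
      exact lt_irrefl _ h0
    · rw [hm, if_neg h2, hαe, mu]
  -- the levels
  set Δ : ℝ := if n = 0 then dlt N (AN p N) (fun q => rs (c q)) (rs α) m else 0 with hΔ
  have hlev : ∀ x ∈ N.divisorsAntidiagonal,
      ((p : ℝ) - 1) * ((n + 2 : ℕ) : ℝ) * den bet N x.2 c n =
      (cS (x.2 * p) (n + 2) (InC j (AN p N) c) : ℝ) +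
      (cS (x.2 * p) (n' + 2) (InC j (AN p N) (twc (n + 1) c)) : ℝ) +
      CS (hh j N (fun q => rs (c q)) (rs α) m (AN p N) n) (x.2 * p) - Δ := by
    intro x hx
    have hx2 : x.2 ∣ N := Nat.dvd_of_mem_divisors (Nat.snd_mem_divisors_of_mem_antidiagonal hx)
    have hx0 : NeZero x.2 := ⟨fun h0 => by
      rw [h0] at hx2
      exact hN.ne' (Nat.eq_zero_of_zero_dvd hx2)⟩
    have : NeZero p := ⟨by omega⟩
    rw [cS_MC, cS_MC, ← level_eq j hp hI hEX hx2 hpN hev' hevn' hn'0 hn' hc hs1 hs2 hα1 hα2,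
      den_eq]
    by_cases h2 : 2 ∣ N
    · rw [denF_indep h2]
    · rw [hα, hm, if_neg h2, if_neg h2]
  -- the sum
  have hsum : ((p : ℝ) - 1) * ((n + 2 : ℕ) : ℝ) * newden bet N c n =
      (∑ x ∈ N.divisorsAntidiagonal, (((moebius * moebius) x.1 : ℤ) : ℝ) *
        (cS (x.2 * p) (n + 2) (InC j (AN p N) c) : ℝ)) +
      (∑ x ∈ N.divisorsAntidiagonal, (((moebius * moebius) x.1 : ℤ) : ℝ) *
        (cS (x.2 * p) (n' + 2) (InC j (AN p N) (twc (n + 1) c)) : ℝ)) +
      (∑ x ∈ N.divisorsAntidiagonal, (((moebius * moebius) x.1 : ℤ) : ℝ) *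
        CS (hh j N (fun q => rs (c q)) (rs α) m (AN p N) n) (x.2 * p)) -
      ((moebius N : ℤ) : ℝ) * Δ := by
    rw [newden, Finset.mul_sum, ← sum_beta N hN]
    push_cast
    rw [Finset.sum_mul, ← Finset.sum_add_distrib, ← Finset.sum_add_distrib,
      ← Finset.sum_sub_distrib]
    refine Finset.sum_congr rfl fun x hx => ?_
    have h1 := hlev x hx
    push_cast at h1
    linear_combination ((((moebius * moebius) x.1 : ℤ) : ℝ)) * h1
  have hcop : N.Coprime p := ((Nat.Prime.coprime_iff_not_dvd hpp).2 hpN).symm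
  have h1 : (2 : ℝ) ≤ ∑ x ∈ N.divisorsAntidiagonal, (((moebius * moebius) x.1 : ℤ) : ℝ) *
      (cS (x.2 * p) (n + 2) (InC j (AN p N) c) : ℝ) := by
    have h3 := sigma_mul_cN_le (n + 2) hN hpp.pos hcop (primeTo_InC_mul j N c)
    have h4 : 0 < cN N (n + 2) (InC j (AN p N) c) := by
      rw [cN, Set.ncard_pos ((finite_setOf_isNewform N (n + 2) hN).subset fun F hF => hF.1)]
      refine ⟨f0, hf0, fun q _ => ?_⟩
      rw [chiNF_X, hcdef, clc, sub_self, norm_zero]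
      exact one_pos
    have h5 : p.divisors.card = 2 := by
      rw [Nat.Prime.divisors hpp, Finset.card_pair hpp.one_lt.ne]
    rw [h5] at h3
    have h6 : (2 : ℤ) ≤ ((2 : ℕ) : ℤ) * (cN N (n + 2) (InC j (AN p N) c) : ℤ) := by
      have : (1 : ℤ) ≤ (cN N (n + 2) (InC j (AN p N) c) : ℤ) := by exact_mod_cast h4
      push_cast
      linarith
    exact_mod_cast h6.trans h3
  have h2 : (0 : ℝ) ≤ ∑ x ∈ N.divisorsAntidiagonal, (((moebius * moebius) x.1 : ℤ) : ℝ) *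
      (cS (x.2 * p) (n' + 2) (InC j (AN p N) (twc (n + 1) c)) : ℝ) := by
    have h3 := sum_beta_cS_nonneg (n' + 2) hN hpp.pos hcop
      (primeTo_InC_mul j N (twc (n + 1) c))
    exact_mod_cast h3
  have h3 := sum_CS_nonneg j hN hpN (fun q => rs (c q)) (rs α) (zero_le_one.trans hm1) n
  have h4 : 0 ≤ Δ ∧ Δ ≤ 1 := by
    rw [hΔ]
    split_ifs
    · exact ⟨dlt_nonneg hm1, dlt_le_one hm1⟩
    · exact ⟨le_rfl, zero_le_one⟩
  have h5 : ((moebius N : ℤ) : ℝ) ≤ 1 := by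
    have h6 := abs_moebius_le_one (n := N)
    exact_mod_cast (le_abs_self _).trans h6
  have h6 : ((moebius N : ℤ) : ℝ) * Δ ≤ 1 := by
    calc ((moebius N : ℤ) : ℝ) * Δ ≤ 1 * Δ := mul_le_mul_of_nonneg_right h5 h4.1
      _ ≤ 1 := by rw [one_mul]; exact h4.2
  have h7 : (0 : ℝ) < ((p : ℝ) - 1) * ((n + 2 : ℕ) : ℝ) := by
    have : (1 : ℝ) < p := by exact_mod_cast hpp.one_lt
    have h8 : (0 : ℝ) < ((n + 2 : ℕ) : ℝ) := by positivity
    exact mul_pos (by linarith) h8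
  refine pos_of_mul_pos_right (a := ((p : ℝ) - 1) * ((n + 2 : ℕ) : ℝ)) ?_ h7.le
  rw [hsum]
  linarith

end Gouvea.POS
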