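import Pool.Agent.Work.MP_d3517d_nt.POS.GrE
import Pool.Agent.Work.MP_d3517d_nt.Fin.Bet

/-!
# The density of a class as a number of systems at level `M p` (MP_d3517d_nt, positivity)

`gre`: for `n0 + n1 + 2 = (p - 1) m`, `(p - 1) m` times the density `bet M A c n0` is one half of
the number of systems of level `M p` and weight `n0 + 2` in the class `(A, c)` plus one half of the
number of those of weight `n1 + 2` in the class `c q / q ^ (n0 + 1)`.
-/

set_option autoImplicit false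

open Finset Matrix Gouvea.PS Gouvea.Sys Gouvea.ES Gouvea.Fin

noncomputable section

namespace Gouvea.POS

variable {p : ℕ} [Fact p.Prime]

/-! ### classes -/

section Cls

variable {A : Set Nat.Primes} {c : Nat.Primes → PadicAlgCl p}

open Classical in
/-- Counting the systems which are small on the ideal of `c`, transported by a homomorphism `g`. -/
theorem count_hom (hG : Good A c) (g : MvPolynomial A ℤ →+* HR0 p)
    {ι : Type} [Fintype ι] [DecidableEq ι] (B : HR →+* Matrix ι ι ℤ) :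
    (SJ B ((mc A c hG.choose).map g)).card = fdeg A c *
      ((Sys (matRep (intRep (PadicAlgCl p) B))).filter fun χ : HR →+* PadicAlgCl p =>
        ∀ q : A, ‖χ (incl p (g (MvPolynomial.X q))) - c q‖ < 1).card := by
  have hc := hG.choose
  have hH := (exists_fdeg A c hG).choose_spec.2 ((incl p).comp g)
    (Sys (matRep (intRep (PadicAlgCl p) B))) (Sys_galois B)
    (fun χ hχ r => norm_le_of_mem_Sys B hχ _)
  have e1 : SJ B ((mc A c hG.choose).map g) =
      (Sys (matRep (intRep (PadicAlgCl p) B))).filter fun χ =>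
        ∀ t ∈ mc A c hG.choose, ‖χ (((incl p).comp g) t)‖ < 1 := by
    rw [SJ_eq]
    apply Multiset.filter_congr
    intro χ hχ
    have h3 := small_iff g (mc A c hc) ∅ (χ.comp (incl p))
      (fun r => norm_le_of_mem_Sys B hχ _)
    simp only [RingHom.comp_apply, Ideal.span_empty, sup_bot_eq, Set.mem_empty_iff_false,
      false_imp_iff, imp_true_iff, and_true] at h3 ⊢
    exact h3
  have e2 : ((Sys (matRep (intRep (PadicAlgCl p) B))).filter fun χ : HR →+* PadicAlgCl p =>
        ∀ q : A, ‖χ (incl p (g (MvPolynomial.X q))) - c q‖ < 1) =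
      (Sys (matRep (intRep (PadicAlgCl p) B))).filter fun χ =>
        ∀ r, ‖χ (((incl p).comp g) r) - evc A c r‖ < 1 := by
    apply Multiset.filter_congr
    intro χ hχ
    rw [class_iff hc ((incl p).comp g) χ (fun r => norm_le_of_mem_Sys B hχ r)]
    rfl
  rw [e1, e2, hH, fdeg, dif_pos hG]

/-- If there is a system in the class of `c`, transported by `g`, then `c` is good. -/
theorem good_of_hom (hc : ∀ q ∈ A, ‖c q‖ ≤ 1) (g : MvPolynomial A ℤ →+* HR0 p)
    {ι : Type} [Fintype ι] [DecidableEq ι] (B : HR →+* Matrix ι ι ℤ) (χ : HR →+* PadicAlgCl p)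
    (hχ : χ ∈ Sys (matRep (intRep (PadicAlgCl p) B)))
    (hI : ∀ q : A, ‖χ (incl p (g (MvPolynomial.X q))) - c q‖ < 1) : Good A c := by
  set f := (incl p).comp g with hf
  have h1 : ∀ r, ‖χ (f r) - evc A c r‖ < 1 := by
    rw [class_iff hc f χ (fun r => norm_le_of_mem_Sys B hχ r)]
    exact hI
  have h2 : ∀ r, ‖(χ.comp f) r‖ ≤ 1 := fun r => norm_le_of_mem_Sys B hχ _
  have h3 : resIdeal (χ.comp f) h2 = mc A c hc := by
    ext r
    change ‖χ (f r)‖ < 1 ↔ ‖evc A c r‖ < 1
    constructor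
    · intro h
      have e : evc A c r = χ (f r) - (χ (f r) - evc A c r) := by ring
      rw [e]
      exact norm_sub_lt h (h1 r)
    · intro h
      have e : χ (f r) = (χ (f r) - evc A c r) + evc A c r := by ring
      rw [e]
      exact norm_add_lt (h1 r) h
  have h4 : Module.Finite ℤ (χ.comp f).range :=
    finite_range_of_ker_le (B.comp f) (χ.comp f) fun r hr => eq_zero_of_mem_Sys B hχ hr
  refine ⟨hc, ?_⟩
  rw [← h3]
  exact ⟨isMaximal_resIdeal _ h2 h4, finite_quotient_resIdeal _ h2 h4⟩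

/-- the norm of a prime different from `p` -/
lemma norm_prime {q : Nat.Primes} (hq : (q : ℕ) ≠ p) : ‖((q : ℕ) : PadicAlgCl p)‖ = 1 := by
  have h1 : ‖((q : ℕ) : ℚ_[p])‖ = 1 := by
    rw [Padic.norm_natCast_eq_one_iff]
    exact (Nat.coprime_primes Fact.out q.2).mpr (Ne.symm hq)
  have h2 : ((q : ℕ) : PadicAlgCl p) = algebraMap ℚ_[p] (PadicAlgCl p) ((q : ℕ) : ℚ_[p]) := by
    rw [map_natCast]
  rw [h2, PadicAlgCl.norm_extends, h1]

/-- The class of the twisted systems. -/
lemma tw_class (hA : ∀ q ∈ A, (q : ℕ) ≠ p) (m : ℕ) (χ : HR →+* PadicAlgCl p) :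
    (∀ q : A, ‖χ (incl p (((tw p m).comp (jA p A)) (MvPolynomial.X q))) - c q‖ < 1) ↔
      InP A (fun q => c q / ((q : ℕ) : PadicAlgCl p) ^ m) χ := by
  have key : ∀ q : A, ‖χ (incl p (((tw p m).comp (jA p A)) (MvPolynomial.X q))) - c q‖ =
      ‖χ (MvPolynomial.X (q : Nat.Primes)) - c q / (((q : Nat.Primes) : ℕ) : PadicAlgCl p) ^ m‖ := by
    intro q
    have hq : ((q : Nat.Primes) : ℕ) ≠ p := hA q q.2
    have hn := norm_prime (p := p) hq
    have h0 : (((q : Nat.Primes) : ℕ) : PadicAlgCl p) ≠ 0 := by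
      intro h
      rw [h, norm_zero] at hn
      exact zero_ne_one hn
    have e1 : jA p A (MvPolynomial.X q) =
        MvPolynomial.X (⟨q.1.1, q.1.2, hq⟩ : {l : ℕ // l.Prime ∧ l ≠ p}) := by
      rw [jA, MvPolynomial.eval₂Hom_X', dif_pos hq]
    have e2 : incl p (((tw p m).comp (jA p A)) (MvPolynomial.X q)) =
        (((q : Nat.Primes) : ℕ) : HR) ^ m * MvPolynomial.X (q : Nat.Primes) := by
      rw [RingHom.comp_apply, e1]
      have e3 : tw p m (MvPolynomial.X (⟨q.1.1, q.1.2, hq⟩ : Lp p)) =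
          ((q.1.1 : ℕ) : HR0' p) ^ m * MvPolynomial.X (⟨q.1.1, q.1.2, hq⟩ : Lp p) := tw_X m _
      rw [e3, map_mul, map_pow, map_natCast, incl_X]
      rfl
    rw [e2, map_mul, map_pow, map_natCast]
    have e4 : (((q : Nat.Primes) : ℕ) : PadicAlgCl p) ^ m * χ (MvPolynomial.X (q : Nat.Primes)) - c q
        = (((q : Nat.Primes) : ℕ) : PadicAlgCl p) ^ m * (χ (MvPolynomial.X (q : Nat.Primes)) -
          c q / (((q : Nat.Primes) : ℕ) : PadicAlgCl p) ^ m) := by
      field_simp
    rw [e4, norm_mul, norm_pow, hn, one_pow, one_mul]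
  constructor
  · intro h q hq
    have := h ⟨q, hq⟩
    rwa [key] at this
  · intro h q
    rw [key]
    exact h q q.2

end Cls

/-! ### the identity -/

section Gre

variable (hp2 : p ≠ 2) {M : ℕ} [NeZero M] (hM : 4 ∣ M) (hpM : ¬ p ∣ M)

include hp2 hM hpM in
/-- the number of systems at level `M p` which are small on `J` -/
theorem count_psH [NeZero (M * p)] (hMp : 4 ∣ M * p) (J : Ideal (HR0 p)) {n : ℕ} (hn : Even n) :
    2 * (SJ (AZ (M * p) n hMp hn) J).card =
      ∑ i ∈ range (n + 1), dE (psH hp2 M hM hpM) J n i := by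
  classical
  have h1 := count_dE hM (psH hp2 M hM hpM) (psH_TE hp2 M hM hpM) J hn
    ((intP p (AZ (M * p) n hMp hn)).comp (incl p)) (by
      intro r
      rw [RingHom.comp_apply, incl_X]
      exact congrArg (fun Z : Matrix (Vx (M * p) × Fin (n + 1)) (Vx (M * p) × Fin (n + 1)) ℤ =>
        Z.map (Int.cast : ℤ → ℤ_[p])) (AZ_X hMp hn (⟨r.1, r.2.1⟩ : Nat.Primes)))
  rw [← h1]
  have h2 : toK ((intP p (AZ (M * p) n hMp hn)).comp (incl p)) =
      (intRep (PadicAlgCl p) (AZ (M * p) n hMp hn)).comp (incl p) := by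
    rw [← toK_intP]
    rfl
  have h3 : matRep (toK ((intP p (AZ (M * p) n hMp hn)).comp (incl p))) =
      (matRep (intRep (PadicAlgCl p) (AZ (M * p) n hMp hn))).comp (incl p) := by
    rw [h2]
    rfl
  rw [SJ_eq, h3, Sys_comp, Multiset.filter_map, Multiset.card_map]
  rfl

include hp2 hM hpM in
open Classical in
/-- **The density in terms of level `M p`, `p`-adic form.** -/
theorem gre_padic [NeZero (M * p)] (hMp : 4 ∣ M * p) {A : Set Nat.Primes}
    {c : Nat.Primes → PadicAlgCl p} (hA : ∀ q ∈ A, (q : ℕ) ≠ p) (hc : ∀ q ∈ A, ‖c q‖ ≤ 1)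
    {n0 n1 m : ℕ} (hn0 : Even n0) (hn1 : Even n1) (hm : n0 + n1 + 2 = (p - 1) * m) :
    ((p : ℝ) - 1) * m * bet M A c n0 = (1 / 2) *
      ((((Sys (matRep (intRep (PadicAlgCl p) (AZ (M * p) n0 hMp hn0)))).filter
          fun χ : HR →+* PadicAlgCl p => InP A c χ).card : ℝ) +
        (((Sys (matRep (intRep (PadicAlgCl p) (AZ (M * p) n1 hMp hn1)))).filter
          fun χ : HR →+* PadicAlgCl p =>
            InP A (fun q => c q / ((q : ℕ) : PadicAlgCl p) ^ (n0 + 1)) χ).card : ℝ)) := by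
  rw [bet_eq hp2 M hM hpM]
  by_cases hG : Good A c
  · have hJ : Jc A c = (mc A c hG.choose).map (jA p A) := by
      rw [Jc, dif_pos hG.choose]
    have hJ2 : (Jc A c).map (tw p (n0 + 1)) =
        (mc A c hG.choose).map ((tw p (n0 + 1)).comp (jA p A)) := by
      rw [hJ, Ideal.map_map]
    have h1 := dE_period (psH hp2 M hM hpM) (psH_twist hp2 M hM hpM) (Jc A c) hn1 hm
    rw [← count_psH hp2 hM hpM hMp (Jc A c) hn0,
      ← count_psH hp2 hM hpM hMp ((Jc A c).map (tw p (n0 + 1))) hn1, hJ2, hJ,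
      count_hom hG (jA p A), count_hom hG ((tw p (n0 + 1)).comp (jA p A))] at h1
    have e1 : ((Sys (matRep (intRep (PadicAlgCl p) (AZ (M * p) n0 hMp hn0)))).filter
        fun χ : HR →+* PadicAlgCl p =>
          ∀ q : A, ‖χ (incl p (jA p A (MvPolynomial.X q))) - c q‖ < 1) =
        (Sys (matRep (intRep (PadicAlgCl p) (AZ (M * p) n0 hMp hn0)))).filter
          fun χ : HR →+* PadicAlgCl p => InP A c χ := by
      apply Multiset.filter_congr
      intro χ _
      simp only [incl_jA hA]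
      exact ⟨fun h q hq => h ⟨q, hq⟩, fun h q => h q q.2⟩
    have e2 : ((Sys (matRep (intRep (PadicAlgCl p) (AZ (M * p) n1 hMp hn1)))).filter
        fun χ : HR →+* PadicAlgCl p =>
          ∀ q : A, ‖χ (incl p (((tw p (n0 + 1)).comp (jA p A)) (MvPolynomial.X q))) - c q‖ < 1) =
        (Sys (matRep (intRep (PadicAlgCl p) (AZ (M * p) n1 hMp hn1)))).filter
          fun χ : HR →+* PadicAlgCl p =>
            InP A (fun q => c q / ((q : ℕ) : PadicAlgCl p) ^ (n0 + 1)) χ := by
      apply Multiset.filter_congr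
      intro χ _
      exact tw_class hA (n0 + 1) χ
    rw [e1, e2] at h1
    have hf : (fdeg A c : ℝ) ≠ 0 := by exact_mod_cast (fdeg_pos A c).ne'
    have hp1 : (p : ℝ) - 1 ≠ 0 := by
      have h2 : (1 : ℝ) < p := by exact_mod_cast (Fact.out : p.Prime).one_lt
      linarith
    have h2 := congrArg (Nat.cast : ℕ → ℝ) h1
    push_cast at h2
    rw [betS, if_pos ⟨hG, hn0⟩, dens]
    have h3 : ∀ i, (ddI (psSrc hp2 M hM hpM).H (Jc A c) n0 i : ℝ) =
        (dE (psH hp2 M hM hpM) ((mc A c hG.choose).map (jA p A)) n0 i : ℝ) := by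
      intro i
      rw [hJ]
      rfl
    simp only [h3]
    field_simp
    linarith
  · have h0 : betS (psSrc hp2 M hM hpM) A c n0 = 0 := by
      rw [betS, if_neg fun h => hG h.1]
    rw [h0]
    have e1 : ((Sys (matRep (intRep (PadicAlgCl p) (AZ (M * p) n0 hMp hn0)))).filter
          fun χ : HR →+* PadicAlgCl p => InP A c χ) = 0 := by
      rw [Multiset.filter_eq_nil]
      intro χ hχ hI
      exact hG (good_of_mem hc hA _ χ hχ hI)
    have e2 : ((Sys (matRep (intRep (PadicAlgCl p) (AZ (M * p) n1 hMp hn1)))).filter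
          fun χ : HR →+* PadicAlgCl p =>
            InP A (fun q => c q / ((q : ℕ) : PadicAlgCl p) ^ (n0 + 1)) χ) = 0 := by
      rw [Multiset.filter_eq_nil]
      intro χ hχ hI
      exact hG (good_of_hom hc _ _ χ hχ ((tw_class hA (n0 + 1) χ).mpr hI))
    rw [e1, e2]
    simp

variable (j : algebraicClosure ℚ ℂ →+* PadicAlgCl p)

include hp2 hM hpM in
open Classical in
/-- **The density in terms of level `M p`.** -/
theorem gre [NeZero (M * p)] (hMp : 4 ∣ M * p) {A : Set Nat.Primes}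
    {c : Nat.Primes → PadicAlgCl p} (hA : ∀ q ∈ A, (q : ℕ) ≠ p) (hc : ∀ q ∈ A, ‖c q‖ ≤ 1)
    {n0 n1 m : ℕ} (hn0 : Even n0) (hn1 : Even n1) (hm : n0 + n1 + 2 = (p - 1) * m) :
    haveI := finiteDimensional_Sym ℂ (M * p) n0 hn0
    haveI := finiteDimensional_Sym ℂ (M * p) n1 hn1
    ((p : ℝ) - 1) * m * bet M A c n0 = (1 / 2) *
      ((((Sys (rhoS ℂ (M * p) n0 hMp)).filter fun χ => InC j A c χ).card : ℝ) +
        (((Sys (rhoS ℂ (M * p) n1 hMp)).filter fun χ =>
            InC j A (fun q => c q / ((q : ℕ) : PadicAlgCl p) ^ (n0 + 1)) χ).card : ℝ)) := by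
  have := finiteDimensional_Sym ℂ (M * p) n0 hn0
  have := finiteDimensional_Sym ℂ (M * p) n1 hn1
  rw [gre_padic hp2 hM hpM hMp hA hc hn0 hn1 hm, Sys_rhoS ℂ hMp hn0, Sys_rhoS ℂ hMp hn1]
  have h1 := card_emb (AZ (M * p) n0 hMp hn0) j (InP A c)
  have h2 := card_emb (AZ (M * p) n1 hMp hn1) j
    (InP A (fun q => c q / ((q : ℕ) : PadicAlgCl p) ^ (n0 + 1)))
  have e1 : ∀ (c' : Nat.Primes → PadicAlgCl p) (χ : MvPolynomial Nat.Primes ℤ →+* ℂ),
      InC j A c' χ ↔ InP A c' (fun r => emb p j (χ r)) := fun c' χ => Iff.rfl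
  simp only [e1]
  rw [h1, h2]

end Gre

end Gouvea.POS
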