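import Pool.Agent.Work.MP_d3517d_nt.POS.SummE
import Pool.Agent.Work.MP_d3517d_nt.PS.SourceE
import Pool.Agent.Work.MP_d3517d_nt.ES.Mult2

/-!
# Counting systems of eigenvalues at level `M p` (MP_d3517d_nt, positivity, B2)

`exists_dd` : for every ideal `J` of the Hecke ring without `p`, twice the number of systems of
eigenvalues at level `M p` and weight `n + 2` which are small on `J` is `Σ_{i ≤ n} dd J n i`, where
`dd` is periodic in `n` and `i` (period `p - 1`), symmetric under `i ↦ n - i`, and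
`dd J (n + 2 j) (i + j) = dd (τ_j J) n i`, `τ_j : X_l ↦ l ^ j X_l`.
-/

set_option autoImplicit false

open Finset Matrix Gouvea.PS Gouvea.Sys

noncomputable section

namespace Gouvea.POS

/-! ### the doubling -/

section Dbl

variable {F : Type} [CommRing F] {A κ : Type} [Fintype A] [DecidableEq A] [Fintype κ]
  [DecidableEq κ]

omit [DecidableEq A] [DecidableEq κ] in
lemma bdg_mulVec' (M : Bool → Matrix (A × κ) (A × κ) F) (w : (A × Bool) × κ → F) (x) :
    (bdg M).mulVec w x = (M x.1.2).mulVec (fun y => w ((y.1, x.1.2), y.2)) (x.1.1, x.2) := by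
  rw [Matrix.mulVec, Matrix.mulVec, dotProduct, dotProduct, Fintype.sum_prod_type,
    Fintype.sum_prod_type, Fintype.sum_prod_type]
  refine Finset.sum_congr rfl fun v _ => ?_
  rw [Fintype.sum_bool]
  simp only [bdg_apply]
  obtain ⟨⟨a, b⟩, i⟩ := x
  cases b <;> simp

variable {K : Type} [Field K] {R : Type} [CommRing R]

/-- the two halves of a vector -/
def halves (K A κ : Type) [Field K] : ((A × Bool) × κ → K) ≃ₗ[K] (A × κ → K) × (A × κ → K) where
  toFun v := (fun y => v ((y.1, true), y.2), fun y => v ((y.1, false), y.2))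
  map_add' _ _ := rfl
  map_smul' _ _ := rfl
  invFun w := fun x => if x.1.2 then w.1 (x.1.1, x.2) else w.2 (x.1.1, x.2)
  left_inv v := by
    funext x
    obtain ⟨⟨a, b⟩, i⟩ := x
    cases b <;> rfl
  right_inv w := rfl

theorem Sys_bdg (T : Bool → R →+* Matrix (A × κ) (A × κ) K) :
    Sys (matRep (bdgHom T)) = Sys (matRep (T true)) + Sys (matRep (T false)) := by
  rw [← Sys_prod]
  refine Sys_congr (halves K A κ) fun r v => ?_
  rw [prodRep_apply]
  refine Prod.ext ?_ ?_
  · funext y
    rw [matRep_apply]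
    exact bdg_mulVec' (fun b => T b r) v ((y.1, true), y.2)
  · funext y
    rw [matRep_apply]
    exact bdg_mulVec' (fun b => T b r) v ((y.1, false), y.2)

omit [Fintype A] [DecidableEq A] [Fintype κ] [DecidableEq κ] in
/-- conjugate representations have the same systems -/
theorem Sys_conj {ι : Type} [Fintype ι] [DecidableEq ι] (S T : R →+* Matrix ι ι K)
    (N : Matrix ι ι K) {c : K} (hc : c ≠ 0) (hN : N * N = c • 1)
    (h1 : ∀ r, S r * N = N * T r) (h2 : ∀ r, T r * N = N * S r) :
    Sys (matRep S) = Sys (matRep T) := by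
  have hinj : Function.Injective (Matrix.mulVecLin N) := by
    intro u v huv
    have h3 := congrArg (fun w => N.mulVec w) huv
    simp only [Matrix.mulVecLin_apply, Matrix.mulVec_mulVec, hN, Matrix.smul_mulVec,
      Matrix.one_mulVec] at h3
    exact smul_right_injective _ hc h3
  refine le_antisymm (Sys_le_of_injective (f := Matrix.mulVecLin N) (fun r u => ?_) hinj)
    (Sys_le_of_injective (f := Matrix.mulVecLin N) (fun r u => ?_) hinj)
  · rw [matRep_apply, matRep_apply, Matrix.mulVecLin_apply, Matrix.mulVecLin_apply,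
      Matrix.mulVec_mulVec, Matrix.mulVec_mulVec, h2]
  · rw [matRep_apply, matRep_apply, Matrix.mulVecLin_apply, Matrix.mulVecLin_apply,
      Matrix.mulVec_mulVec, Matrix.mulVec_mulVec, h1]

end Dbl

variable {p : ℕ} [Fact p.Prime]

/-! ### the twist -/

/-- the Hecke ring without `p` -/
abbrev HR0' (p : ℕ) : Type := MvPolynomial (Lp p) ℤ

/-- `X_l ↦ l ^ j X_l` -/
def tw (p j : ℕ) : HR0' p →+* HR0' p :=
  MvPolynomial.eval₂Hom (Int.castRingHom _) fun l => (l.1 : HR0' p) ^ j * MvPolynomial.X l

omit [Fact p.Prime] in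
lemma tw_X (j : ℕ) (l : Lp p) :
    tw p j (MvPolynomial.X l) = (l.1 : HR0' p) ^ j * MvPolynomial.X l := by
  rw [tw, MvPolynomial.coe_eval₂Hom, MvPolynomial.eval₂_X]

section Twist

variable {h : ℕ} {E V : Type} [Fintype E] [DecidableEq E] [Fintype V]
  [DecidableEq V] {D : Dat p h E V} {R : Type} [CommRing R]

lemma gr_add_mul (H : HRep D R) (n i m : ℕ) (t : R) :
    H.gr (n + (p - 1) * m) i t = H.gr n i t := by
  induction m with
  | zero => simp
  | succ m ih => rw [mul_add, mul_one, ← add_assoc, H.gr_n, ih]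

/-- the graded pieces of all degrees as homomorphisms -/
def grR (H : HRep D R) (n : ℕ) (hn : Even n) (i : ℕ) : R →+* Matrix E E (ZMod p) :=
  grHom H (n + (p - 1) * (2 * i)) (hn.add ((even_two_mul i).mul_left _))
    ⟨i, by
      have h1 := (Fact.out : p.Prime).two_le
      have h2 : 1 * (2 * i) ≤ (p - 1) * (2 * i) := Nat.mul_le_mul_right _ (by omega)
      omega⟩

lemma grR_apply (H : HRep D R) (n : ℕ) (hn : Even n) (i : ℕ) (t : R) :
    grR H n hn i t = H.gr n i t := gr_add_mul H n i (2 * i) t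

/-- the annihilator of a vector -/
def annV {F : Type} [Field F] (G : R →+* Matrix E E F) (v : E → F) : Ideal R where
  carrier := {s | (G s).mulVec v = 0}
  add_mem' := by
    intro s t hs ht
    show (G (s + t)).mulVec v = 0
    have hs' : (G s).mulVec v = 0 := hs
    have ht' : (G t).mulVec v = 0 := ht
    rw [map_add, Matrix.add_mulVec, hs', ht', add_zero]
  zero_mem' := by
    show (G 0).mulVec v = 0
    rw [map_zero, Matrix.zero_mulVec]
  smul_mem' := by
    intro c s hs
    have hs' : (G s).mulVec v = 0 := hs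
    show (G (c * s)).mulVec v = 0
    rw [map_mul, ← Matrix.mulVec_mulVec, hs', Matrix.mulVec_zero]

lemma mem_idNil (H : HRep D R) (I : Ideal R) (n : ℕ) (hn : Even n) (i : ℕ)
    (v : E → ZMod p) : v ∈ idNil H I n i ↔ I ≤ (annV (grR H n hn i) v).radical := by
  change (∀ t ∈ I, ∃ k, ((H.gr n i t) ^ k).mulVec v = 0) ↔ _
  refine forall_congr' fun t => ?_
  refine imp_congr_right fun _ => ?_
  rw [Ideal.mem_radical_iff]
  refine exists_congr fun k => ?_
  change _ ↔ (grR H n hn i (t ^ k)).mulVec v = 0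
  rw [map_pow, grR_apply]

/-- **The twist of the graded pieces.** -/
theorem dE_twist {D : Dat p h E V} (H : HRep D (HR0' p))
    (htw : ∀ n, Even n → ∀ i j r, H.gr (n + 2 * j) (i + j) (MvPolynomial.X r) =
        (r.1 : ZMod p) ^ j • H.gr n i (MvPolynomial.X r))
    (J : Ideal (HR0' p)) {n : ℕ} (hn : Even n) (i j : ℕ) :
    dE H J (n + 2 * j) (i + j) = dE H (J.map (tw p j)) n i := by
  have hn' : Even (n + 2 * j) := hn.add (even_two_mul j)
  have key : grR H (n + 2 * j) hn' (i + j) = (grR H n hn i).comp (tw p j) := by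
    apply MvPolynomial.ringHom_ext
    · intro r
      have e1 : (MvPolynomial.C r : HR0' p) = (r : HR0' p) := by simp
      rw [e1, map_intCast, map_intCast]
    · intro r
      rw [grR_apply, RingHom.comp_apply, tw_X, map_mul, map_pow, map_natCast, grR_apply,
        htw n hn]
      ext e e'
      rw [Matrix.smul_apply, smul_eq_mul, ← Nat.cast_pow, ← Nat.cast_pow]
      have e2 : ((r.1 ^ j : ℕ) : Matrix E E (ZMod p)) =
          ((r.1 ^ j : ℕ) : ZMod p) • (1 : Matrix E E (ZMod p)) := by
        rw [← Matrix.diagonal_natCast, Matrix.smul_one_eq_diagonal]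
      rw [e2, Matrix.smul_mul, Matrix.one_mul, Matrix.smul_apply, smul_eq_mul]
  have h1 : idNil H J (n + 2 * j) (i + j) = idNil H (J.map (tw p j)) n i := by
    ext v
    rw [mem_idNil H J _ hn', mem_idNil H _ _ hn, Ideal.map_le_iff_le_comap,
      Ideal.comap_radical, key]
    rfl
  rw [dE, h1]
  rfl

lemma dE_n_mul (H : HRep D R) (J : Ideal R) (n i m : ℕ) :
    dE H J (n + (p - 1) * m) i = dE H J n i := by
  induction m with
  | zero => simp
  | succ m ih => rw [mul_add, mul_one, ← add_assoc, dE_n, ih]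

lemma dE_i_mul (H : HRep D R) (J : Ideal R) (n i m : ℕ) :
    dE H J n (i + (p - 1) * m) = dE H J n i := by
  induction m with
  | zero => simp
  | succ m ih => rw [mul_add, mul_one, ← add_assoc, dE_i, ih]

/-- the sum over `m` periods -/
lemma sum_periods (H : HRep D R) (J : Ideal R) (n m : ℕ) :
    ∑ i ∈ range ((p - 1) * m), dE H J n i = m * ∑ i ∈ range (p - 1), dE H J n i := by
  induction m with
  | zero => simp
  | succ m ih =>
    rw [mul_add, mul_one, Finset.sum_range_add, ih, add_mul, one_mul]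
    congr 1
    refine Finset.sum_congr rfl fun i _ => ?_
    rw [add_comm, dE_i_mul]

/-- **The period formula.** -/
theorem dE_period {D : Dat p h E V} (H : HRep D (HR0' p))
    (htw : ∀ n, Even n → ∀ i j r, H.gr (n + 2 * j) (i + j) (MvPolynomial.X r) =
        (r.1 : ZMod p) ^ j • H.gr n i (MvPolynomial.X r))
    (J : Ideal (HR0' p)) {n n' m : ℕ} (hn' : Even n') (hm : n + n' + 2 = (p - 1) * m) :
    m * ∑ i ∈ range (p - 1), dE H J n i =
      ∑ i ∈ range (n + 1), dE H J n i +
        ∑ i ∈ range (n' + 1), dE H (J.map (tw p (n + 1))) n' i := by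
  have e1 : (p - 1) * m = (n + 1) + (n' + 1) := by omega
  rw [← sum_periods, e1, Finset.sum_range_add]
  congr 1
  refine Finset.sum_congr rfl fun i _ => ?_
  rw [← dE_twist H htw J hn' i (n + 1)]
  have e2 : n' + 2 * (n + 1) = n + (p - 1) * m := by omega
  rw [e2, dE_n_mul, add_comm]

end Twist

/-! ### level `M p` -/

section Level

variable {M : ℕ} [NeZero M]

/-- the matrices of the plus copy are the integer matrices of the Hecke operators at level `M p` -/
lemma tE_true_eq {n l : ℕ} (hn : Even n) (hl : l.Prime) (hlp : l ≠ p) :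
    tE M p true n l = (Tm (M * p) n l).map (Int.cast : ℤ → ℤ_[p]) := by
  refine mat_ext_P hn fun φ hφ => ?_
  rw [tE_true_mulVec l hφ, Tm_map]
  have h1 : φ ∈ Symb Cusp (rho ℤ_[p] (M * p) n) := by
    rw [← Sym_eq]
    exact hφ
  have h2 := opM_mulVec_crv isTree (lev0 (M * p)) (lev0 (M * p))
    (fun i : Ix (M * p) l => slk n ((bet (M * p) l i).1.map (Int.cast : ℤ → ℤ_[p])))
    (fun i x => bet (M * p) l i • x) h1
  rw [← hecke_eq_op] at h2
  have h3 : hecke ℤ_[p] M n l = hecke ℤ_[p] (M * p) n l := by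
    refine hecke_congr ⟨fun h => h.mul_right _, fun h => ?_⟩
    rcases (hl.dvd_mul).1 h with h | h
    · exact h
    · exact absurd ((Nat.prime_dvd_prime_iff_eq hl Fact.out).1 h) hlp
  rw [h3]
  exact h2.symm

open Classical in
/-- **The systems of eigenvalues at level `M p`** (odd `p`, `4 ∣ M`), for a doubled datum with its
Hecke ring. -/
theorem count_dE (hM : 4 ∣ M)
    {D : Dat p (2 * Fintype.card (Vx M)) (Vx (M * p) × Bool) (Vx M × Bool)}
    (H : HRep D (HR0' p))
    (hTE : ∀ n hn r, H.TE n hn (MvPolynomial.X r) = bdg fun b => tE M p b n r.1)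
    (J : Ideal (HR0' p)) {n : ℕ} (hn : Even n)
    (A : HR0' p →+* Matrix (Vx (M * p) × Fin (n + 1)) (Vx (M * p) × Fin (n + 1)) ℤ_[p])
    (hA : ∀ r, A (MvPolynomial.X r) = (Tm (M * p) n r.1).map (Int.cast : ℤ → ℤ_[p])) :
    2 * ((Sys (matRep (toK A))).filter fun χ => ∀ u ∈ J, ‖χ u‖ < 1).card =
      ∑ i ∈ range (n + 1), dE H J n i := by
  -- the homomorphism of the minus copy
  obtain ⟨B, hB⟩ := exists_ringHom_of_comm (fun r : Lp p => tE M p false n r.1)
    (fun r s => tE_comm hn hM r.2.1 r.2.2 s.2.1 s.2.2 false)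
  set T : Bool → HR0' p →+* Matrix (Vx (M * p) × Fin (n + 1)) (Vx (M * p) × Fin (n + 1)) ℤ_[p] :=
    fun b => if b then A else B with hT
  have hTX : ∀ b r, T b (MvPolynomial.X r) = tE M p b n r.1 := by
    intro b r
    cases b
    · exact hB r
    · exact (hA r).trans (tE_true_eq hn r.2.1 r.2.2).symm
  have h1 : H.TE n hn = bdgHom T := by
    apply MvPolynomial.ringHom_ext
    · intro r
      have e1 : (MvPolynomial.C r : HR0' p) = (r : HR0' p) := by simp
      rw [e1, map_intCast, map_intCast]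
    · intro r
      rw [hTE n hn, bdgHom_apply]
      congr 1
      funext b
      exact (hTX b r).symm
  have h2 : toK (H.TE n hn) = bdgHom fun b => toK (T b) := by
    rw [h1]
    apply RingHom.ext
    intro t
    rw [RingHom.comp_apply, bdgHom_apply, bdgHom_apply]
    ext x y
    rw [RingHom.mapMatrix_apply, Matrix.map_apply, bdg_apply, bdg_apply]
    split_ifs
    · rfl
    · exact map_zero _
  -- the two copies are conjugate
  have hN : ∀ b t, T b t * Neta p (Vx (M * p)) n = Neta p (Vx (M * p)) n * T (!b) t := by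
    intro b t
    induction t using MvPolynomial.induction_on with
    | C r =>
      have e1 : (MvPolynomial.C r : HR0' p) = (r : HR0' p) := by simp
      rw [e1, map_intCast, map_intCast]
      exact (Int.cast_commute r _).eq
    | add s t hs ht => rw [map_add, map_add, add_mul, mul_add, hs, ht]
    | mul_X s r hs =>
      rw [map_mul, map_mul, hTX, hTX, mul_assoc, tE_W hn b, ← mul_assoc, hs, mul_assoc]
  have hNK : ∀ b t, toK (T b) t * (zK p).mapMatrix (Neta p (Vx (M * p)) n) =
      (zK p).mapMatrix (Neta p (Vx (M * p)) n) * toK (T (!b)) t := by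
    intro b t
    rw [RingHom.comp_apply, RingHom.comp_apply, ← map_mul, ← map_mul, hN]
  have h3 : Sys (matRep (toK (T false))) = Sys (matRep (toK (T true))) := by
    refine Sys_conj _ _ ((zK p).mapMatrix (Neta p (Vx (M * p)) n)) (c := (p : PadicAlgCl p) ^ n)
      (pow_ne_zero _ (by exact_mod_cast (Fact.out : p.Prime).ne_zero)) ?_
      (fun r => hNK false r) (fun r => hNK true r)
    rw [← map_mul, Neta_sq]
    ext x y
    simp only [RingHom.mapMatrix_apply, Matrix.map_apply, Matrix.smul_apply, smul_eq_mul, map_mul,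
      map_pow, map_natCast, Matrix.one_apply]
    split_ifs <;> simp
  rw [← count_E H J hn, h2, Sys_bdg, h3, Multiset.filter_add, Multiset.card_add, two_mul]
  rfl

open Classical in
/-- **The systems of eigenvalues at level `M p`** (odd `p`, `4 ∣ M`). -/
theorem exists_dd (hp2 : p ≠ 2) (hM : 4 ∣ M) (hpM : ¬ p ∣ M) :
    ∃ dd : Ideal (HR0' p) → ℕ → ℕ → ℕ,
      (∀ (J : Ideal (HR0' p)) (n : ℕ), Even n →
        ∀ A : HR0' p →+* Matrix (Vx (M * p) × Fin (n + 1)) (Vx (M * p) × Fin (n + 1)) ℤ_[p],
        (∀ r, A (MvPolynomial.X r) = (Tm (M * p) n r.1).map (Int.cast : ℤ → ℤ_[p])) →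
        2 * ((Sys (matRep (toK A))).filter fun χ => ∀ u ∈ J, ‖χ u‖ < 1).card =
          ∑ i ∈ range (n + 1), dd J n i) ∧
      (∀ J n i, dd J (n + (p - 1)) i = dd J n i) ∧
      (∀ J n i, dd J n (i + (p - 1)) = dd J n i) ∧
      (∀ J n, Even n → ∀ i, i ≤ n → dd J n (n - i) = dd J n i) ∧
      (∀ J n, Even n → ∀ i j, dd J (n + 2 * j) (i + j) = dd (J.map (tw p j)) n i) := by
  obtain ⟨D, H, -, -, -, -, hTE, -, htw⟩ := exists_source hp2 M hM hpM
  exact ⟨dE H, fun J n hn A hA => count_dE hM H hTE J hn A hA, dE_n H, dE_i H,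
    fun J n hn i hi => dE_rev H J hn hi, fun J n hn i j => dE_twist H htw J hn i j⟩

end Level

end Gouvea.POS
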