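import Mathlib

/-!
# Sums over all Dirichlet characters of the moduli `gcd (d, M / d)` (MP_d3517d_nt, POS)

For a function `h` of Dirichlet characters which depends only on the primitive character, the sum
of `h` over all `d ∣ M` and all characters modulo `gcd (d, M / d)`, convolved with `μ * μ`, is the
sum of `h` over the primitive characters modulo `f` if the level is `f ^ 2`, and `0` otherwise.
-/

set_option autoImplicit false

open Finset DirichletCharacter

noncomputable section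

namespace Gouvea.POS

/-- the sum over the primitive characters modulo `f` -/
def primSum (h : ∀ g : ℕ, DirichletCharacter ℂ g → ℝ) (f : ℕ) : ℝ :=
  ∑ ψ : DirichletCharacter ℂ f with ψ.conductor = f, h f ψ

theorem primSum_nonneg (h : ∀ g : ℕ, DirichletCharacter ℂ g → ℝ) (h0 : ∀ g ψ, 0 ≤ h g ψ) (f : ℕ) :
    0 ≤ primSum h f :=
  Finset.sum_nonneg fun ψ _ => h0 f ψ

/-- the sum over all characters modulo `g`, in terms of primitive characters -/
theorem sum_char_eq (h : ∀ g : ℕ, DirichletCharacter ℂ g → ℝ) {g : ℕ} (hg : g ≠ 0)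
    (hinv : ∀ (f : ℕ) (hf : f ∣ g) (ψ : DirichletCharacter ℂ f),
      h g (changeLevel hf ψ) = h f ψ) :
    ∑ ψ : DirichletCharacter ℂ g, h g ψ = ∑ f ∈ g.divisors, primSum h f := by
  have : NeZero g := ⟨hg⟩
  rw [← Finset.sum_fiberwise_of_maps_to (g := fun ψ : DirichletCharacter ℂ g => ψ.conductor)
    (t := g.divisors) (fun ψ _ => Nat.mem_divisors.2 ⟨ψ.conductor_dvd_level, hg⟩)]
  refine Finset.sum_congr rfl fun f hf => ?_
  have hfg : f ∣ g := Nat.dvd_of_mem_divisors hf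
  symm
  refine Finset.sum_nbij (fun ψ => changeLevel hfg ψ) ?_ ?_ ?_ ?_
  · intro ψ hψ
    rw [Finset.mem_filter] at hψ ⊢
    exact ⟨Finset.mem_univ _, (conductor_changeLevel ψ hfg).trans hψ.2⟩
  · intro ψ _ ψ' _ hh
    exact changeLevel_injective hfg hh
  · intro ψ hψ
    rw [Finset.mem_coe, Finset.mem_filter] at hψ
    obtain ⟨_, rfl⟩ := hψ
    refine ⟨ψ.primitiveCharacter, ?_, ?_⟩
    · rw [Finset.mem_coe, Finset.mem_filter]
      exact ⟨Finset.mem_univ _, ψ.primitiveCharacter_isPrimitive⟩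
    · exact ψ.changeLevel_primitiveCharacter
  · intro ψ _
    exact (hinv f hfg ψ).symm

open Classical in
/-- an arithmetic function supported on the squares -/
def sqF (P : ℕ → ℝ) : ArithmeticFunction ℝ :=
  ⟨fun m => if IsSquare m ∧ m ≠ 0 then P (Nat.sqrt m) else 0, by simp⟩

theorem sqF_nonneg (P : ℕ → ℝ) (hP : ∀ f, 0 ≤ P f) (m : ℕ) : 0 ≤ sqF P m := by
  change 0 ≤ if IsSquare m ∧ m ≠ 0 then P (Nat.sqrt m) else 0
  split_ifs
  · exact hP _
  · exact le_rfl

theorem sqF_mul_self (P : ℕ → ℝ) {f : ℕ} (hf : f ≠ 0) : sqF P (f * f) = P f := by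
  change (if IsSquare (f * f) ∧ f * f ≠ 0 then P (Nat.sqrt (f * f)) else 0) = P f
  rw [if_pos ⟨⟨f, rfl⟩, mul_ne_zero hf hf⟩, Nat.sqrt_eq]

theorem sqF_of_not_isSquare (P : ℕ → ℝ) {m : ℕ} (hm : ¬ IsSquare m) : sqF P m = 0 := by
  change (if IsSquare m ∧ m ≠ 0 then P (Nat.sqrt m) else 0) = 0
  rw [if_neg fun h => hm h.1]

/-- the divisor function, with real values -/
def dR : ArithmeticFunction ℝ :=
  (ArithmeticFunction.zeta : ArithmeticFunction ℝ) * (ArithmeticFunction.zeta : ArithmeticFunction ℝ)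

theorem dR_apply (c : ℕ) : dR c = ∑ _y ∈ c.divisorsAntidiagonal, (1 : ℝ) := by
  rw [dR, ArithmeticFunction.mul_apply]
  refine Finset.sum_congr rfl fun y hy => ?_
  have h1 := Nat.ne_zero_of_mem_divisorsAntidiagonal hy
  rw [ArithmeticFunction.natCoe_apply, ArithmeticFunction.natCoe_apply,
    ArithmeticFunction.zeta_apply_ne h1.1, ArithmeticFunction.zeta_apply_ne h1.2]
  norm_num

theorem sqF_mul_dR (P : ℕ → ℝ) {b : ℕ} (hb : b ≠ 0) :
    (sqF P * dR) b = ∑ d ∈ b.divisors, ∑ f ∈ (d.gcd (b / d)).divisors, P f := by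
  have h1 : (sqF P * dR) b = ∑ x ∈ b.divisorsAntidiagonal, ∑ _y ∈ x.2.divisorsAntidiagonal,
      sqF P x.1 := by
    rw [ArithmeticFunction.mul_apply]
    refine Finset.sum_congr rfl fun x _ => ?_
    rw [dR_apply, Finset.mul_sum]
    simp
  rw [h1, Finset.sum_sigma', Finset.sum_sigma']
  classical
  rw [← Finset.sum_filter_add_sum_filter_not _ (fun z => IsSquare z.1.1)]
  have h2 : ∑ z ∈ (b.divisorsAntidiagonal.sigma fun x => x.2.divisorsAntidiagonal) with
      ¬ IsSquare z.1.1, sqF P z.1.1 = 0 := by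
    refine Finset.sum_eq_zero fun z hz => ?_
    exact sqF_of_not_isSquare P (Finset.mem_filter.1 hz).2
  rw [h2, add_zero]
  symm
  refine Finset.sum_nbij' (fun z : (_ : ℕ) × ℕ =>
      (⟨(z.2 * z.2, b / (z.2 * z.2)), (z.1 / z.2, b / z.1 / z.2)⟩ : (_ : ℕ × ℕ) × (ℕ × ℕ)))
    (fun z => ⟨Nat.sqrt z.1.1 * z.2.1, Nat.sqrt z.1.1⟩) ?_ ?_ ?_ ?_ ?_
  · rintro ⟨d, f⟩ hz
    rw [Finset.mem_sigma, Nat.mem_divisors, Nat.mem_divisors, Nat.dvd_gcd_iff] at hz
    obtain ⟨⟨⟨e, rfl⟩, -⟩, ⟨h3, h4⟩, -⟩ := hz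
    have hd : d ≠ 0 := left_ne_zero_of_mul hb
    simp only at h3 h4
    rw [Nat.mul_div_cancel_left _ (Nat.pos_of_ne_zero hd)] at h4
    obtain ⟨u, rfl⟩ := h3
    obtain ⟨v, rfl⟩ := h4
    have hf : f ≠ 0 := left_ne_zero_of_mul hd
    have hf' := Nat.pos_of_ne_zero hf
    have hff : 0 < f * f := Nat.mul_pos hf' hf'
    have h5 : f * u * (f * v) = f * f * (u * v) := by ring
    have h6 : f * u * (f * v) / (f * f) = u * v := by rw [h5, Nat.mul_div_cancel_left _ hff]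
    have h7 : f * u / f = u := Nat.mul_div_cancel_left _ hf'
    have h8 : f * u * (f * v) / (f * u) / f = v := by
      rw [Nat.mul_div_cancel_left _ (Nat.pos_of_ne_zero hd), Nat.mul_div_cancel_left _ hf']
    rw [Finset.mem_filter, Finset.mem_sigma, Nat.mem_divisorsAntidiagonal,
      Nat.mem_divisorsAntidiagonal]
    simp only
    rw [h6, h7, h8]
    exact ⟨⟨⟨h5.symm, hb⟩, rfl, fun h9 => hb (by rw [h5, h9, mul_zero])⟩, ⟨f, rfl⟩⟩
  · rintro ⟨⟨m, c⟩, ⟨u, v⟩⟩ hz
    rw [Finset.mem_filter, Finset.mem_sigma, Nat.mem_divisorsAntidiagonal,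
      Nat.mem_divisorsAntidiagonal] at hz
    simp only at hz
    obtain ⟨⟨⟨h3, -⟩, h4, -⟩, ⟨f, rfl⟩⟩ := hz
    subst h3
    subst h4
    have h5 : f * f * (u * v) = f * u * (f * v) := by ring
    have hfu : f * u ≠ 0 := by
      intro h6
      rw [h5, h6, zero_mul] at hb
      exact hb rfl
    have hf : f ≠ 0 := left_ne_zero_of_mul hfu
    rw [Finset.mem_sigma, Nat.mem_divisors, Nat.mem_divisors]
    simp only
    rw [Nat.sqrt_eq, h5, Nat.mul_div_cancel_left _ (Nat.pos_of_ne_zero hfu)]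
    refine ⟨⟨Nat.dvd_mul_right _ _, by rw [← h5]; exact hb⟩,
      Nat.dvd_gcd (Nat.dvd_mul_right _ _) (Nat.dvd_mul_right _ _), ?_⟩
    exact fun h6 => hfu (Nat.eq_zero_of_gcd_eq_zero_left h6)
  · rintro ⟨d, f⟩ hz
    rw [Finset.mem_sigma, Nat.mem_divisors, Nat.mem_divisors, Nat.dvd_gcd_iff] at hz
    obtain ⟨-, ⟨h3, -⟩, -⟩ := hz
    simp only at h3 ⊢
    rw [Nat.sqrt_eq, Nat.mul_div_cancel' h3]
  · rintro ⟨⟨m, c⟩, ⟨u, v⟩⟩ hz
    rw [Finset.mem_filter, Finset.mem_sigma, Nat.mem_divisorsAntidiagonal,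
      Nat.mem_divisorsAntidiagonal] at hz
    simp only at hz
    obtain ⟨⟨⟨h3, -⟩, h4, -⟩, ⟨f, rfl⟩⟩ := hz
    subst h3
    subst h4
    have h5 : f * f * (u * v) = f * u * (f * v) := by ring
    have hfu : f * u ≠ 0 := by
      intro h6
      rw [h5, h6, zero_mul] at hb
      exact hb rfl
    have hf : f ≠ 0 := left_ne_zero_of_mul hfu
    have hf' := Nat.pos_of_ne_zero hf
    simp only [Nat.sqrt_eq]
    have h6 : f * f * (u * v) / (f * f) = u * v :=
      Nat.mul_div_cancel_left _ (Nat.mul_pos hf' hf')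
    have h7 : f * u / f = u := Nat.mul_div_cancel_left _ hf'
    have h8 : f * f * (u * v) / (f * u) / f = v := by
      rw [h5, Nat.mul_div_cancel_left _ (Nat.pos_of_ne_zero hfu), Nat.mul_div_cancel_left _ hf']
    rw [h6, h7, h8]
  · rintro ⟨d, f⟩ hz
    rw [Finset.mem_sigma, Nat.mem_divisors, Nat.mem_divisors, Nat.dvd_gcd_iff] at hz
    obtain ⟨⟨hd, -⟩, ⟨h3, -⟩, -⟩ := hz
    simp only at hd h3 ⊢
    rw [sqF_mul_self P (ne_zero_of_dvd_ne_zero (ne_zero_of_dvd_ne_zero hb hd) h3)]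

/-- `μ * μ`, with real values -/
def betR : ArithmeticFunction ℝ :=
  ((ArithmeticFunction.moebius * ArithmeticFunction.moebius : ArithmeticFunction ℤ) :
    ArithmeticFunction ℝ)

theorem betR_mul_dR : betR * dR = 1 := by
  rw [betR, dR, ArithmeticFunction.intCoe_mul, mul_mul_mul_comm,
    ArithmeticFunction.coe_moebius_mul_coe_zeta, one_mul]

theorem sum_betR (P : ℕ → ℝ) (N : ℕ) :
    ∑ x ∈ N.divisorsAntidiagonal,
      (((ArithmeticFunction.moebius * ArithmeticFunction.moebius) x.1 : ℤ) : ℝ) *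
        ∑ d ∈ x.2.divisors, ∑ f ∈ (d.gcd (x.2 / d)).divisors, P f = sqF P N := by
  have h1 : (betR * (sqF P * dR)) N = sqF P N := by
    rw [mul_left_comm, betR_mul_dR, mul_one]
  rw [← h1, ArithmeticFunction.mul_apply]
  refine Finset.sum_congr rfl fun x hx => ?_
  rw [sqF_mul_dR P (Nat.ne_zero_of_mem_divisorsAntidiagonal hx).2]
  rfl

/-- **The sum over all characters of the moduli `gcd (d, M / d)`, convolved with `μ * μ`**, is the
sum over the primitive characters modulo `f` if `N = f ^ 2`, and `0` if `N` is not a square. -/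
theorem sum_beta_char_eq (N : ℕ) (h : ∀ g : ℕ, DirichletCharacter ℂ g → ℝ)
    (hinv : ∀ (g g' : ℕ) (hg : g ∣ g'), g' ∣ N → ∀ ψ : DirichletCharacter ℂ g,
      h g' (DirichletCharacter.changeLevel hg ψ) = h g ψ) :
    ∑ x ∈ N.divisorsAntidiagonal,
      (((ArithmeticFunction.moebius * ArithmeticFunction.moebius) x.1 : ℤ) : ℝ) *
        ∑ d ∈ x.2.divisors, ∑ ψ : DirichletCharacter ℂ (Nat.gcd d (x.2 / d)), h _ ψ =
      sqF (primSum h) N := by
  rw [← sum_betR]
  refine Finset.sum_congr rfl fun x hx => ?_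
  congr 1
  refine Finset.sum_congr rfl fun d hd => ?_
  have h1 := Nat.dvd_of_mem_divisors hd
  have h2 : x.2 ∣ N := ⟨x.1, by rw [← (Nat.mem_divisorsAntidiagonal.1 hx).1, mul_comm]⟩
  have h3 : d ≠ 0 :=
    ne_zero_of_dvd_ne_zero (Nat.ne_zero_of_mem_divisorsAntidiagonal hx).2 h1
  refine sum_char_eq h (fun h4 => h3 (Nat.eq_zero_of_gcd_eq_zero_left h4)) fun f hf ψ => ?_
  exact hinv f _ hf ((Nat.gcd_dvd_left _ _).trans (h1.trans h2)) ψ

theorem sum_beta_char_nonneg (N : ℕ) (_hN : 0 < N) (h : ∀ g : ℕ, DirichletCharacter ℂ g → ℝ)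
    (h0 : ∀ g ψ, 0 ≤ h g ψ)
    (hinv : ∀ (g g' : ℕ) (hg : g ∣ g'), g' ∣ N → ∀ ψ : DirichletCharacter ℂ g,
      h g' (DirichletCharacter.changeLevel hg ψ) = h g ψ) :
    0 ≤ ∑ x ∈ N.divisorsAntidiagonal,
      (((ArithmeticFunction.moebius * ArithmeticFunction.moebius) x.1 : ℤ) : ℝ) *
        ∑ d ∈ x.2.divisors, ∑ ψ : DirichletCharacter ℂ (Nat.gcd d (x.2 / d)), h _ ψ := by
  rw [sum_beta_char_eq N h hinv]
  exact sqF_nonneg _ (primSum_nonneg h h0) N

/-- for an odd modulus `g` the characters modulo `g` and modulo `2 g` are the same -/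
theorem changeLevel_two_bijective {g : ℕ} (hg : Odd g) :
    Function.Bijective
      (fun ψ : DirichletCharacter ℂ g => changeLevel (Nat.dvd_mul_left g 2) ψ) := by
  have : NeZero g := ⟨hg.pos.ne'⟩
  have : NeZero (2 * g) := ⟨mul_ne_zero two_ne_zero hg.pos.ne'⟩
  rw [Fintype.bijective_iff_injective_and_card]
  refine ⟨changeLevel_injective _, ?_⟩
  rw [← Nat.card_eq_fintype_card, ← Nat.card_eq_fintype_card,
    DirichletCharacter.card_eq_totient_of_hasEnoughRootsOfUnity,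
    DirichletCharacter.card_eq_totient_of_hasEnoughRootsOfUnity,
    Nat.totient_two_mul_of_odd hg]

theorem sum_char_two (g : ℕ) (hg : Odd g) (h : ∀ g : ℕ, DirichletCharacter ℂ g → ℝ)
    (hinv1 : ∀ ψ : DirichletCharacter ℂ g,
      h (2 * g) (changeLevel (Nat.dvd_mul_left g 2) ψ) = h g ψ) :
    ∑ ψ : DirichletCharacter ℂ (2 * g), h (2 * g) ψ = ∑ ψ : DirichletCharacter ℂ g, h g ψ := by
  rw [← (changeLevel_two_bijective hg).sum_comp]
  exact Finset.sum_congr rfl fun ψ _ => hinv1 ψ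

end Gouvea.POS
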