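import Pool.Agent.Work.MP_d3517d_nt.POS.CharSum

/-!
# Sums over characters at the levels `c M`, `c` prime to `N` (MP_d3517d_nt, POS)

The sum of `h` over all `d ∣ c M` and all characters modulo `gcd (d, c M / d)`, convolved with
`μ * μ` over `M ∣ N`, where `c` is prime to `N`.
-/

set_option autoImplicit false

open Finset DirichletCharacter

noncomputable section

namespace Gouvea.POS

/-- the divisors of a product of two coprime numbers -/
theorem sum_divisors_coprime_cs {R : Type*} [AddCommMonoid R] {a b : ℕ} (hab : a.Coprime b)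
    (F : ℕ → R) :
    ∑ d ∈ (a * b).divisors, F d = ∑ d₁ ∈ a.divisors, ∑ d₂ ∈ b.divisors, F (d₁ * d₂) := by
  rw [← Finset.sum_product']
  refine Finset.sum_nbij' (fun d => (d.gcd a, d.gcd b)) (fun x => x.1 * x.2) ?_ ?_ ?_ ?_ ?_
  · intro d hd
    rw [Nat.mem_divisors] at hd
    rw [Finset.mem_product, Nat.mem_divisors, Nat.mem_divisors]
    exact ⟨⟨Nat.gcd_dvd_right _ _, left_ne_zero_of_mul hd.2⟩, Nat.gcd_dvd_right _ _,
      right_ne_zero_of_mul hd.2⟩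
  · rintro ⟨x, y⟩ hx
    rw [Finset.mem_product, Nat.mem_divisors, Nat.mem_divisors] at hx
    rw [Nat.mem_divisors]
    exact ⟨Nat.mul_dvd_mul hx.1.1 hx.2.1, mul_ne_zero hx.1.2 hx.2.2⟩
  · intro d hd
    rw [Nat.mem_divisors] at hd
    simp only
    rw [← Nat.Coprime.gcd_mul d hab]
    exact Nat.gcd_eq_left hd.1
  · rintro ⟨x, y⟩ hx
    rw [Finset.mem_product, Nat.mem_divisors, Nat.mem_divisors] at hx
    simp only at hx ⊢
    rw [Nat.Coprime.gcd_mul_right_cancel x (hab.symm.coprime_dvd_left hx.2.1),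
      Nat.Coprime.gcd_mul_left_cancel y (hab.coprime_dvd_left hx.1.1),
      Nat.gcd_eq_left hx.1.1, Nat.gcd_eq_left hx.2.1]
  · intro d hd
    rw [Nat.mem_divisors] at hd
    simp only
    rw [← Nat.Coprime.gcd_mul d hab, Nat.gcd_eq_left hd.1]

theorem gcd_mul_gcd_of_coprime {d₁ e₁ d₂ e₂ : ℕ} (h : (d₁ * e₁).Coprime (d₂ * e₂)) :
    (d₁ * d₂).gcd (e₁ * e₂) = d₁.gcd e₁ * d₂.gcd e₂ := by
  have h1 : e₁.Coprime e₂ := h.coprime_mul_left.coprime_mul_left_right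
  have h2 : d₂.Coprime e₁ := (h.coprime_mul_left.coprime_mul_right_right).symm
  have h3 : d₁.Coprime e₂ := h.coprime_mul_right.coprime_mul_left_right
  rw [Nat.Coprime.gcd_mul _ h1, Nat.Coprime.gcd_mul_right_cancel d₁ h2,
    Nat.Coprime.gcd_mul_left_cancel d₂ h3]

theorem sum_gcd_coprime (P : ℕ → ℝ) {c x : ℕ} (h : c.Coprime x) :
    ∑ d ∈ (c * x).divisors, ∑ f ∈ (d.gcd (c * x / d)).divisors, P f =
      ∑ d₁ ∈ c.divisors, ∑ f₁ ∈ (d₁.gcd (c / d₁)).divisors,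
        ∑ d₂ ∈ x.divisors, ∑ f₂ ∈ (d₂.gcd (x / d₂)).divisors, P (f₁ * f₂) := by
  rw [sum_divisors_coprime_cs h]
  refine Finset.sum_congr rfl fun d₁ hd₁ => ?_
  rw [Finset.sum_comm]
  refine Finset.sum_congr rfl fun d₂ hd₂ => ?_
  rw [Nat.mem_divisors] at hd₁ hd₂
  obtain ⟨⟨e₁, rfl⟩, hc⟩ := hd₁
  obtain ⟨⟨e₂, rfl⟩, hx⟩ := hd₂
  have h1 : 0 < d₁ := Nat.pos_of_ne_zero (left_ne_zero_of_mul hc)
  have h2 : 0 < d₂ := Nat.pos_of_ne_zero (left_ne_zero_of_mul hx)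
  have h3 : d₁ * e₁ * (d₂ * e₂) / (d₁ * d₂) = e₁ * e₂ := by
    have h4 : d₁ * e₁ * (d₂ * e₂) = d₁ * d₂ * (e₁ * e₂) := by ring
    rw [h4, Nat.mul_div_cancel_left _ (Nat.mul_pos h1 h2)]
  rw [h3, Nat.mul_div_cancel_left _ h1, Nat.mul_div_cancel_left _ h2, gcd_mul_gcd_of_coprime h]
  refine sum_divisors_coprime_cs ?_ P
  exact (h.coprime_dvd_left ((Nat.gcd_dvd_left _ _).trans (Nat.dvd_mul_right _ _))).coprime_dvd_right
    ((Nat.gcd_dvd_left _ _).trans (Nat.dvd_mul_right _ _))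

/-- **The sum over all characters at the levels `c M`, convolved with `μ * μ` over `M ∣ N`** -/
theorem sum_beta_char_eq_mul (c N : ℕ) (hcN : c.Coprime N) (hc : c ≠ 0)
    (h : ∀ g : ℕ, DirichletCharacter ℂ g → ℝ)
    (hinv : ∀ (g g' : ℕ) (hg : g ∣ g'), g' ∣ c * N → ∀ ψ : DirichletCharacter ℂ g,
      h g' (DirichletCharacter.changeLevel hg ψ) = h g ψ) :
    ∑ x ∈ N.divisorsAntidiagonal,
      (((ArithmeticFunction.moebius * ArithmeticFunction.moebius) x.1 : ℤ) : ℝ) *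
        ∑ d ∈ (c * x.2).divisors,
          ∑ ψ : DirichletCharacter ℂ (Nat.gcd d (c * x.2 / d)), h _ ψ =
      ∑ d₁ ∈ c.divisors, ∑ f₁ ∈ (d₁.gcd (c / d₁)).divisors,
        sqF (fun f => primSum h (f₁ * f)) N := by
  have h1 : ∀ x ∈ N.divisorsAntidiagonal, ∑ d ∈ (c * x.2).divisors,
      ∑ ψ : DirichletCharacter ℂ (Nat.gcd d (c * x.2 / d)), h _ ψ =
      ∑ d₁ ∈ c.divisors, ∑ f₁ ∈ (d₁.gcd (c / d₁)).divisors,
        ∑ d₂ ∈ x.2.divisors, ∑ f₂ ∈ (d₂.gcd (x.2 / d₂)).divisors, primSum h (f₁ * f₂) := by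
    intro x hx
    have hx2 : x.2 ∣ N := ⟨x.1, by rw [← (Nat.mem_divisorsAntidiagonal.1 hx).1, mul_comm]⟩
    rw [← sum_gcd_coprime (primSum h) (hcN.coprime_dvd_right hx2)]
    refine Finset.sum_congr rfl fun d hd => ?_
    have h3 : d ≠ 0 := ne_zero_of_dvd_ne_zero
      (mul_ne_zero hc (Nat.ne_zero_of_mem_divisorsAntidiagonal hx).2) (Nat.dvd_of_mem_divisors hd)
    refine sum_char_eq h (fun h4 => h3 (Nat.eq_zero_of_gcd_eq_zero_left h4)) fun f hf ψ => ?_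
    exact hinv f _ hf ((Nat.gcd_dvd_left _ _).trans
      ((Nat.dvd_of_mem_divisors hd).trans (Nat.mul_dvd_mul_left c hx2))) ψ
  rw [Finset.sum_congr rfl fun x hx => by rw [h1 x hx]]
  simp only [Finset.mul_sum]
  rw [Finset.sum_comm]
  refine Finset.sum_congr rfl fun d₁ _ => ?_
  rw [Finset.sum_comm]
  refine Finset.sum_congr rfl fun f₁ _ => ?_
  rw [← sum_betR]
  simp only [Finset.mul_sum]

theorem sum_beta_char_nonneg_mul (c N : ℕ) (hcN : c.Coprime N) (hc : c ≠ 0)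
    (h : ∀ g : ℕ, DirichletCharacter ℂ g → ℝ) (h0 : ∀ g ψ, 0 ≤ h g ψ)
    (hinv : ∀ (g g' : ℕ) (hg : g ∣ g'), g' ∣ c * N → ∀ ψ : DirichletCharacter ℂ g,
      h g' (DirichletCharacter.changeLevel hg ψ) = h g ψ) :
    0 ≤ ∑ x ∈ N.divisorsAntidiagonal,
      (((ArithmeticFunction.moebius * ArithmeticFunction.moebius) x.1 : ℤ) : ℝ) *
        ∑ d ∈ (c * x.2).divisors,
          ∑ ψ : DirichletCharacter ℂ (Nat.gcd d (c * x.2 / d)), h _ ψ := by
  rw [sum_beta_char_eq_mul c N hcN hc h hinv]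
  exact Finset.sum_nonneg fun d₁ _ => Finset.sum_nonneg fun f₁ _ =>
    sqF_nonneg _ (fun f => primSum_nonneg h h0 _) N

end Gouvea.POS
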