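import Pool.Agent.Work.MP_d3517d_nt.Fin.Level
import Pool.Agent.Work.MP_d3517d_nt.POS.ExDefs

/-!
# Positivity: the linear combination at `2` as a functional (MP_d3517d_nt, POS)

`denF N M A c s α m S`: the linear combination of `Fin.den`, for any function `S` of the class.
`denF_tot`: for the cusp forms of level `lv M * e`, `e` odd, it counts the systems of level `M * e`.
`denF_MC`: for a multiset of systems it is the sum of the weights `wt`.
-/

set_option autoImplicit false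

open MvPolynomial Gouvea.Sys Gouvea.ES Gouvea.Desc Gouvea.Fin

noncomputable section

namespace Gouvea.POS

variable {p : ℕ} [Fact p.Prime] (j : algebraicClosure ℚ ℂ →+* PadicAlgCl p)

/-- the level divisible by `4` which is used for `M` -/
def lv (M : ℕ) : ℕ := if 4 ∣ M then M else if 2 ∣ M then 2 * M else 4 * M

lemma lv_four (M : ℕ) : 4 ∣ lv M := by
  unfold lv
  split_ifs with h1 h2
  · exact h1
  · obtain ⟨k, rfl⟩ := h2
    exact ⟨k, by ring⟩
  · exact ⟨M, rfl⟩

lemma lv_dvd (M : ℕ) : lv M ∣ 4 * M := by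
  unfold lv
  split_ifs with h1 h2
  · exact ⟨4, by ring⟩
  · exact ⟨2, by ring⟩
  · exact dvd_rfl

lemma dvd_lv (M : ℕ) : M ∣ lv M := by
  unfold lv
  split_ifs with h1 h2
  · exact dvd_rfl
  · exact ⟨2, by ring⟩
  · exact ⟨4, by ring⟩

instance lv_neZero (M : ℕ) [NeZero M] : NeZero (lv M) := by
  refine ⟨fun h => ?_⟩
  have h0 := NeZero.ne M
  unfold lv at h
  split_ifs at h <;> omega

/-- the linear combination of `Fin.den` -/
def denF (N M : ℕ) (A : Set Nat.Primes) (c : Nat.Primes → PadicAlgCl p) (s α : PadicAlgCl p)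
    (m : ℝ) (S : Set Nat.Primes → (Nat.Primes → PadicAlgCl p) → ℝ) : ℝ :=
  if 4 ∣ M then S A c
  else if 2 ∣ M then S A c - S (insert pr2 A) (Function.update c pr2 0)
  else if 2 ∣ N then (S A c - S (insert pr2 A) (Function.update c pr2 0)
    - (S (insert pr2 A) (Function.update c pr2 s) + S (insert pr2 A) (Function.update c pr2 (-s)))
    + (S (insert pr2 A) (Function.update c pr2 (2 * s))
      + S (insert pr2 A) (Function.update c pr2 (-(2 * s))))) / 2
  else S A (Function.update c pr2 α) / m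

theorem den_eq (bet : ℕ → Set Nat.Primes → (Nat.Primes → PadicAlgCl p) → ℕ → ℝ) (N M : ℕ)
    (c : Nat.Primes → PadicAlgCl p) (n : ℕ) : den bet N M c n =
      denF N M (AN p N) c (sr p (n % (p - 1))) (rt (c pr2) (n % (p - 1)))
        (mu (c pr2) (n % (p - 1))) (fun A c => bet (lv M) A c n) := by
  simp only [den, denF, lv]
  split_ifs <;> rfl

theorem denF_lin {N M : ℕ} {A : Set Nat.Primes} {c : Nat.Primes → PadicAlgCl p}
    {s α : PadicAlgCl p} {m : ℝ} (a b : ℝ)
    (S T : Set Nat.Primes → (Nat.Primes → PadicAlgCl p) → ℝ) :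
    denF N M A c s α m (fun A c => a * S A c + b * T A c) =
      a * denF N M A c s α m S + b * denF N M A c s α m T := by
  unfold denF
  split_ifs <;> ring

theorem denF_congr {N M : ℕ} {A : Set Nat.Primes} {c : Nat.Primes → PadicAlgCl p}
    {s α : PadicAlgCl p} {m : ℝ} {S T : Set Nat.Primes → (Nat.Primes → PadicAlgCl p) → ℝ}
    (hp : 3 ≤ p) (hA : pr p ∉ A) (hc : ∀ q ∈ A, ‖c q‖ ≤ 1) (hs : ‖s‖ ≤ 1) (hα : ‖α‖ ≤ 1)
    (h : ∀ A' c', pr p ∉ A' → (∀ q ∈ A', ‖c' q‖ ≤ 1) → S A' c' = T A' c') :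
    denF N M A c s α m S = denF N M A c s α m T := by
  have hA' : pr p ∉ insert pr2 A := by
    intro h
    rcases Set.mem_insert_iff.1 h with h | h
    · exact pr_ne_pr2 hp h
    · exact hA h
  have h2s : ‖2 * s‖ ≤ 1 := norm_mul_le_one norm_two_le hs
  have e0 := h A c hA hc
  have e1 := fun x (hx : ‖x‖ ≤ 1) => h (insert pr2 A) (Function.update c pr2 x) hA'
    (norm_update hc hx)
  have e2 := h A (Function.update c pr2 α) hA (norm_update' hc hα)
  unfold denF
  rw [e0, e1 0 (by simp), e1 s hs, e1 (-s) (by rwa [norm_neg]), e1 (2 * s) h2s,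
    e1 (-(2 * s)) (by rwa [norm_neg]), e2]

/-- the twisted values -/
def twc (r : ℕ) (c : Nat.Primes → PadicAlgCl p) (q : Nat.Primes) : PadicAlgCl p :=
  c q / ((q : ℕ) : PadicAlgCl p) ^ r

theorem coe_pr2' : (((pr2 : Nat.Primes) : ℕ) : PadicAlgCl p) = 2 := by
  rw [coe_pr2]
  norm_num

theorem twc_update (r : ℕ) (c : Nat.Primes → PadicAlgCl p) (x : PadicAlgCl p) :
    twc r (Function.update c pr2 x) = Function.update (twc r c) pr2 (x / 2 ^ r) := by
  funext q
  by_cases h : q = pr2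
  · subst h
    rw [twc, Function.update_self, Function.update_self, coe_pr2']
  · rw [twc, Function.update_of_ne h, Function.update_of_ne h, twc]

theorem denF_twist {N M : ℕ} {A : Set Nat.Primes} {c : Nat.Primes → PadicAlgCl p}
    {s α : PadicAlgCl p} {m : ℝ} (r : ℕ)
    (S : Set Nat.Primes → (Nat.Primes → PadicAlgCl p) → ℝ) :
    denF N M A c s α m (fun A c => S A (twc r c)) =
      denF N M A (twc r c) (s / 2 ^ r) (α / 2 ^ r) m S := by
  unfold denF
  simp only [twc_update, zero_div, neg_div, mul_div_assoc]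

/-! ### multisets of systems -/

/-- the number of elements of a multiset of systems in a class -/
def MC (X : Multiset (MvPolynomial Nat.Primes ℤ →+* ℂ)) (A : Set Nat.Primes)
    (c : Nat.Primes → PadicAlgCl p) : ℝ := msum X (fun χ => InC j A c χ) (fun _ => 1)

theorem MC_add (X Y : Multiset (MvPolynomial Nat.Primes ℤ →+* ℂ)) (A : Set Nat.Primes)
    (c : Nat.Primes → PadicAlgCl p) : MC j (X + Y) A c = MC j X A c + MC j Y A c :=
  msum_add _ _ _ _

theorem MC_zero (A : Set Nat.Primes) (c : Nat.Primes → PadicAlgCl p) : MC j 0 A c = 0 := by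
  simp [MC, msum]

theorem MC_card (X : Multiset (MvPolynomial Nat.Primes ℤ →+* ℂ)) (A : Set Nat.Primes)
    (c : Nat.Primes → PadicAlgCl p) [DecidablePred fun χ => InC j A c χ] :
    MC j X A c = (Multiset.card (X.filter fun χ => InC j A c χ) : ℝ) := by
  rw [MC, msum_one]

theorem tot_eq_MC (M k : ℕ) [NeZero M] (A : Set Nat.Primes) (c : Nat.Primes → PadicAlgCl p) :
    (tot j M k A c : ℝ) = MC j (Sys (rhoC M k)) A c := by
  classical
  rw [MC_card, tot]

theorem TG_eq_MC (M k : ℕ) [NeZero M] (A : Set Nat.Primes) (c : Nat.Primes → PadicAlgCl p) :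
    TG j M k A c (fun _ => True) = MC j (Sys (rhoC M k)) A c := by
  rw [← tot_eq_MC, tot_eq]

theorem MC_lv {L L' : ℕ} (h : L = L') [NeZero L] [NeZero L'] (k : ℕ) (A : Set Nat.Primes)
    (c : Nat.Primes → PadicAlgCl p) :
    MC j (Sys (rhoC L k)) A c = MC j (Sys (rhoC L' k)) A c := by
  subst h
  rfl

omit [Fact p.Prime] in
theorem pr2_notMem {N : ℕ} (hN : 2 ∣ N) : pr2 ∉ AN p N := fun h => h (Dvd.dvd.mul_right hN p)

theorem pr2_mem (hp : 3 ≤ p) {N : ℕ} (hN : ¬ 2 ∣ N) : pr2 ∈ AN p N := by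
  intro h
  rcases (Nat.prime_two.dvd_mul).1 h with h | h
  · exact hN h
  · have := (Nat.prime_dvd_prime_iff_eq Nat.prime_two (Fact.out : p.Prime)).1 h
    omega

/-- **The cusp forms.** -/
theorem denF_tot (hI : Int1) (hp : 5 ≤ p) {N M e n : ℕ} [NeZero M] [NeZero e] (hMN : M ∣ N)
    (he : ¬ 2 ∣ e) {c : Nat.Primes → PadicAlgCl p} {s α : PadicAlgCl p} {m : ℝ} (hs : ‖s‖ ≤ 1)
    (hs2 : rs s ^ 2 = 2 ^ n)
    (hα : ¬ 2 ∣ N → ‖c pr2‖ ≤ 1 ∧ ‖α‖ ≤ 1 ∧ rs α ^ 2 - rs (c pr2) * rs α + 2 ^ (n + 1) = 0 ∧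
      rs α ≠ 0 ∧ rs α ^ 2 ≠ 2 ^ n ∧
      m = open scoped Classical in if ‖c pr2 - 2 * α‖ < 1 then (2 : ℝ) else 1) :
    denF N M (AN p N) c s α m (fun A c => MC j (Sys (rhoC (lv M * e) (n + 2))) A c) =
      MC j (Sys (rhoC (M * e) (n + 2))) (AN p N) c := by
  have hM0 := NeZero.ne M
  have he0 := NeZero.ne e
  have hp3 : 3 ≤ p := by omega
  unfold denF
  split_ifs with h4 h2 hN
  · have e1 : lv M * e = M * e := by rw [lv, if_pos h4]
    exact MC_lv j e1 _ _ _
  · have hA : pr2 ∉ AN p N := pr2_notMem (h2.trans hMN)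
    obtain ⟨M1, rfl⟩ := h2
    have hM1 : ¬ 2 ∣ M1 := fun h => h4 (by
      obtain ⟨k, rfl⟩ := h
      exact ⟨k, by ring⟩)
    have : NeZero M1 := ⟨by rintro rfl; exact hM0 rfl⟩
    have hM1e : ¬ 2 ∣ M1 * e := by
      rw [Nat.prime_two.dvd_mul]
      tauto
    have e1 : lv (2 * M1) * e = M1 * e * 2 * 2 := by
      rw [lv, if_neg h4, if_pos (Dvd.intro _ rfl)]
      ring
    have e2 : 2 * M1 * e = M1 * e * 2 := by ring
    beta_reduce
    rw [MC_lv j e1, MC_lv j e1, MC_lv j e2, ← TG_eq_MC, ← TG_eq_MC, ← TG_eq_MC,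
      TG_semi j hI hp3 (M1 * e) (n + 2) hM1e (by omega) hA c]
  · have hA : pr2 ∉ AN p N := pr2_notMem hN
    have hMe : ¬ 2 ∣ M * e := by
      rw [Nat.prime_two.dvd_mul]
      tauto
    have e1 : lv M * e = M * e * 2 * 2 := by
      rw [lv, if_neg h4, if_neg h2]
      ring
    have h := TG_unram j hI hp (M * e) n hMe hA c (fun _ => True) (fun _ _ => Iff.rfl) s hs hs2
    simp only [TG_eq_MC] at h
    simp only [MC_lv j e1]
    linarith
  · have hA : pr2 ∈ AN p N := pr2_mem hp3 hN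
    have hMe : ¬ 2 ∣ M * e := by
      rw [Nat.prime_two.dvd_mul]
      tauto
    have e1 : lv M * e = M * e * 2 * 2 := by
      rw [lv, if_neg h4, if_neg h2]
      ring
    obtain ⟨h1, h3, h5, h6, h7, h8⟩ := hα hN
    have h := TG_at j hI (M * e) n hMe hA c h1 (fun _ => True) (fun _ _ => Iff.rfl) α h3 h5 h6 h7
    simp only [TG_eq_MC] at h
    simp only [MC_lv j e1]
    rw [← h, h8]
    have : (open scoped Classical in if ‖c pr2 - 2 * α‖ < 1 then (2 : ℝ) else 1) ≠ 0 := by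
      split_ifs <;> norm_num
    rw [mul_div_cancel_left₀ _ this]

/-! ### weights -/

/-- indicator -/
def ind (P : Prop) : ℝ := open scoped Classical in if P then 1 else 0

theorem ind_true {P : Prop} (h : P) : ind P = 1 := by rw [ind, if_pos h]
theorem ind_false {P : Prop} (h : ¬ P) : ind P = 0 := by rw [ind, if_neg h]
theorem ind_nonneg (P : Prop) : 0 ≤ ind P := by rw [ind]; split_ifs <;> norm_num
theorem ind_congr {P Q : Prop} (h : P ↔ Q) : ind P = ind Q := by rw [propext h]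
theorem ind_and (P Q : Prop) : ind (P ∧ Q) = ind P * ind Q := by
  by_cases h : P <;> by_cases h' : Q <;> simp [ind, h, h']

/-- the weight at `2` -/
def v2 (N M : ℕ) (σ a : kap p) (m : ℝ) (x : kap p) : ℝ :=
  if 4 ∣ M then 1
  else if 2 ∣ M then 1 - ind (x = 0)
  else if 2 ∣ N then (1 - ind (x = 0) - (ind (x = σ) + ind (x = -σ))
    + (ind (x = 2 * σ) + ind (x = -(2 * σ)))) / 2
  else ind (x = a) / m

/-- the weight of a function with values in the residue field -/
def wt (N M : ℕ) (A : Set Nat.Primes) (γ : Nat.Primes → kap p) (σ a : kap p) (m : ℝ)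
    (g : Nat.Primes → kap p) : ℝ :=
  ind (∀ q ∈ A \ {pr2}, g q = γ q) * v2 N M σ a m (g pr2)

/-- the residues of a system -/
def rsf (χ : MvPolynomial Nat.Primes ℤ →+* ℂ) (q : Nat.Primes) : kap p := rs (emb p j (χ (X q)))

variable {j}

theorem InC_iff {A : Set Nat.Primes} {c : Nat.Primes → PadicAlgCl p} (hc : ∀ q ∈ A, ‖c q‖ ≤ 1)
    {χ : MvPolynomial Nat.Primes ℤ →+* ℂ} (hχ : ∀ q, ‖emb p j (χ (X q))‖ ≤ 1) :
    InC j A c χ ↔ ∀ q ∈ A, rsf j χ q = rs (c q) :=
  forall₂_congr fun q hq => (rs_eq_iff (hχ q) (hc q hq)).symm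

/-- the functional of one system -/
theorem denF_ind (hp : 3 ≤ p) {N M : ℕ} (hMN : M ∣ N) {c : Nat.Primes → PadicAlgCl p}
    (hc : ∀ q ∈ AN p N, ‖c q‖ ≤ 1) {s α : PadicAlgCl p} (hs : ‖s‖ ≤ 1) (hα : ‖α‖ ≤ 1) (m : ℝ)
    {χ : MvPolynomial Nat.Primes ℤ →+* ℂ} (hχ : ∀ q, ‖emb p j (χ (X q))‖ ≤ 1) :
    denF N M (AN p N) c s α m (fun A c => ind (InC j A c χ)) =
      wt N M (AN p N) (fun q => rs (c q)) (rs s) (rs α) m (rsf j χ) := by
  have hx : ∀ x : PadicAlgCl p, ‖x‖ ≤ 1 → (‖emb p j (χ (X pr2)) - x‖ < 1 ↔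
      rsf j χ pr2 = rs x) := fun x hx => (rs_eq_iff (hχ _) hx).symm
  have h2s : ‖2 * s‖ ≤ 1 := norm_mul_le_one norm_two_le hs
  by_cases hN : 2 ∣ N
  · have hA : pr2 ∉ AN p N := pr2_notMem hN
    have hA' : AN p N \ {pr2} = AN p N := Set.sdiff_singleton_eq_self hA
    have h1 : ∀ x : PadicAlgCl p, ‖x‖ ≤ 1 →
        ind (InC j (insert pr2 (AN p N)) (Function.update c pr2 x) χ) =
          ind (∀ q ∈ AN p N, rsf j χ q = rs (c q)) * ind (rsf j χ pr2 = rs x) := by
      intro x hx1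
      rw [← ind_and, ← InC_iff hc hχ, ← hx x hx1]
      exact ind_congr (InC_insert j hA c x χ)
    unfold denF wt v2
    simp only [hA']
    rw [h1 0 (by simp), h1 s hs, h1 (-s) (by rwa [norm_neg]), h1 (2 * s) h2s,
      h1 (-(2 * s)) (by rwa [norm_neg]), ind_congr (InC_iff hc hχ), rs_zero, rs_neg hs,
      rs_neg h2s, rs_mul norm_two_le hs, rs_two, if_pos hN, if_pos hN]
    split_ifs <;> ring
  · have hA : pr2 ∈ AN p N := pr2_mem hp hN
    have h4 : ¬ 4 ∣ M := fun h => hN ((Dvd.dvd.trans (by norm_num) h).trans hMN)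
    have h2 : ¬ 2 ∣ M := fun h => hN (h.trans hMN)
    unfold denF wt v2
    rw [if_neg h4, if_neg h4, if_neg h2, if_neg h2, if_neg hN, if_neg hN, mul_div_assoc',
      ← ind_and]
    congr 1
    apply ind_congr
    rw [InC_update j hA c α χ, hx α hα]
    refine and_congr_left' ?_
    exact InC_iff (fun q hq => hc q hq.1) hχ

/-- **The functional of a multiset of systems.** -/
theorem denF_MC (hp : 3 ≤ p) {N M : ℕ} (hMN : M ∣ N) {c : Nat.Primes → PadicAlgCl p}
    (hc : ∀ q ∈ AN p N, ‖c q‖ ≤ 1) {s α : PadicAlgCl p} (hs : ‖s‖ ≤ 1) (hα : ‖α‖ ≤ 1) (m : ℝ)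
    (X : Multiset (MvPolynomial Nat.Primes ℤ →+* ℂ))
    (hX : ∀ χ ∈ X, ∀ q, ‖emb p j (χ (MvPolynomial.X q))‖ ≤ 1) :
    denF N M (AN p N) c s α m (fun A c => MC j X A c) =
      (X.map fun χ => wt N M (AN p N) (fun q => rs (c q)) (rs s) (rs α) m (rsf j χ)).sum := by
  induction X using Multiset.induction_on with
  | empty =>
    have : (fun A c => MC j (p := p) 0 A c) = fun _ _ => (0 : ℝ) := by
      funext A c
      exact MC_zero j A c
    rw [this, Multiset.map_zero, Multiset.sum_zero]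
    unfold denF
    split_ifs <;> ring
  | cons χ X ih =>
    have h1 : (fun A c => MC j (χ ::ₘ X) A c) =
        fun A c => 1 * ind (InC j A c χ) + 1 * MC j X A c := by
      funext A c
      rw [← Multiset.singleton_add, MC_add, one_mul, one_mul]
      congr 1
      rw [MC, msum_eq_ite, Multiset.map_singleton, Multiset.sum_singleton, ind]
    rw [h1, denF_lin, Multiset.map_cons, Multiset.sum_cons, one_mul, one_mul,
      ih fun χ' h q => hX χ' (Multiset.mem_cons_of_mem h) q,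
      denF_ind hp hMN hc hs hα m (hX χ (Multiset.mem_cons_self _ _))]

end Gouvea.POS
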