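import Pool.Agent.Work.MP_d3517d_nt.POS.CombA

/-!
# Positivity: the Eisenstein lines (MP_d3517d_nt, POS)

The residues of the Eisenstein lines in the weights `n + 2` and `n' + 2`, `(p - 1) ∣ n + n' + 2`,
the second one twisted, and the sum of their weights.
-/

set_option autoImplicit false

open MvPolynomial Gouvea.Sys Gouvea.ES Gouvea.Desc Gouvea.Fin

noncomputable section

namespace Gouvea.POS

variable {p : ℕ} [Fact p.Prime] (j : algebraicClosure ℚ ℂ →+* PadicAlgCl p)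

/-! ### residues of algebraic integers -/

/-- the residue of an algebraic integer -/
def rse (z : ℂ) : kap p := rs (emb p j z)

theorem rse_add {z w : ℂ} (hz : IsIntegral ℤ z) (hw : IsIntegral ℤ w) :
    rse j (z + w) = rse j z + rse j w := by
  rw [rse, emb_add j (mem_alg_of_isIntegral hz) (mem_alg_of_isIntegral hw),
    rs_add (norm_emb_le j hz) (norm_emb_le j hw)]
  rfl

theorem rse_mul {z w : ℂ} (hz : IsIntegral ℤ z) (hw : IsIntegral ℤ w) :
    rse j (z * w) = rse j z * rse j w := by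
  rw [rse, emb_mul j (mem_alg_of_isIntegral hz) (mem_alg_of_isIntegral hw),
    rs_mul (norm_emb_le j hz) (norm_emb_le j hw)]
  rfl

theorem rse_int (a : ℤ) : rse j (a : ℂ) = a := by
  rw [rse, emb_intCast, rs_int]

theorem rse_natpow (q r : ℕ) : rse j ((q : ℂ) ^ r) = (q : kap p) ^ r := by
  have h := rse_int j ((q : ℤ) ^ r)
  push_cast at h
  exact h

theorem rse_zero : rse j 0 = 0 := by
  have h := rse_int j 0
  simpa using h

theorem rse_one : rse j 1 = 1 := by
  have h := rse_int j 1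
  simpa using h

theorem isIntegral_natpow (q r : ℕ) : IsIntegral ℤ ((q : ℂ) ^ r) := by
  have h : IsIntegral ℤ ((((q : ℤ) ^ r : ℤ)) : ℂ) := isIntegral_algebraMap (R := ℤ) (A := ℂ)
  push_cast at h
  exact h

/-! ### characters -/

theorem isIntegral_char {g : ℕ} (ψ : DirichletCharacter ℂ g) (x : ZMod g) :
    IsIntegral ℤ (ψ x) := by
  by_cases hx : IsUnit x
  · obtain ⟨u, rfl⟩ := hx
    have hfin : Finite (ZMod g)ˣ := inferInstance
    have hpos : 0 < Nat.card (ZMod g)ˣ := Nat.card_pos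
    refine IsIntegral.of_pow hpos ?_
    rw [← map_pow, ← Units.val_pow_eq_pow_val, pow_card_eq_one', Units.val_one, map_one]
    exact isIntegral_one
  · rw [ψ.map_nonunit hx]
    exact isIntegral_zero

/-- the residue of a value of a character -/
def cu {g : ℕ} (ψ : DirichletCharacter ℂ g) (q : Nat.Primes) : kap p :=
  rse j (ψ ((q : ℕ) : ZMod g))

theorem cu_mul_inv {g : ℕ} (ψ : DirichletCharacter ℂ g) {q : Nat.Primes}
    (hq : ¬ (q : ℕ) ∣ g) : cu j ψ q * cu j ψ⁻¹ q = 1 := by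
  have hu : IsUnit ((q : ℕ) : ZMod g) :=
    (ZMod.isUnit_iff_coprime _ _).2 ((Nat.Prime.coprime_iff_not_dvd q.2).2 hq)
  rw [cu, cu, ← rse_mul j (isIntegral_char _ _) (isIntegral_char _ _), ← MulChar.mul_apply,
    mul_inv_cancel, MulChar.one_apply hu, rse_one]

theorem cu_changeLevel {g g' : ℕ} (hg : g ∣ g') (ψ : DirichletCharacter ℂ g) {q : Nat.Primes}
    (hq : ¬ (q : ℕ) ∣ g') : cu j (DirichletCharacter.changeLevel hg ψ) q = cu j ψ q := by
  have h : IsCoprime ((q : ℕ) : ℤ) (g' : ℤ) :=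
    Nat.isCoprime_iff_coprime.2 ((Nat.Prime.coprime_iff_not_dvd q.2).2 hq)
  have h1 := DirichletCharacter.changeLevel_eq_cast_of_dvd' ψ hg h
  push_cast at h1
  rw [cu, cu, h1]

/-! ### the Eisenstein lines -/

theorem isIntegral_eisV (n L d : ℕ) (ψ : DirichletCharacter ℂ (d.gcd (L / d)))
    (q : Nat.Primes) : IsIntegral ℤ (eisV n L d ψ q) := by
  have h1 := isIntegral_char ψ ((q : ℕ) : ZMod (d.gcd (L / d)))
  have h2 := isIntegral_char ψ⁻¹ ((q : ℕ) : ZMod (d.gcd (L / d)))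
  have h3 := isIntegral_natpow (q : ℕ) (n + 1)
  unfold eisV
  split_ifs <;> first
    | exact isIntegral_zero.add isIntegral_zero
    | exact isIntegral_zero.add h1
    | exact isIntegral_zero.add (h3.mul h1)
    | exact h2.add isIntegral_zero
    | exact h2.add (h3.mul h1)
    | exact (h3.mul h2).add isIntegral_zero
    | exact (h3.mul h2).add h1

theorem rse_eisV (n L d : ℕ) (ψ : DirichletCharacter ℂ (d.gcd (L / d))) (q : Nat.Primes) :
    rse j (eisV n L d ψ q) = if 4 ∣ d then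
      (if (q : ℕ) ∣ d then 0 else cu j ψ⁻¹ q) +
        (if (q : ℕ) ∣ L / d then 0 else ((q : ℕ) : kap p) ^ (n + 1) * cu j ψ q)
      else (if (q : ℕ) ∣ d then 0 else ((q : ℕ) : kap p) ^ (n + 1) * cu j ψ⁻¹ q) +
        (if (q : ℕ) ∣ L / d then 0 else cu j ψ q) := by
  have h1 := isIntegral_char ψ ((q : ℕ) : ZMod (d.gcd (L / d)))
  have h2 := isIntegral_char ψ⁻¹ ((q : ℕ) : ZMod (d.gcd (L / d)))
  have h3 := isIntegral_natpow (q : ℕ) (n + 1)
  unfold eisV cu
  split_ifs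
  · rw [rse_add j isIntegral_zero isIntegral_zero, rse_zero]
  · rw [rse_add j isIntegral_zero (h3.mul h1), rse_zero, rse_mul j h3 h1, rse_natpow]
  · rw [rse_add j h2 isIntegral_zero, rse_zero]
  · rw [rse_add j h2 (h3.mul h1), rse_mul j h3 h1, rse_natpow]
  · rw [rse_add j isIntegral_zero isIntegral_zero, rse_zero]
  · rw [rse_add j isIntegral_zero h1, rse_zero]
  · rw [rse_add j (h3.mul h2) isIntegral_zero, rse_zero, rse_mul j h3 h2, rse_natpow]
  · rw [rse_add j (h3.mul h2) h1, rse_mul j h3 h2, rse_natpow]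

theorem rsf_sysOf (g : Nat.Primes → ℂ) (q : Nat.Primes) : rsf j (sysOf g) q = rse j (g q) := by
  rw [rsf, sysOf_X]
  rfl

/-- the condition away from `2` for the character `ψ` -/
def QQ (A : Set Nat.Primes) (n : ℕ) (γ : Nat.Primes → kap p) {g : ℕ}
    (ψ : DirichletCharacter ℂ g) : Prop :=
  ∀ q ∈ A \ {pr2}, cu j ψ q + ((q : ℕ) : kap p) ^ (n + 1) * cu j ψ⁻¹ q = γ q

/-- Fermat -/
theorem pow_fermat {q : ℕ} (hq : ¬ p ∣ q) (m : ℕ) : (q : kap p) ^ ((p - 1) * m) = 1 := by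
  have h1 : ((q : ZMod p)) ^ (p - 1) = 1 := by
    apply ZMod.pow_card_sub_one_eq_one
    rwa [Ne, ZMod.natCast_eq_zero_iff]
  have h2 : (q : kap p) ^ (p - 1) = 1 := by
    have := congrArg (ZMod.castHom (dvd_refl p) (kap p)) h1
    rwa [map_pow, map_one, map_natCast] at this
  rw [pow_mul, h2, one_pow]

theorem not_dvd_prime {q : Nat.Primes} (hq : q ≠ pr p) : ¬ p ∣ (q : ℕ) := by
  intro h
  apply hq
  exact Subtype.ext ((Nat.prime_dvd_prime_iff_eq (Fact.out : p.Prime) q.2).1 h).symm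

theorem two_pow_cast (r : ℕ) : ((((pr2 : Nat.Primes) : ℕ)) : kap p) ^ r = 2 ^ r := by
  rw [coe_pr2]
  norm_num

/-- an Eisenstein line at a prime not dividing the level -/
theorem eis_away (n : ℕ) {L d : ℕ} (hd : d ∣ L) (ψ : DirichletCharacter ℂ (d.gcd (L / d)))
    {q : Nat.Primes} (hq : ¬ (q : ℕ) ∣ L) :
    rse j (eisV n L d ψ q) = if 4 ∣ d then
      cu j ψ⁻¹ q + ((q : ℕ) : kap p) ^ (n + 1) * cu j ψ q
      else cu j ψ q + ((q : ℕ) : kap p) ^ (n + 1) * cu j ψ⁻¹ q := by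
  have h1 : ¬ (q : ℕ) ∣ d := fun h => hq (h.trans hd)
  have h2 : ¬ (q : ℕ) ∣ L / d := fun h => hq (h.trans (Nat.div_dvd_of_dvd hd))
  rw [rse_eisV, if_neg h1, if_neg h1, if_neg h2, if_neg h2]
  congr 1
  rw [add_comm]

/-- an Eisenstein line at `2` -/
theorem eis_two (n L d : ℕ) (ψ : DirichletCharacter ℂ (d.gcd (L / d))) :
    rse j (eisV n L d ψ pr2) = if 4 ∣ d then
      (if 2 ∣ L / d then 0 else 2 ^ (n + 1) * cu j ψ pr2)
      else (if 2 ∣ d then 0 else 2 ^ (n + 1) * cu j ψ⁻¹ pr2) +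
        (if 2 ∣ L / d then 0 else cu j ψ pr2) := by
  rw [rse_eisV, two_pow_cast, coe_pr2]
  by_cases h4 : 4 ∣ d
  · rw [if_pos h4, if_pos h4, if_pos (Dvd.dvd.trans (by norm_num) h4), zero_add]
  · rw [if_neg h4, if_neg h4]

section Lines

variable {N M : ℕ} {A : Set Nat.Primes} {γ : Nat.Primes → kap p} {σ a : kap p} {m : ℝ}
  {n n' m' L d : ℕ} (hm : n + n' + 2 = (p - 1) * m')
  (hA : ∀ q ∈ A \ {pr2}, ¬ (q : ℕ) ∣ L) (hpA : pr p ∉ A) (hd : d ∣ L)
include hA hd

variable (N M γ σ a m) in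
/-- the weight of a character and a value at `2` -/
def WW (A : Set Nat.Primes) (n : ℕ) {g : ℕ} (ψ : DirichletCharacter ℂ g) (x : kap p) : ℝ :=
  ind (QQ j A n γ ψ) * v2 N M σ a m x

/-- the lines in weight `n + 2` -/
theorem wt_one (ψ : DirichletCharacter ℂ (d.gcd (L / d))) :
    wt N M A γ σ a m (rsf j (sysOf (eisV n L d ψ))) =
      if 4 ∣ d then WW j N M γ σ a m A n ψ⁻¹ (if 2 ∣ L / d then 0 else 2 ^ (n + 1) * cu j ψ pr2)
      else WW j N M γ σ a m A n ψ ((if 2 ∣ d then 0 else 2 ^ (n + 1) * cu j ψ⁻¹ pr2) +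
        if 2 ∣ L / d then 0 else cu j ψ pr2) := by
  rw [wt, rsf_sysOf, eis_two]
  by_cases h4 : 4 ∣ d
  · rw [if_pos h4, if_pos h4, WW]
    congr 1
    refine ind_congr (forall₂_congr fun q hq => ?_)
    rw [rsf_sysOf, eis_away j n hd ψ (hA q hq), if_pos h4, inv_inv]
  · rw [if_neg h4, if_neg h4, WW]
    congr 1
    refine ind_congr (forall₂_congr fun q hq => ?_)
    rw [rsf_sysOf, eis_away j n hd ψ (hA q hq), if_neg h4]

include hm hpA in
/-- the lines in weight `n' + 2`, twisted -/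
theorem wt_two (hp : 3 ≤ p) (ψ : DirichletCharacter ℂ (d.gcd (L / d))) :
    wt N M A γ σ a m (fun q => ((q : ℕ) : kap p) ^ (n + 1) *
        rsf j (sysOf (eisV n' L d ψ)) q) =
      if 4 ∣ d then WW j N M γ σ a m A n ψ (if 2 ∣ L / d then 0 else cu j ψ pr2)
      else WW j N M γ σ a m A n ψ⁻¹ ((if 2 ∣ d then 0 else cu j ψ⁻¹ pr2) +
        if 2 ∣ L / d then 0 else 2 ^ (n + 1) * cu j ψ pr2) := by
  have h3 : ∀ q : Nat.Primes, q ≠ pr p →
      ((q : ℕ) : kap p) ^ (n + 1) * ((q : ℕ) : kap p) ^ (n' + 1) = 1 := by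
    intro q hq
    rw [← pow_add, show n + 1 + (n' + 1) = (p - 1) * m' by omega]
    exact pow_fermat (not_dvd_prime hq) m'
  have h4 : ∀ q ∈ A \ {pr2}, q ≠ pr p := fun q hq h => hpA (h ▸ hq.1)
  have h5 : (2 : kap p) ^ (n + 1) * 2 ^ (n' + 1) = 1 := by
    have := h3 pr2 (pr_ne_pr2 hp).symm
    rwa [two_pow_cast, two_pow_cast] at this
  rw [wt, rsf_sysOf, eis_two, two_pow_cast]
  by_cases h6 : 4 ∣ d
  · rw [if_pos h6, if_pos h6, WW]
    congr 1
    · refine ind_congr (forall₂_congr fun q hq => ?_)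
      rw [rsf_sysOf, eis_away j n' hd ψ (hA q hq), if_pos h6, mul_add, ← mul_assoc,
        h3 q (h4 q hq), one_mul, add_comm]
    · congr 1
      split_ifs
      · rw [mul_zero]
      · rw [← mul_assoc, h5, one_mul]
  · rw [if_neg h6, if_neg h6, WW]
    congr 1
    · refine ind_congr (forall₂_congr fun q hq => ?_)
      rw [rsf_sysOf, eis_away j n' hd ψ (hA q hq), if_neg h6, mul_add, ← mul_assoc,
        h3 q (h4 q hq), one_mul, add_comm, inv_inv]
    · congr 1
      rw [mul_add]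
      congr 1
      · split_ifs
        · rw [mul_zero]
        · rw [← mul_assoc, h5, one_mul]
      · split_ifs
        · rw [mul_zero]
        · rfl

end Lines

end Gouvea.POS
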