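import Pool.Agent.Work.MP_d3517d_nt.POS.CombB

/-!
# Positivity: the sum of the Eisenstein lines (MP_d3517d_nt, POS)
-/

set_option autoImplicit false

open MvPolynomial Gouvea.Sys Gouvea.ES Gouvea.Desc Gouvea.Fin

noncomputable section

namespace Gouvea.POS

/-! ### sums over characters and divisors -/

/-- the sum over the characters modulo `g` -/
def SH (h : ∀ g : ℕ, DirichletCharacter ℂ g → ℝ) (g : ℕ) : ℝ :=
  ∑ ψ : DirichletCharacter ℂ g, h g ψ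

/-- the sum over the divisors `d` of `K` and the characters modulo `gcd (d, K / d)` -/
def CS (h : ∀ g : ℕ, DirichletCharacter ℂ g → ℝ) (K : ℕ) : ℝ :=
  ∑ d ∈ K.divisors, SH h (d.gcd (K / d))

theorem sum_divisors_coprime {M c : ℕ} (h : M.Coprime c) (hM : M ≠ 0) (hc : c ≠ 0)
    (f : ℕ → ℝ) : ∑ D ∈ (M * c).divisors, f D =
      ∑ E ∈ c.divisors, ∑ D ∈ M.divisors, f (D * E) := by
  rw [← Finset.sum_product']
  symm
  refine Finset.sum_nbij' (fun x => x.2 * x.1) (fun D => (D.gcd c, D.gcd M)) ?_ ?_ ?_ ?_ ?_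
  · rintro ⟨E, D⟩ hx
    simp only [Finset.mem_product, Nat.mem_divisors] at hx ⊢
    exact ⟨Nat.mul_dvd_mul hx.2.1 hx.1.1, Nat.mul_ne_zero hM hc⟩
  · intro D hD
    simp only [Finset.mem_product, Nat.mem_divisors]
    exact ⟨⟨Nat.gcd_dvd_right _ _, hc⟩, Nat.gcd_dvd_right _ _, hM⟩
  · rintro ⟨E, D⟩ hx
    simp only [Finset.mem_product, Nat.mem_divisors] at hx
    have h1 : Nat.Coprime D c := h.coprime_dvd_left hx.2.1
    have h2 : Nat.Coprime E M := h.symm.coprime_dvd_left hx.1.1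
    simp only [Prod.mk.injEq]
    constructor
    · rw [Nat.Coprime.gcd_mul_left_cancel _ h1]
      exact Nat.gcd_eq_left hx.1.1
    · rw [Nat.Coprime.gcd_mul_right_cancel _ h2]
      exact Nat.gcd_eq_left hx.2.1
  · intro D hD
    have hD' := (Nat.mem_divisors.1 hD).1
    simp only
    rw [← Nat.Coprime.gcd_mul D h]
    exact Nat.gcd_eq_left hD'
  · rintro ⟨E, D⟩ _
    rfl

theorem gcd_lem_left {K c d : ℕ} (h : K.Coprime c) (hd : d ∣ K) :
    d.gcd (K * c / d) = d.gcd (K / d) := by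
  have h1 : K * c / d = K / d * c := by
    obtain ⟨e, rfl⟩ := hd
    rcases Nat.eq_zero_or_pos d with h0 | h0
    · subst h0
      simp
    · rw [mul_assoc, Nat.mul_div_cancel_left _ h0, Nat.mul_div_cancel_left _ h0]
  rw [h1]
  exact Nat.Coprime.gcd_mul_right_cancel_right _ (h.coprime_dvd_left hd).symm

theorem gcd_lem_right {K c d : ℕ} (hc : 0 < c) (h : K.Coprime c) (hd : d ∣ K) :
    (d * c).gcd (K * c / (d * c)) = d.gcd (K / d) := by
  have h1 : K * c / (d * c) = K / d := Nat.mul_div_mul_right _ _ hc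
  rw [h1]
  exact Nat.Coprime.gcd_mul_right_cancel _ (h.coprime_dvd_left (Nat.div_dvd_of_dvd hd)).symm

/-- a prime not dividing the level -/
theorem CS_mul_prime (h : ∀ g : ℕ, DirichletCharacter ℂ g → ℝ) {K c : ℕ} (hK : K ≠ 0)
    (hc : c.Prime) (hcK : ¬ c ∣ K) : CS h (K * c) = 2 * CS h K := by
  have hcop : K.Coprime c := ((Nat.Prime.coprime_iff_not_dvd hc).2 hcK).symm
  unfold CS
  rw [sum_divisors_coprime hcop hK hc.ne_zero, Nat.Prime.divisors hc,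
    Finset.sum_pair hc.one_lt.ne, two_mul]
  congr 1
  · refine Finset.sum_congr rfl fun d hd => ?_
    rw [mul_one, gcd_lem_left hcop (Nat.dvd_of_mem_divisors hd)]
  · refine Finset.sum_congr rfl fun d hd => ?_
    rw [gcd_lem_right hc.pos hcop (Nat.dvd_of_mem_divisors hd)]

theorem eisL_sum (n L : ℕ) (F : (MvPolynomial Nat.Primes ℤ →+* ℂ) → ℝ) :
    ((eisL n L).map F).sum = ∑ d ∈ L.divisors,
      ∑ ψ : DirichletCharacter ℂ (d.gcd (L / d)), F (sysOf (eisV n L d ψ)) := by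
  rw [eisL, Multiset.map_bind, Multiset.sum_bind]
  simp only [Multiset.map_map]
  rfl

variable {p : ℕ} [Fact p.Prime] (j : algebraicClosure ℚ ℂ →+* PadicAlgCl p)

section

variable (N M : ℕ) (γ : Nat.Primes → kap p) (σ a : kap p) (m : ℝ) (A : Set Nat.Primes) (n : ℕ)

/-- the two values at `2` -/
def hab (g : ℕ) (ψ : DirichletCharacter ℂ g) : ℝ :=
  WW j N M γ σ a m A n ψ (cu j ψ pr2) + WW j N M γ σ a m A n ψ (2 ^ (n + 1) * cu j ψ⁻¹ pr2)

/-- the value `0` at `2` -/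
def h00 (g : ℕ) (ψ : DirichletCharacter ℂ g) : ℝ := WW j N M γ σ a m A n ψ 0

/-- the final weight of a character -/
def hh (g : ℕ) (ψ : DirichletCharacter ℂ g) : ℝ :=
  if 2 ∣ N then ind (QQ j A n γ ψ)
  else ind (QQ j A n γ ψ) *
    ((ind (cu j ψ pr2 = a) + ind (2 ^ (n + 1) * cu j ψ⁻¹ pr2 = a)) / m)

end

section Pair

variable {N M : ℕ} {A : Set Nat.Primes} {γ : Nat.Primes → kap p} {σ a : kap p} {m : ℝ}
  {n n' m' L d : ℕ}

/-- the two lines with the same `d` -/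
theorem pair_sum (hp : 3 ≤ p) (hm : n + n' + 2 = (p - 1) * m') (hpA : pr p ∉ A) (hd : d ∣ L)
    (hA : ∀ q ∈ A \ {pr2}, ¬ (q : ℕ) ∣ L) :
    ∑ ψ : DirichletCharacter ℂ (d.gcd (L / d)),
      (wt N M A γ σ a m (rsf j (sysOf (eisV n L d ψ))) +
        wt N M A γ σ a m (fun q => ((q : ℕ) : kap p) ^ (n + 1) *
          rsf j (sysOf (eisV n' L d ψ)) q)) =
      if 4 ∣ d then ∑ ψ : DirichletCharacter ℂ (d.gcd (L / d)),
        (WW j N M γ σ a m A n ψ (if 2 ∣ L / d then 0 else cu j ψ pr2) +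
          WW j N M γ σ a m A n ψ (if 2 ∣ L / d then 0 else 2 ^ (n + 1) * cu j ψ⁻¹ pr2))
      else ∑ ψ : DirichletCharacter ℂ (d.gcd (L / d)),
        (WW j N M γ σ a m A n ψ ((if 2 ∣ d then 0 else cu j ψ pr2) +
            if 2 ∣ L / d then 0 else 2 ^ (n + 1) * cu j ψ⁻¹ pr2) +
          WW j N M γ σ a m A n ψ ((if 2 ∣ d then 0 else 2 ^ (n + 1) * cu j ψ⁻¹ pr2) +
            if 2 ∣ L / d then 0 else cu j ψ pr2)) := by
  have inv_sum : ∀ (F : DirichletCharacter ℂ (d.gcd (L / d)) → ℝ),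
      ∑ ψ, F ψ⁻¹ = ∑ ψ, F ψ := fun F => Equiv.sum_comp (Equiv.inv _) F
  rw [Finset.sum_add_distrib]
  by_cases h4 : 4 ∣ d
  · rw [if_pos h4, Finset.sum_add_distrib, add_comm]
    congr 1
    · refine Finset.sum_congr rfl fun ψ _ => ?_
      rw [wt_two j hm hA hpA hd hp ψ, if_pos h4]
    · rw [← inv_sum]
      refine Finset.sum_congr rfl fun ψ _ => ?_
      rw [wt_one j hA hd ψ⁻¹, if_pos h4, inv_inv]
  · rw [if_neg h4, Finset.sum_add_distrib, add_comm]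
    congr 1
    · rw [← inv_sum]
      refine Finset.sum_congr rfl fun ψ _ => ?_
      rw [wt_two j hm hA hpA hd hp ψ⁻¹, if_neg h4, inv_inv]
    · refine Finset.sum_congr rfl fun ψ _ => ?_
      rw [wt_one j hA hd ψ, if_neg h4]

end Pair

/-! ### the weight at `2` -/

section V2

variable {N M : ℕ} {σ a : kap p} {m : ℝ}

theorem v2_four (h : 4 ∣ M) (x : kap p) : v2 N M σ a m x = 1 := by rw [v2, if_pos h]

theorem v2_two (h4 : ¬ 4 ∣ M) (h2 : 2 ∣ M) (x : kap p) :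
    v2 N M σ a m x = 1 - ind (x = 0) := by rw [v2, if_neg h4, if_pos h2]

/-- `M` odd, `N` even -/
theorem v2_one_zero (hp : 3 ≤ p) (h2 : ¬ 2 ∣ M) (hN : 2 ∣ N) (hσ : σ ≠ 0) :
    v2 N M σ a m 0 = 0 := by
  have h4 : ¬ 4 ∣ M := fun h => h2 (Dvd.dvd.trans (by norm_num) h)
  have h5 : (2 : kap p) ≠ 0 := two_ne hp
  have h6 : 2 * σ ≠ 0 := mul_ne_zero h5 hσ
  rw [v2, if_neg h4, if_neg h2, if_pos hN, ind_true rfl, ind_false (Ne.symm hσ),
    ind_false (by rw [eq_comm, neg_eq_zero]; exact hσ), ind_false (Ne.symm h6),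
    ind_false (by rw [eq_comm, neg_eq_zero]; exact h6)]
  norm_num

/-- `M` odd, `N` even -/
theorem v2_one_sq (hp : 5 ≤ p) (h2 : ¬ 2 ∣ M) (hN : 2 ∣ N) (hσ : σ ≠ 0) {x : kap p}
    (hx : x ^ 2 = σ ^ 2) : v2 N M σ a m x = 0 := by
  have h4 : ¬ 4 ∣ M := fun h => h2 (Dvd.dvd.trans (by norm_num) h)
  have h5 : (2 : kap p) ≠ 0 := two_ne (by omega)
  have h3 : (3 : kap p) ≠ 0 := three_ne hp
  have hx0 : x ≠ 0 := by
    rintro rfl
    rw [zero_pow two_ne_zero] at hx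
    exact hσ (pow_eq_zero_iff two_ne_zero |>.1 hx.symm)
  have h6 : ¬ x = 2 * σ := by
    rintro rfl
    apply mul_ne_zero h3 (pow_ne_zero 2 hσ)
    linear_combination hx
  have h7 : ¬ x = -(2 * σ) := by
    rintro rfl
    apply mul_ne_zero h3 (pow_ne_zero 2 hσ)
    linear_combination hx
  have h8 : σ ≠ -σ := by
    intro h
    apply mul_ne_zero h5 hσ
    linear_combination h
  rw [v2, if_neg h4, if_neg h2, if_pos hN, ind_false hx0, ind_false h6, ind_false h7]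
  rcases sq_eq_sq_iff_eq_or_eq_neg.1 hx with rfl | rfl
  · rw [ind_true rfl, ind_false h8]
    norm_num
  · rw [ind_true rfl, ind_false (Ne.symm h8)]
    norm_num

/-- `M` odd, `N` even -/
theorem v2_one_pair (hp : 5 ≤ p) (h2 : ¬ 2 ∣ M) (hN : 2 ∣ N) (hσ : σ ≠ 0) {x y : kap p}
    (hxy : x * y = 2 * σ ^ 2) : v2 N M σ a m x + v2 N M σ a m y = 1 := by
  have h4 : ¬ 4 ∣ M := fun h => h2 (Dvd.dvd.trans (by norm_num) h)
  have h5 : (2 : kap p) ≠ 0 := two_ne (by omega)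
  have h6 : (2 : kap p) * σ ^ 2 ≠ 0 := mul_ne_zero h5 (pow_ne_zero 2 hσ)
  have hx0 : x ≠ 0 := by
    rintro rfl
    exact h6 (by rw [← hxy, zero_mul])
  have hy0 : y ≠ 0 := by
    rintro rfl
    exact h6 (by rw [← hxy, mul_zero])
  have e1 : ∀ {x y : kap p}, x * y = 2 * σ ^ 2 → (x = σ ↔ y = 2 * σ) := by
    intro x y hxy
    constructor
    · rintro rfl
      apply mul_left_cancel₀ hσ
      linear_combination hxy
    · rintro rfl
      apply mul_right_cancel₀ (mul_ne_zero h5 hσ)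
      linear_combination hxy
  have e2 : ∀ {x y : kap p}, x * y = 2 * σ ^ 2 → (x = -σ ↔ y = -(2 * σ)) := by
    intro x y hxy
    have h := e1 (x := -x) (y := -y) (by rw [neg_mul_neg]; exact hxy)
    rw [neg_eq_iff_eq_neg, neg_eq_iff_eq_neg] at h
    exact h
  have hyx : y * x = 2 * σ ^ 2 := by rw [mul_comm, hxy]
  rw [v2, v2, if_neg h4, if_neg h4, if_neg h2, if_neg h2, if_pos hN, if_pos hN, ind_false hx0,
    ind_false hy0, ind_congr (e1 hxy), ind_congr (e2 hxy), ind_congr (e1 hyx),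
    ind_congr (e2 hyx)]
  ring

/-- `N` odd -/
theorem v2_odd (h2 : ¬ 2 ∣ M) (hN : ¬ 2 ∣ N) (x : kap p) :
    v2 N M σ a m x = ind (x = a) / m := by
  have h4 : ¬ 4 ∣ M := fun h => h2 (Dvd.dvd.trans (by norm_num) h)
  rw [v2, if_neg h4, if_neg h2, if_neg hN]

end V2

/-! ### the sum -/

section Sum

variable {N M : ℕ} {γ : Nat.Primes → kap p} {σ a : kap p} {m : ℝ} {A : Set Nat.Primes} {n : ℕ}

theorem cu_pair {g : ℕ} (hg : ¬ 2 ∣ g) (ψ : DirichletCharacter ℂ g) :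
    cu j ψ pr2 * (2 ^ (n + 1) * cu j ψ⁻¹ pr2) = 2 ^ (n + 1) := by
  have := cu_mul_inv j ψ (q := pr2) hg
  linear_combination (2 : kap p) ^ (n + 1) * this

/-- `M = 2 M'`, `M'` odd -/
theorem hab_two (hp : 3 ≤ p) (h4 : ¬ 4 ∣ M) (h2 : 2 ∣ M) (hN : 2 ∣ N) {g : ℕ} (hg : ¬ 2 ∣ g)
    (ψ : DirichletCharacter ℂ g) :
    2 * hab j N M γ σ a m A n g ψ + 2 * h00 j N M γ σ a m A n g ψ =
      4 * hh j N γ a m A n g ψ := by
  have h5 : (2 : kap p) ^ (n + 1) ≠ 0 := pow_ne_zero _ (two_ne hp)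
  have h6 := cu_pair j (n := n) hg ψ
  have hx0 : ¬ cu j ψ pr2 = 0 := fun h => h5 (by rw [← h6, h, zero_mul])
  have hy0 : ¬ 2 ^ (n + 1) * cu j ψ⁻¹ pr2 = 0 := fun h => h5 (by rw [← h6, h, mul_zero])
  rw [hab, h00, hh, if_pos hN, WW, WW, WW, v2_two h4 h2, v2_two h4 h2, v2_two h4 h2,
    ind_false hx0, ind_false hy0, ind_true rfl]
  ring

/-- `M` odd, `N` even -/
theorem hab_one (hp : 5 ≤ p) (h2 : ¬ 2 ∣ M) (hN : 2 ∣ N) (hσ : σ ^ 2 = 2 ^ n) {g : ℕ}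
    (hg : ¬ 2 ∣ g) (ψ : DirichletCharacter ℂ g) :
    2 * hab j N M γ σ a m A n g ψ + 2 * h00 j N M γ σ a m A n g ψ =
      2 * hh j N γ a m A n g ψ := by
  have h5 : (2 : kap p) ≠ 0 := two_ne (by omega)
  have hσ0 : σ ≠ 0 := by
    rintro rfl
    rw [zero_pow two_ne_zero] at hσ
    exact pow_ne_zero n h5 hσ.symm
  have h6 := cu_pair j (n := n) hg ψ
  have h7 := v2_one_pair (a := a) (m := m) hp h2 hN hσ0 (x := cu j ψ pr2)
    (y := 2 ^ (n + 1) * cu j ψ⁻¹ pr2) (by rw [h6, hσ, pow_succ, mul_comm])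
  rw [hab, h00, hh, if_pos hN, WW, WW, WW, v2_one_zero (by omega) h2 hN hσ0]
  linear_combination (2 * ind (QQ j A n γ ψ)) * h7

/-- `N` odd -/
theorem hab_odd (h2 : ¬ 2 ∣ M) (hN : ¬ 2 ∣ N) (ha : a ≠ 0) {g : ℕ}
    (ψ : DirichletCharacter ℂ g) :
    2 * hab j N M γ σ a m A n g ψ + 2 * h00 j N M γ σ a m A n g ψ =
      2 * hh j N γ a m A n g ψ := by
  rw [hab, h00, hh, if_neg hN, WW, WW, WW, v2_odd h2 hN, v2_odd h2 hN, v2_odd h2 hN,
    ind_false (Ne.symm ha)]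
  ring

theorem QQ_changeLevel {g g' : ℕ} (hg : g ∣ g') (hA : ∀ q ∈ A \ {pr2}, ¬ (q : ℕ) ∣ g')
    (ψ : DirichletCharacter ℂ g) :
    QQ j A n γ (DirichletCharacter.changeLevel hg ψ) ↔ QQ j A n γ ψ := by
  refine forall₂_congr fun q hq => ?_
  rw [← map_inv, cu_changeLevel j hg ψ (hA q hq), cu_changeLevel j hg ψ⁻¹ (hA q hq)]


end Sum

end Gouvea.POS
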