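import Pool.Agent.Work.MP_d3517d_nt.POS.CombC
import Pool.Agent.Work.MP_d3517d_nt.POS.CharSum

/-!
# Positivity: the total of the Eisenstein lines, the twist, the trivial lines (MP_d3517d_nt, POS)
-/

set_option autoImplicit false

open MvPolynomial Gouvea.Sys Gouvea.ES Gouvea.Desc Gouvea.Fin

noncomputable section

namespace Gouvea.POS

variable {p : ℕ} [Fact p.Prime] (j : algebraicClosure ℚ ℂ →+* PadicAlgCl p)

section Total

variable (N M : ℕ) (γ : Nat.Primes → kap p) (σ a : kap p) (m : ℝ) (A : Set Nat.Primes) (n : ℕ)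

/-- the weight of the two lines, `4 ∣ d` -/
def P4 (L d : ℕ) (g : ℕ) (ψ : DirichletCharacter ℂ g) : ℝ :=
  WW j N M γ σ a m A n ψ (if 2 ∣ L / d then 0 else cu j ψ pr2) +
    WW j N M γ σ a m A n ψ (if 2 ∣ L / d then 0 else 2 ^ (n + 1) * cu j ψ⁻¹ pr2)

/-- the weight of the two lines, `4 ∤ d` -/
def P1 (L d : ℕ) (g : ℕ) (ψ : DirichletCharacter ℂ g) : ℝ :=
  WW j N M γ σ a m A n ψ ((if 2 ∣ d then 0 else cu j ψ pr2) +
      if 2 ∣ L / d then 0 else 2 ^ (n + 1) * cu j ψ⁻¹ pr2) +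
    WW j N M γ σ a m A n ψ ((if 2 ∣ d then 0 else 2 ^ (n + 1) * cu j ψ⁻¹ pr2) +
      if 2 ∣ L / d then 0 else cu j ψ pr2)

/-- the weight of the two lines -/
def PP (L d : ℕ) : ℝ :=
  if 4 ∣ d then SH (P4 j N M γ σ a m A n L d) (d.gcd (L / d))
  else SH (P1 j N M γ σ a m A n L d) (d.gcd (L / d))

theorem SH_add (h h' : ∀ g : ℕ, DirichletCharacter ℂ g → ℝ) (g : ℕ) :
    SH (fun g ψ => h g ψ + h' g ψ) g = SH h g + SH h' g := Finset.sum_add_distrib

theorem SH_mul (r : ℝ) (h : ∀ g : ℕ, DirichletCharacter ℂ g → ℝ) (g : ℕ) :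
    SH (fun g ψ => r * h g ψ) g = r * SH h g := by
  unfold SH
  rw [Finset.mul_sum]

variable {N M γ σ a m A n} {K d : ℕ}

theorem PP_one (hK : ¬ 2 ∣ K) (hd : d ∣ K) :
    PP j N M γ σ a m A n (K * 4) d = SH (hab j N M γ σ a m A n) (d.gcd (K / d)) := by
  have h2d : ¬ 2 ∣ d := fun h => hK (h.trans hd)
  have h4d : ¬ 4 ∣ d := fun h => h2d (Dvd.dvd.trans (by norm_num) h)
  have hcop : K.Coprime 4 := by
    have h := ((Nat.Prime.coprime_iff_not_dvd Nat.prime_two).2 hK).symm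
    exact Nat.Coprime.pow_right 2 h
  obtain ⟨e, rfl⟩ := hd
  have hd0 : 0 < d := Nat.pos_of_ne_zero fun h => hK (by simp [h])
  have h1 : 2 ∣ d * e * 4 / d := by
    rw [mul_assoc, Nat.mul_div_cancel_left _ hd0]
    exact Dvd.intro (e * 2) (by ring)
  rw [PP, if_neg h4d, gcd_lem_left hcop (Dvd.intro _ rfl)]
  unfold SH
  refine Finset.sum_congr rfl fun ψ _ => ?_
  rw [P1, hab, if_neg h2d, if_neg h2d, if_pos h1, if_pos h1, add_zero, add_zero]

theorem PP_four (hK : ¬ 2 ∣ K) (hd : d ∣ K) :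
    PP j N M γ σ a m A n (K * 4) (d * 4) = SH (hab j N M γ σ a m A n) (d.gcd (K / d)) := by
  have hcop : K.Coprime 4 := by
    have h := ((Nat.Prime.coprime_iff_not_dvd Nat.prime_two).2 hK).symm
    exact Nat.Coprime.pow_right 2 h
  have h1 : ¬ 2 ∣ K * 4 / (d * 4) := by
    rw [Nat.mul_div_mul_right _ _ (by norm_num)]
    exact fun h => hK (h.trans (Nat.div_dvd_of_dvd hd))
  rw [PP, if_pos (Dvd.intro_left _ rfl), gcd_lem_right (by norm_num) hcop hd]
  unfold SH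
  refine Finset.sum_congr rfl fun ψ _ => ?_
  rw [P4, hab, if_neg h1, if_neg h1]

theorem gcd_two (hd : d ∣ K) : (d * 2).gcd (K * 4 / (d * 2)) = 2 * d.gcd (K / d) := by
  obtain ⟨e, rfl⟩ := hd
  rcases Nat.eq_zero_or_pos d with h0 | hd0
  · subst h0
    simp
  have h1 : d * e * 4 / (d * 2) = e * 2 := by
    rw [show d * e * 4 = d * 2 * (e * 2) by ring]
    exact Nat.mul_div_cancel_left _ (by positivity)
  rw [h1, Nat.mul_div_cancel_left _ hd0, Nat.gcd_mul_right, mul_comm]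

theorem h00_two (hA : ∀ q ∈ A \ {pr2}, ¬ (q : ℕ) ∣ K * 4) {g : ℕ} (hg : ¬ 2 ∣ g) (hgK : g ∣ K) :
    SH (h00 j N M γ σ a m A n) (2 * g) = SH (h00 j N M γ σ a m A n) g := by
  refine sum_char_two g (Nat.odd_iff.2 (by omega)) _ fun ψ => ?_
  unfold h00 WW
  congr 1
  refine ind_congr (QQ_changeLevel j _ (fun q hq h => hA q hq ?_) ψ)
  refine h.trans ((Nat.mul_dvd_mul_left 2 hgK).trans ?_)
  exact Dvd.intro 2 (by ring)

theorem PP_two (hA : ∀ q ∈ A \ {pr2}, ¬ (q : ℕ) ∣ K * 4) (hK : ¬ 2 ∣ K) (hd : d ∣ K) :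
    PP j N M γ σ a m A n (K * 4) (d * 2) =
      2 * SH (h00 j N M γ σ a m A n) (d.gcd (K / d)) := by
  have h2d : ¬ 2 ∣ d := fun h => hK (h.trans hd)
  have h4d : ¬ 4 ∣ d * 2 := by omega
  have h1 : 2 ∣ K * 4 / (d * 2) := by
    obtain ⟨e, rfl⟩ := hd
    have hd0 : 0 < d := Nat.pos_of_ne_zero fun h => hK (by simp [h])
    have h1 : d * e * 4 / (d * 2) = e * 2 := by
      rw [show d * e * 4 = d * 2 * (e * 2) by ring]
      exact Nat.mul_div_cancel_left _ (by positivity)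
    rw [h1]
    exact Dvd.intro_left _ rfl
  have hg : d.gcd (K / d) ∣ K := (Nat.gcd_dvd_left _ _).trans hd
  rw [PP, if_neg h4d, gcd_two hd, ← h00_two j hA (fun h => hK (h.trans hg)) hg, ← SH_mul]
  unfold SH
  refine Finset.sum_congr rfl fun ψ _ => ?_
  unfold P1 h00
  rw [if_pos (Dvd.intro_left _ rfl), if_pos (Dvd.intro_left _ rfl), if_pos h1,
    if_pos h1, add_zero]
  ring

/-- the sum over the divisors of `4 K`, `K` odd -/
theorem PP_sum (hA : ∀ q ∈ A \ {pr2}, ¬ (q : ℕ) ∣ K * 4) (hK : ¬ 2 ∣ K) :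
    ∑ d ∈ (K * 4).divisors, PP j N M γ σ a m A n (K * 4) d =
      CS (fun g ψ => 2 * hab j N M γ σ a m A n g ψ + 2 * h00 j N M γ σ a m A n g ψ) K := by
  have hK0 : K ≠ 0 := by
    rintro rfl
    exact hK (dvd_zero _)
  have hcop : K.Coprime 4 := by
    have h := ((Nat.Prime.coprime_iff_not_dvd Nat.prime_two).2 hK).symm
    exact Nat.Coprime.pow_right 2 h
  have h4 : (4 : ℕ).divisors = {1, 2, 4} := by decide
  rw [sum_divisors_coprime hcop hK0 (by norm_num), h4, Finset.sum_insert (by decide),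
    Finset.sum_pair (by decide), CS, ← Finset.sum_add_distrib, ← Finset.sum_add_distrib]
  refine Finset.sum_congr rfl fun d hd => ?_
  have hd' := Nat.dvd_of_mem_divisors hd
  rw [mul_one, PP_one j hK hd', PP_two j hA hK hd', PP_four j hK hd', SH_add, SH_mul, SH_mul]
  ring


variable {n' m' : ℕ}

theorem PP_pair (hp : 3 ≤ p) (hm : n + n' + 2 = (p - 1) * m') (hpA : pr p ∉ A) {L d : ℕ}
    (hd : d ∣ L) (hA : ∀ q ∈ A \ {pr2}, ¬ (q : ℕ) ∣ L) :
    ∑ ψ : DirichletCharacter ℂ (d.gcd (L / d)), wt N M A γ σ a m (rsf j (sysOf (eisV n L d ψ))) +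
      ∑ ψ : DirichletCharacter ℂ (d.gcd (L / d)),
        wt N M A γ σ a m (fun q => ((q : ℕ) : kap p) ^ (n + 1) *
          rsf j (sysOf (eisV n' L d ψ)) q) = PP j N M γ σ a m A n L d := by
  rw [← Finset.sum_add_distrib, pair_sum j hp hm hpA hd hA]
  rfl

theorem CS_congr {h h' : ∀ g : ℕ, DirichletCharacter ℂ g → ℝ} {K : ℕ}
    (e : ∀ g, g ∣ K → ∀ ψ, h g ψ = h' g ψ) : CS h K = CS h' K := by
  unfold CS SH
  refine Finset.sum_congr rfl fun d hd => Finset.sum_congr rfl fun ψ _ => ?_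
  exact e _ ((Nat.gcd_dvd_left _ _).trans (Nat.dvd_of_mem_divisors hd)) ψ

theorem CS_mul (r : ℝ) (h : ∀ g : ℕ, DirichletCharacter ℂ g → ℝ) (K : ℕ) :
    CS (fun g ψ => r * h g ψ) K = r * CS h K := by
  unfold CS
  rw [Finset.mul_sum]
  exact Finset.sum_congr rfl fun d _ => SH_mul r h _

theorem AN_notDvd (hMN : M ∣ N) : ∀ q ∈ AN p N \ {pr2}, ¬ (q : ℕ) ∣ lv M * p := by
  rintro q ⟨hq, hq2⟩ h
  have h1 : (q : ℕ) ∣ 4 * (M * p) := by
    rw [← mul_assoc]
    exact h.trans (Nat.mul_dvd_mul_right (lv_dvd M) p)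
  rcases (Nat.Prime.dvd_mul q.2).1 h1 with h2 | h2
  · apply hq2
    have h3 : (q : ℕ) ∣ 2 := by
      have : (q : ℕ) ∣ 2 ^ 2 := by simpa using h2
      exact q.2.dvd_of_dvd_pow this
    exact Subtype.ext ((Nat.prime_dvd_prime_iff_eq q.2 Nat.prime_two).1 h3)
  · exact hq (h2.trans (Nat.mul_dvd_mul_right hMN p))

/-- **The total of the Eisenstein lines.** -/
theorem E_total (hp : 5 ≤ p) (hm : n + n' + 2 = (p - 1) * m') (hMN : M ∣ N) (hM0 : M ≠ 0)
    (hσ : σ ^ 2 = 2 ^ n) (ha : ¬ 2 ∣ N → a ≠ 0) :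
    ((eisL n (lv M * p)).map fun χ => wt N M (AN p N) γ σ a m (rsf j χ)).sum +
      ((eisL n' (lv M * p)).map fun χ => wt N M (AN p N) γ σ a m
        (fun q => ((q : ℕ) : kap p) ^ (n + 1) * rsf j χ q)).sum =
      2 * CS (hh j N γ a m (AN p N) n) (M * p) := by
  have hpA : pr p ∉ AN p N := pr_notMem_AN N
  have hA := AN_notDvd (p := p) hMN
  have hpo : ¬ 2 ∣ p := by
    intro h
    have := (Nat.prime_dvd_prime_iff_eq Nat.prime_two (Fact.out : p.Prime)).1 h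
    omega
  rw [eisL_sum, eisL_sum, ← Finset.sum_add_distrib]
  have e1 : ∑ d ∈ (lv M * p).divisors, (∑ ψ : DirichletCharacter ℂ (d.gcd (lv M * p / d)),
      wt N M (AN p N) γ σ a m (rsf j (sysOf (eisV n (lv M * p) d ψ))) +
      ∑ ψ : DirichletCharacter ℂ (d.gcd (lv M * p / d)),
        wt N M (AN p N) γ σ a m (fun q => ((q : ℕ) : kap p) ^ (n + 1) *
          rsf j (sysOf (eisV n' (lv M * p) d ψ)) q)) =
      ∑ d ∈ (lv M * p).divisors, PP j N M γ σ a m (AN p N) n (lv M * p) d :=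
    Finset.sum_congr rfl fun d hd =>
      PP_pair j (by omega) hm hpA (Nat.dvd_of_mem_divisors hd) hA
  rw [e1]
  by_cases h4 : 4 ∣ M
  · have h2N : 2 ∣ N := (Dvd.dvd.trans (by norm_num) h4).trans hMN
    have e2 : lv M * p = M * p := by rw [lv, if_pos h4]
    rw [e2, ← CS_mul, CS]
    refine Finset.sum_congr rfl fun d _ => ?_
    unfold PP SH
    have e3 : ∀ x : ℝ, x * 1 + x * 1 = 2 * x := fun x => by ring
    split_ifs
    · refine Finset.sum_congr rfl fun ψ _ => ?_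
      unfold P4 WW hh
      beta_reduce
      rw [v2_four h4, v2_four h4, if_pos h2N, e3]
    · refine Finset.sum_congr rfl fun ψ _ => ?_
      unfold P1 WW hh
      beta_reduce
      rw [v2_four h4, v2_four h4, if_pos h2N, e3]
  · by_cases h2 : 2 ∣ M
    · have h2N : 2 ∣ N := h2.trans hMN
      obtain ⟨M1, rfl⟩ := h2
      have hM1 : ¬ 2 ∣ M1 := fun h => h4 (by
        obtain ⟨k, rfl⟩ := h
        exact ⟨k, by ring⟩)
      have hK : ¬ 2 ∣ M1 * p := by
        rw [Nat.prime_two.dvd_mul]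
        tauto
      have hK0 : M1 * p ≠ 0 := by
        intro h
        exact hK (h ▸ dvd_zero 2)
      have e2 : lv (2 * M1) * p = M1 * p * 4 := by
        rw [lv, if_neg h4, if_pos (Dvd.intro _ rfl)]
        ring
      have e3 : 2 * M1 * p = M1 * p * 2 := by ring
      rw [e2] at hA ⊢
      rw [PP_sum j hA hK, e3, CS_mul_prime _ hK0 Nat.prime_two hK, ← mul_assoc, ← CS_mul]
      refine CS_congr fun g hg ψ => ?_
      rw [hab_two j (by omega) h4 (Dvd.intro _ rfl) h2N (fun h => hK (h.trans hg))]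
      norm_num
    · have hK : ¬ 2 ∣ M * p := by
        rw [Nat.prime_two.dvd_mul]
        tauto
      have e2 : lv M * p = M * p * 4 := by
        rw [lv, if_neg h4, if_neg h2]
        ring
      rw [e2] at hA ⊢
      rw [PP_sum j hA hK, ← CS_mul]
      refine CS_congr fun g hg ψ => ?_
      by_cases h2N : 2 ∣ N
      · exact hab_one j hp h2 h2N hσ (fun h => hK (h.trans hg)) ψ
      · exact hab_odd j h2 h2N (ha h2N) ψ

end Total

end Gouvea.POS
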