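import Pool.Agent.Work.MP_d3517d_nt.POS.CombD
import Pool.Agent.Work.MP_d3517d_nt.POS.GreBet

/-!
# Positivity: the density at level `M ∣ N` (MP_d3517d_nt, POS)

`level_eq`: the density of a class at level `M ∣ N` in terms of the cusp forms of level `M p` in
the weights `n + 2` and `n' + 2`, the Eisenstein lines and the trivial line.
-/

set_option autoImplicit false

open MvPolynomial Gouvea.Sys Gouvea.ES Gouvea.Desc Gouvea.Fin

noncomputable section

namespace Gouvea.POS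

variable {p : ℕ} [Fact p.Prime] (j : algebraicClosure ℚ ℂ →+* PadicAlgCl p)

/-! ### division by a power of a prime -/

theorem coe_ne {q : Nat.Primes} (hq : q ≠ pr p) : (q : ℕ) ≠ p := fun h => hq (Subtype.ext h)

theorem norm_qpow {q : Nat.Primes} (hq : q ≠ pr p) (r : ℕ) :
    ‖((q : ℕ) : PadicAlgCl p) ^ r‖ = 1 := by
  rw [norm_pow, norm_prime (coe_ne hq), one_pow]

theorem norm_div_qpow {q : Nat.Primes} (hq : q ≠ pr p) (r : ℕ) (x : PadicAlgCl p) :
    ‖x / ((q : ℕ) : PadicAlgCl p) ^ r‖ = ‖x‖ := by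
  rw [norm_div, norm_qpow hq, div_one]

theorem rs_div_qpow {q : Nat.Primes} (hq : q ≠ pr p) (r : ℕ) {x : PadicAlgCl p} (hx : ‖x‖ ≤ 1) :
    ((q : ℕ) : kap p) ^ r * rs (x / ((q : ℕ) : PadicAlgCl p) ^ r) = rs x := by
  have h0 : ((q : ℕ) : PadicAlgCl p) ^ r ≠ 0 := by
    intro h
    have := norm_qpow (p := p) hq r
    rw [h, norm_zero] at this
    exact zero_ne_one this
  have h1 : rs (((q : ℕ) : PadicAlgCl p) ^ r) = ((q : ℕ) : kap p) ^ r := by
    have := rs_int (p := p) (((q : ℕ) : ℤ) ^ r)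
    push_cast at this
    exact this
  rw [← h1, ← rs_mul (norm_qpow hq r).le (by rw [norm_div_qpow hq]; exact hx),
    mul_div_cancel₀ _ h0]

theorem norm_div_two (hp : 3 ≤ p) (r : ℕ) (x : PadicAlgCl p) : ‖x / 2 ^ r‖ = ‖x‖ := by
  have := norm_div_qpow (p := p) (q := pr2) (pr_ne_pr2 hp).symm r x
  rwa [coe_pr2'] at this

theorem rs_div_two (hp : 3 ≤ p) (r : ℕ) {x : PadicAlgCl p} (hx : ‖x‖ ≤ 1) :
    (2 : kap p) ^ r * rs (x / 2 ^ r) = rs x := by
  have := rs_div_qpow (p := p) (q := pr2) (pr_ne_pr2 hp).symm r hx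
  rwa [coe_pr2', two_pow_cast] at this

/-! ### the twist -/

theorem v2_twist {N M : ℕ} {σ a σ' a' u : kap p} (hu : u ≠ 0) (hσ : u * σ' = σ) (ha : u * a' = a)
    (m : ℝ) (x : kap p) : v2 N M σ' a' m x = v2 N M σ a m (u * x) := by
  subst hσ ha
  have e : ∀ y z : kap p, u * y = z → (x = y ↔ u * x = z) := by
    rintro y z rfl
    exact ⟨fun h => by rw [h], fun h => mul_left_cancel₀ hu h⟩
  unfold v2
  rw [ind_congr (e 0 0 (mul_zero u)), ind_congr (e σ' (u * σ') rfl),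
    ind_congr (e (-σ') (-(u * σ')) (by ring)), ind_congr (e (2 * σ') (2 * (u * σ')) (by ring)),
    ind_congr (e (-(2 * σ')) (-(2 * (u * σ'))) (by ring)), ind_congr (e a' (u * a') rfl)]

theorem wt_twist (hp : 3 ≤ p) {N M : ℕ} {A : Set Nat.Primes} (hA : pr p ∉ A)
    {c : Nat.Primes → PadicAlgCl p} (hc : ∀ q ∈ A, ‖c q‖ ≤ 1) {s α : PadicAlgCl p}
    (hs : ‖s‖ ≤ 1) (hα : ‖α‖ ≤ 1) (m : ℝ) (r : ℕ) (g : Nat.Primes → kap p) :
    wt N M A (fun q => rs (twc r c q)) (rs (s / 2 ^ r)) (rs (α / 2 ^ r)) m g =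
      wt N M A (fun q => rs (c q)) (rs s) (rs α) m (fun q => ((q : ℕ) : kap p) ^ r * g q) := by
  have h2 : (2 : kap p) ^ r ≠ 0 := pow_ne_zero _ (two_ne hp)
  unfold wt
  beta_reduce
  rw [v2_twist h2 (rs_div_two hp r hs) (rs_div_two hp r hα), two_pow_cast]
  congr 1
  refine ind_congr (forall₂_congr fun q hq => ?_)
  have hqp : q ≠ pr p := fun h => hA (h ▸ hq.1)
  have h0 : ((q : ℕ) : kap p) ^ r ≠ 0 := pow_ne_zero _ (nat_ne_zero (not_dvd_prime hqp))
  rw [twc, ← rs_div_qpow hqp r (hc q hq.1)]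
  exact ⟨fun h => by rw [h], fun h => mul_left_cancel₀ h0 h⟩

/-! ### the trivial line -/

theorem rse_trivV (L : ℕ) (q : Nat.Primes) :
    rse j (trivV L q) = if (q : ℕ) ∣ L then ((q : ℕ) : kap p) else 1 + ((q : ℕ) : kap p) := by
  have h1 := rse_natpow j (q : ℕ) 1
  rw [pow_one, pow_one] at h1
  have h2 := isIntegral_natpow (q : ℕ) 1
  rw [pow_one] at h2
  unfold trivV
  split_ifs
  · exact h1
  · rw [rse_add j isIntegral_one h2, rse_one, h1]

/-- the weight of the trivial line -/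
def dlt (N : ℕ) (A : Set Nat.Primes) (γ : Nat.Primes → kap p) (a : kap p) (m : ℝ) : ℝ :=
  ind (∀ q ∈ A \ {pr2}, 1 + ((q : ℕ) : kap p) = γ q) * (if 2 ∣ N then 1 else ind (2 = a) / m)

theorem dlt_nonneg {N : ℕ} {A : Set Nat.Primes} {γ : Nat.Primes → kap p} {a : kap p} {m : ℝ}
    (hm : 1 ≤ m) : 0 ≤ dlt N A γ a m := by
  unfold dlt
  refine mul_nonneg (ind_nonneg _) ?_
  split_ifs
  · exact zero_le_one
  · exact div_nonneg (ind_nonneg _) (by linarith)

theorem ind_le_one (P : Prop) : ind P ≤ 1 := by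
  unfold ind
  split_ifs <;> norm_num

theorem dlt_le_one {N : ℕ} {A : Set Nat.Primes} {γ : Nat.Primes → kap p} {a : kap p} {m : ℝ}
    (hm : 1 ≤ m) : dlt N A γ a m ≤ 1 := by
  unfold dlt
  refine mul_le_one₀ (ind_le_one _) ?_ ?_
  · split_ifs
    · exact zero_le_one
    · exact div_nonneg (ind_nonneg _) (by linarith)
  · split_ifs
    · exact le_rfl
    · rw [div_le_one (by linarith)]
      exact (ind_le_one _).trans hm

theorem wt_triv (hp : 5 ≤ p) {N M : ℕ} (hMN : M ∣ N) {γ : Nat.Primes → kap p}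
    {σ a : kap p} (hσ : σ ^ 2 = 1) (m : ℝ) :
    wt N M (AN p N) γ σ a m (rsf j (sysOf (trivV (lv M * p)))) = dlt N (AN p N) γ a m := by
  have hA := AN_notDvd (p := p) hMN
  have h2L : 2 ∣ lv M * p := Dvd.dvd.mul_right ((Dvd.dvd.trans (by norm_num) (lv_four M))) p
  have e2 : rsf j (sysOf (trivV (lv M * p))) pr2 = 2 := by
    rw [rsf_sysOf, rse_trivV, coe_pr2, if_pos h2L]
    norm_num
  have h5 : (2 : kap p) ≠ 0 := two_ne (by omega)
  have hσ0 : σ ≠ 0 := by
    rintro rfl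
    rw [zero_pow two_ne_zero] at hσ
    exact zero_ne_one hσ
  unfold wt dlt
  rw [e2]
  congr 1
  · refine ind_congr (forall₂_congr fun q hq => ?_)
    rw [rsf_sysOf, rse_trivV, if_neg (hA q hq)]
  · by_cases h4 : 4 ∣ M
    · rw [v2_four h4, if_pos ((Dvd.dvd.trans (by norm_num) h4).trans hMN)]
    · by_cases h2 : 2 ∣ M
      · rw [v2_two h4 h2, ind_false h5, sub_zero, if_pos (h2.trans hMN)]
      · by_cases hN : 2 ∣ N
        · have h6 := v2_one_pair (a := a) (m := m) hp h2 hN hσ0 (x := 2) (y := 1) (by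
            rw [hσ])
          have h7 := v2_one_sq (a := a) (m := m) hp h2 hN hσ0 (x := 1) (by rw [hσ, one_pow])
          rw [h7, add_zero] at h6
          rw [h6, if_pos hN]
        · rw [v2_odd h2 hN, if_neg hN]

/-! ### the level `M` -/

/-- exact Eichler-Shimura for the counting functions -/
theorem MC_exact {n : ℕ} (hE : ExactES n) (hn : Even n) {L : ℕ} [NeZero L] (h4 : 4 ∣ L)
    (A : Set Nat.Primes) (c : Nat.Primes → PadicAlgCl p) :
    haveI := finiteDimensional_Sym ℂ L n hn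
    MC j (Sys (rhoS ℂ L n h4)) A c = 2 * MC j (Sys (rhoC L (n + 2))) A c + MC j (eisL n L) A c -
      (if n = 0 then 2 * MC j {sysOf (trivV L)} A c else 0) := by
  have := finiteDimensional_Sym ℂ L n hn
  have h := congrArg (fun X => MC j X A c) (hE hn L h4)
  simp only [MC_add, two_nsmul] at h
  by_cases h0 : n = 0
  · rw [if_pos h0] at h ⊢
    rw [MC_add] at h
    linarith
  · rw [if_neg h0] at h ⊢
    rw [MC_zero] at h
    linarith

theorem denF_mul {N M : ℕ} {A : Set Nat.Primes} {c : Nat.Primes → PadicAlgCl p}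
    {s α : PadicAlgCl p} {m : ℝ} (a : ℝ)
    (S : Set Nat.Primes → (Nat.Primes → PadicAlgCl p) → ℝ) :
    denF N M A c s α m (fun A c => a * S A c) = a * denF N M A c s α m S := by
  unfold denF
  split_ifs <;> ring

section Level

variable {N M n n' m' : ℕ} {c : Nat.Primes → PadicAlgCl p} {s α : PadicAlgCl p} {m : ℝ}

/-- **The density at level `M`.** -/
theorem level_eq (hp : 5 ≤ p) (hI : Int1) (hEX : ∀ n, ExactES n) [NeZero M] (hMN : M ∣ N)
    (hpN : ¬ p ∣ N) (hn : Even n) (hn' : Even n') (hn'0 : n' ≠ 0)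
    (hm : n + n' + 2 = (p - 1) * m') (hc : ∀ q ∈ AN p N, ‖c q‖ ≤ 1) (hs : ‖s‖ ≤ 1)
    (hs2 : rs s ^ 2 = 2 ^ n) (hα1 : ‖α‖ ≤ 1)
    (hα : ¬ 2 ∣ N → rs α ^ 2 - rs (c pr2) * rs α + 2 ^ (n + 1) = 0 ∧
      rs α ≠ 0 ∧ rs α ^ 2 ≠ 2 ^ n ∧
      m = open scoped Classical in if ‖c pr2 - 2 * α‖ < 1 then (2 : ℝ) else 1) :
    ((p : ℝ) - 1) * m' * denF N M (AN p N) c s α m (fun A c => bet (lv M) A c n) =
      MC j (Sys (rhoC (M * p) (n + 2))) (AN p N) c +
      MC j (Sys (rhoC (M * p) (n' + 2))) (AN p N) (twc (n + 1) c) +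
      CS (hh j N (fun q => rs (c q)) (rs α) m (AN p N) n) (M * p) -
      (if n = 0 then dlt N (AN p N) (fun q => rs (c q)) (rs α) m else 0) := by
  classical
  have hp3 : 3 ≤ p := by omega
  have hpA : pr p ∉ AN p N := pr_notMem_AN N
  have hp0 : p ≠ 0 := by omega
  have : NeZero p := ⟨hp0⟩
  have : NeZero (lv M * p) := ⟨Nat.mul_ne_zero (NeZero.ne _) hp0⟩
  have hpo : ¬ 2 ∣ p := by
    intro h
    have := (Nat.prime_dvd_prime_iff_eq Nat.prime_two (Fact.out : p.Prime)).1 h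
    omega
  have h4L : 4 ∣ lv M * p := (lv_four M).mul_right p
  have hplv : ¬ p ∣ lv M := by
    intro h
    have h1 := h.trans (lv_dvd M)
    rcases (Nat.Prime.dvd_mul (Fact.out : p.Prime)).1 h1 with h2 | h2
    · have h3 := (Fact.out : p.Prime).dvd_of_dvd_pow (show p ∣ 2 ^ 2 by norm_num; exact h2)
      have := Nat.le_of_dvd (by norm_num) h3
      omega
    · exact hpN (h2.trans hMN)
  have h2k : (2 : kap p) ^ (n + 1) ≠ 0 := pow_ne_zero _ (two_ne hp3)
  have hfer : (2 : kap p) ^ (n + 1) * 2 ^ (n' + 1) = 1 := by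
    rw [← pow_add, show n + 1 + (n' + 1) = (p - 1) * m' by omega]
    have := pow_fermat (p := p) (q := 2) (fun h => by
      have := Nat.le_of_dvd (by norm_num) h
      omega) m'
    push_cast at this
    exact this
  -- the conditions at the weight `n' + 2`
  set s' : PadicAlgCl p := s / 2 ^ (n + 1) with hs'
  set α' : PadicAlgCl p := α / 2 ^ (n + 1) with hα'
  have hs1' : ‖s'‖ ≤ 1 := by rw [hs', norm_div_two hp3]; exact hs
  have hα1' : ‖α'‖ ≤ 1 := by rw [hα', norm_div_two hp3]; exact hα1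
  have es : (2 : kap p) ^ (n + 1) * rs s' = rs s := rs_div_two hp3 _ hs
  have eα : (2 : kap p) ^ (n + 1) * rs α' = rs α := rs_div_two hp3 _ hα1
  have hs2' : rs s' ^ 2 = 2 ^ n' := by
    apply mul_left_cancel₀ (pow_ne_zero 2 h2k)
    have h1 : ((2 : kap p) ^ (n + 1)) ^ 2 * rs s' ^ 2 = 2 ^ n := by
      rw [← mul_pow, es, hs2]
    have h2 : ((2 : kap p) ^ (n + 1)) ^ 2 * 2 ^ n' = 2 ^ n := by
      have h3 : ((2 : kap p) ^ (n + 1)) ^ 2 * 2 ^ n' =
          2 ^ n * (2 ^ (n + 1) * 2 ^ (n' + 1)) := by ring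
      rw [h3, hfer, mul_one]
    rw [h1, h2]
  have hc' : ∀ q ∈ AN p N, ‖twc (n + 1) c q‖ ≤ 1 := by
    intro q hq
    rw [twc, norm_div_qpow fun h => hpA (h ▸ hq)]
    exact hc q hq
  have hcond : ¬ 2 ∣ N → ‖c pr2‖ ≤ 1 ∧ ‖α‖ ≤ 1 ∧
      rs α ^ 2 - rs (c pr2) * rs α + 2 ^ (n + 1) = 0 ∧ rs α ≠ 0 ∧ rs α ^ 2 ≠ 2 ^ n ∧
      m = if ‖c pr2 - 2 * α‖ < 1 then (2 : ℝ) else 1 := by
    intro hN
    obtain ⟨h1, h2, h3, h4⟩ := hα hN
    exact ⟨hc pr2 (pr2_mem hp3 hN), hα1, h1, h2, h3, h4⟩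
  have hcond' : ¬ 2 ∣ N → ‖twc (n + 1) c pr2‖ ≤ 1 ∧ ‖α'‖ ≤ 1 ∧
      rs α' ^ 2 - rs (twc (n + 1) c pr2) * rs α' + 2 ^ (n' + 1) = 0 ∧ rs α' ≠ 0 ∧
      rs α' ^ 2 ≠ 2 ^ n' ∧
      m = if ‖twc (n + 1) c pr2 - 2 * α'‖ < 1 then (2 : ℝ) else 1 := by
    intro hN
    obtain ⟨h1, h2, h3, h4⟩ := hα hN
    have hc2 := hc pr2 (pr2_mem hp3 hN)
    have ec : (2 : kap p) ^ (n + 1) * rs (twc (n + 1) c pr2) = rs (c pr2) := by
      rw [twc, coe_pr2']
      exact rs_div_two hp3 _ hc2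
    refine ⟨hc' pr2 (pr2_mem hp3 hN), hα1', ?_, ?_, ?_, ?_⟩
    · apply mul_left_cancel₀ (pow_ne_zero 2 h2k)
      rw [mul_zero]
      have h5 : ((2 : kap p) ^ (n + 1)) ^ 2 *
          (rs α' ^ 2 - rs (twc (n + 1) c pr2) * rs α' + 2 ^ (n' + 1)) =
          (2 ^ (n + 1) * rs α') ^ 2 - (2 ^ (n + 1) * rs (twc (n + 1) c pr2)) *
            (2 ^ (n + 1) * rs α') + 2 ^ (n + 1) * (2 ^ (n + 1) * 2 ^ (n' + 1)) := by ring
      rw [h5, hfer, eα, ec, mul_one]
      exact h1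
    · intro h0
      apply h2
      rw [← eα, h0, mul_zero]
    · intro h0
      apply h3
      rw [← eα, mul_pow, h0]
      have h6 : ((2 : kap p) ^ (n + 1)) ^ 2 * 2 ^ n' =
          2 ^ n * (2 ^ (n + 1) * 2 ^ (n' + 1)) := by ring
      rw [h6, hfer, mul_one]
    · rw [h4]
      have h7 : twc (n + 1) c pr2 - 2 * α' = (c pr2 - 2 * α) / 2 ^ (n + 1) := by
        rw [twc, coe_pr2', hα']
        ring
      rw [h7, norm_div_two hp3]
  -- integrality of the lines
  have hXe : ∀ (n L : ℕ), ∀ χ ∈ eisL n L, ∀ q, ‖emb p j (χ (X q))‖ ≤ 1 := by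
    intro n L χ hχ q
    rw [eisL, Multiset.mem_bind] at hχ
    obtain ⟨d, -, hχ⟩ := hχ
    rw [Multiset.mem_map] at hχ
    obtain ⟨ψ, -, rfl⟩ := hχ
    rw [sysOf_X]
    exact norm_emb_le j (isIntegral_eisV n L d ψ q)
  have hXt : ∀ L : ℕ, ∀ χ ∈ ({sysOf (trivV L)} : Multiset _), ∀ q,
      ‖emb p j (χ (X q))‖ ≤ 1 := by
    intro L χ hχ q
    rw [Multiset.mem_singleton] at hχ
    subst hχ
    rw [sysOf_X]
    have h2 := isIntegral_natpow (q : ℕ) 1
    rw [pow_one] at h2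
    apply norm_emb_le j
    unfold trivV
    split_ifs
    · exact h2
    · exact isIntegral_one.add h2
  -- step (a)
  have := finiteDimensional_Sym ℂ (lv M * p) n hn
  have := finiteDimensional_Sym ℂ (lv M * p) n' hn'
  have ha : ((p : ℝ) - 1) * m' * denF N M (AN p N) c s α m (fun A c => bet (lv M) A c n) =
      1 / 2 * denF N M (AN p N) c s α m (fun A c => MC j (Sys (rhoS ℂ (lv M * p) n h4L)) A c) +
      1 / 2 * denF N M (AN p N) c s α m
        (fun A c => MC j (Sys (rhoS ℂ (lv M * p) n' h4L)) A (twc (n + 1) c)) := by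
    rw [← denF_mul, ← denF_lin]
    refine denF_congr hp3 hpA hc hs hα1 fun A' c' hA' hc' => ?_
    have h2 := gre (p := p) (by omega) (lv_four M) hplv j h4L
      (fun q hq h => hA' (by
        have h3 : q = pr p := Subtype.ext h
        rwa [h3] at hq)) hc' hn hn' hm
    rw [h2, MC_card, MC_card, mul_add]
    rfl
  -- step (b)
  have hb : denF N M (AN p N) c s α m (fun A c => MC j (Sys (rhoS ℂ (lv M * p) n h4L)) A c) =
      2 * MC j (Sys (rhoC (M * p) (n + 2))) (AN p N) c +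
      ((eisL n (lv M * p)).map fun χ => wt N M (AN p N) (fun q => rs (c q)) (rs s) (rs α) m
        (rsf j χ)).sum -
      (if n = 0 then 2 * dlt N (AN p N) (fun q => rs (c q)) (rs α) m else 0) := by
    have h1 : (fun (A : Set Nat.Primes) (c : Nat.Primes → PadicAlgCl p) =>
        MC j (Sys (rhoS ℂ (lv M * p) n h4L)) A c) = fun A c =>
        2 * MC j (Sys (rhoC (lv M * p) (n + 2))) A c + 1 * (1 * MC j (eisL n (lv M * p)) A c +
          (if n = 0 then -2 else 0) * MC j {sysOf (trivV (lv M * p))} A c) := by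
      funext A c
      rw [MC_exact j (hEX n) hn h4L A c]
      split_ifs <;> ring
    rw [h1, denF_lin, denF_lin, denF_tot j hI hp hMN hpo hs hs2 hcond,
      denF_MC hp3 hMN hc hs hα1 m _ (hXe _ _), denF_MC hp3 hMN hc hs hα1 m _ (hXt _),
      Multiset.map_singleton, Multiset.sum_singleton]
    split_ifs with h0
    · subst h0
      rw [wt_triv j hp hMN (by rw [hs2, pow_zero])]
      ring
    · ring
  have hb' : denF N M (AN p N) c s α m
        (fun A c => MC j (Sys (rhoS ℂ (lv M * p) n' h4L)) A (twc (n + 1) c)) =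
      2 * MC j (Sys (rhoC (M * p) (n' + 2))) (AN p N) (twc (n + 1) c) +
      ((eisL n' (lv M * p)).map fun χ => wt N M (AN p N) (fun q => rs (c q)) (rs s) (rs α) m
        (fun q => ((q : ℕ) : kap p) ^ (n + 1) * rsf j χ q)).sum := by
    have h1 : (fun (A : Set Nat.Primes) (c : Nat.Primes → PadicAlgCl p) =>
        MC j (Sys (rhoS ℂ (lv M * p) n' h4L)) A c) = fun A c =>
        2 * MC j (Sys (rhoC (lv M * p) (n' + 2))) A c + 1 * MC j (eisL n' (lv M * p)) A c := by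
      funext A c
      rw [MC_exact j (hEX n') hn' h4L A c, if_neg hn'0]
      ring
    have h2 := denF_twist (N := N) (M := M) (A := AN p N) (c := c) (s := s) (α := α) (m := m)
      (n + 1) (fun A c => MC j (Sys (rhoS ℂ (lv M * p) n' h4L)) A c)
    rw [h2, h1, denF_lin, denF_tot j hI hp hMN hpo hs1' hs2' hcond',
      denF_MC hp3 hMN hc' hs1' hα1' m _ (hXe _ _), one_mul]
    congr 2
    refine Multiset.map_congr rfl fun χ _ => ?_
    exact wt_twist hp3 hpA hc hs hα1 m (n + 1) _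
  have ht := E_total j (N := N) (M := M) (γ := fun q => rs (c q)) (σ := rs s) (a := rs α)
    (m := m) hp hm hMN (NeZero.ne M) hs2 fun hN => (hα hN).2.1
  rw [ha, hb, hb']
  split_ifs <;> linarith

end Level

end Gouvea.POS
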