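import Mathlib

/-!
# The new combination of the Eisenstein lines (MP_d3517d_nt, POS)

`∑_{M ∣ N} (μ * μ)(N/M) ∑_{d ∣ M} #{ψ mod gcd(d, M/d), Q ψ} = #{ψ primitive mod f, f² = N, Q ψ}`
-/

set_option autoImplicit false

open Finset ArithmeticFunction DirichletCharacter
open scoped ArithmeticFunction.zeta

noncomputable section

namespace Gouvea.POS

variable {K : Type*} [Field K]

open Classical in
/-- the number of characters modulo `m` with the property `Q` -/
def nch (Q : ∀ f : ℕ, DirichletCharacter K f → Prop) (m : ℕ) : ℕ :=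
  (univ.filter fun ψ : DirichletCharacter K m => Q m ψ).card

open Classical in
/-- the number of primitive characters modulo `m` with the property `Q` -/
def npr (Q : ∀ f : ℕ, DirichletCharacter K f → Prop) (m : ℕ) : ℕ :=
  (univ.filter fun ψ : DirichletCharacter K m => ψ.IsPrimitive ∧ Q m ψ).card

/-- all characters from the primitive ones -/
theorem nch_eq {Q : ∀ f : ℕ, DirichletCharacter K f → Prop}
    (hQ : ∀ (f g : ℕ) (h : f ∣ g) (χ : DirichletCharacter K f), g ≠ 0 →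
      (Q g (changeLevel h χ) ↔ Q f χ)) {m : ℕ} (hm : m ≠ 0) :
    nch Q m = ∑ f ∈ m.divisors, npr Q f := by
  classical
  have : NeZero m := ⟨hm⟩
  unfold nch
  rw [card_eq_sum_card_fiberwise (f := fun ψ : DirichletCharacter K m => ψ.conductor)
    (t := m.divisors) (fun ψ _ => by
      simp only [mem_coe, Nat.mem_divisors]
      exact ⟨ψ.conductor_dvd_level, hm⟩)]
  refine sum_congr rfl fun f hf => ?_
  have hfm : f ∣ m := Nat.dvd_of_mem_divisors hf
  have hf0 : f ≠ 0 := by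
    rintro rfl
    exact hm (zero_dvd_iff.1 hfm)
  unfold npr
  symm
  refine card_bij (fun χ _ => changeLevel hfm χ) ?_ ?_ ?_
  · intro χ hχ
    obtain ⟨-, h1, h2⟩ := mem_filter.1 hχ
    simp only [mem_filter, mem_univ, true_and]
    exact ⟨(hQ f m hfm χ hm).2 h2, by rw [conductor_changeLevel]; exact h1⟩
  · intro χ _ χ' _ h
    exact changeLevel_injective hfm h
  · intro ψ hψ
    simp only [mem_filter, mem_univ, true_and] at hψ
    obtain ⟨h1, h2⟩ := hψ
    have h3 : ψ.FactorsThrough f := by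
      rw [← h2]
      exact ψ.factorsThrough_conductor
    refine ⟨h3.χ₀, ?_, h3.eq_changeLevel.symm⟩
    simp only [mem_filter, mem_univ, true_and]
    refine ⟨?_, ?_⟩
    · rw [isPrimitive_def, ← conductor_changeLevel _ hfm, ← h3.eq_changeLevel, h2]
    · rw [← hQ f m hfm _ hm, ← h3.eq_changeLevel]
      exact h1

/-- the function supported on the squares -/
def sqf (P : ℕ → ℕ) : ArithmeticFunction ℤ :=
  ⟨fun m => if m ≠ 0 ∧ IsSquare m then (P (Nat.sqrt m) : ℤ) else 0, by simp⟩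

/-- the sum over `d ∣ M` and `f ∣ gcd(d, M/d)` -/
def gsum (P : ℕ → ℕ) : ArithmeticFunction ℤ :=
  ⟨fun M => ∑ d ∈ M.divisors, ∑ f ∈ (d.gcd (M / d)).divisors, (P f : ℤ), by simp⟩

theorem gsum_eq (P : ℕ → ℕ) :
    gsum P = sqf P * ((ζ : ArithmeticFunction ℤ) * (ζ : ArithmeticFunction ℤ)) := by
  ext M
  rcases Nat.eq_zero_or_pos M with rfl | hM
  · simp
  rw [mul_apply]
  have h1 : ∀ x ∈ M.divisorsAntidiagonal, sqf P x.1 *
      ((ζ : ArithmeticFunction ℤ) * (ζ : ArithmeticFunction ℤ)) x.2 =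
      ∑ _d ∈ x.2.divisors, sqf P x.1 := by
    intro x hx
    have hx2 : x.2 ≠ 0 := (Nat.ne_zero_of_mem_divisorsAntidiagonal hx).2
    rw [coe_zeta_mul_apply, sum_congr rfl (g := fun _ => (1 : ℤ)), sum_const, sum_const]
    · simp [mul_comm]
    · intro i hi
      rw [natCoe_apply, zeta_apply, if_neg]
      · simp
      · rintro rfl
        exact hx2 (zero_dvd_iff.1 (Nat.dvd_of_mem_divisors hi))
  rw [sum_congr rfl h1]
  change ∑ d ∈ M.divisors, ∑ f ∈ (d.gcd (M / d)).divisors, (P f : ℤ) = _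
  rw [sum_sigma', sum_sigma']
  symm
  -- only the squares contribute
  have h2 : ∑ x ∈ M.divisorsAntidiagonal.sigma (fun x : ℕ × ℕ => x.2.divisors),
      sqf P x.1.1 = ∑ x ∈ (M.divisorsAntidiagonal.sigma (fun x : ℕ × ℕ => x.2.divisors)).filter
        (fun x => IsSquare x.1.1), sqf P x.1.1 := by
    rw [sum_filter]
    refine sum_congr rfl fun x _ => ?_
    by_cases h : IsSquare x.1.1
    · rw [if_pos h]
    · rw [if_neg h]
      change (if _ ∧ _ then _ else _) = _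
      rw [if_neg (fun h' => h h'.2)]
  rw [h2]
  refine sum_bij' (fun x _ => ⟨Nat.sqrt x.1.1 * x.2, Nat.sqrt x.1.1⟩)
    (fun y _ => ⟨(y.2 * y.2, M / (y.2 * y.2)), y.1 / y.2⟩) ?_ ?_ ?_ ?_ ?_
  · rintro ⟨⟨a, b⟩, e⟩ hx
    simp only [mem_filter, mem_sigma, Nat.mem_divisorsAntidiagonal, Nat.mem_divisors] at hx
    obtain ⟨⟨⟨hab, -⟩, he, hb⟩, ⟨f, rfl⟩⟩ := hx
    obtain ⟨e', rfl⟩ := he
    have hf : 0 < f := Nat.pos_of_ne_zero (by rintro rfl; simp at hab; omega)
    have he0 : 0 < e := Nat.pos_of_ne_zero (by rintro rfl; simp at hb)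
    simp only [Nat.sqrt_eq, mem_sigma, Nat.mem_divisors]
    have hM' : M / (f * e) = f * e' := by
      rw [← hab, show f * f * (e * e') = f * e * (f * e') by ring]
      exact Nat.mul_div_cancel_left _ (Nat.mul_pos hf he0)
    refine ⟨⟨⟨f * e', by rw [← hab]; ring⟩, hM.ne'⟩, ?_, ?_⟩
    · rw [hM']
      exact Nat.dvd_gcd (dvd_mul_right _ _) (dvd_mul_right _ _)
    · exact (Nat.gcd_pos_of_pos_left _ (Nat.mul_pos hf he0)).ne'
  · rintro ⟨d, f⟩ hy
    simp only [mem_sigma, Nat.mem_divisors] at hy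
    obtain ⟨⟨⟨e, rfl⟩, -⟩, hf, -⟩ := hy
    have hd0 : 0 < d := Nat.pos_of_ne_zero (by rintro rfl; simp at hM)
    rw [Nat.mul_div_cancel_left _ hd0] at hf
    obtain ⟨d', rfl⟩ := hf.trans (Nat.gcd_dvd_left _ _)
    obtain ⟨e', rfl⟩ := hf.trans (Nat.gcd_dvd_right _ _)
    have hf0 : 0 < f := Nat.pos_of_ne_zero (by rintro rfl; simp at hd0)
    have hM' : f * d' * (f * e') / (f * f) = d' * e' := by
      rw [show f * d' * (f * e') = f * f * (d' * e') by ring]
      exact Nat.mul_div_cancel_left _ (Nat.mul_pos hf0 hf0)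
    have hd' : f * d' / f = d' := Nat.mul_div_cancel_left _ hf0
    simp only [mem_filter, mem_sigma, Nat.mem_divisorsAntidiagonal, Nat.mem_divisors, hM', hd']
    refine ⟨⟨⟨by ring, hM.ne'⟩, dvd_mul_right _ _, ?_⟩, ⟨f, rfl⟩⟩
    intro h0
    apply hM.ne'
    rw [show f * d' * (f * e') = f * f * (d' * e') by ring, h0, mul_zero]
  · rintro ⟨⟨a, b⟩, e⟩ hx
    simp only [mem_filter, mem_sigma, Nat.mem_divisorsAntidiagonal, Nat.mem_divisors] at hx
    obtain ⟨⟨⟨hab, -⟩, he, hb⟩, ⟨f, rfl⟩⟩ := hx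
    have hf : 0 < f := Nat.pos_of_ne_zero (by rintro rfl; simp at hab; omega)
    simp only [Nat.sqrt_eq]
    rw [← hab, Nat.mul_div_cancel_left _ (Nat.mul_pos hf hf), Nat.mul_div_cancel_left _ hf]
  · rintro ⟨d, f⟩ hy
    simp only [mem_sigma, Nat.mem_divisors] at hy
    obtain ⟨-, hf, -⟩ := hy
    simp only [Nat.sqrt_eq]
    rw [Nat.mul_div_cancel' (hf.trans (Nat.gcd_dvd_left _ _))]
  · rintro ⟨⟨a, b⟩, e⟩ hx
    simp only [mem_filter, mem_sigma, Nat.mem_divisorsAntidiagonal, Nat.mem_divisors] at hx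
    obtain ⟨⟨⟨hab, -⟩, he, hb⟩, hsq⟩ := hx
    have ha : a ≠ 0 := by
      rintro rfl
      simp at hab
      omega
    change (if _ ∧ _ then _ else _) = _
    rw [if_pos ⟨ha, hsq⟩]

/-- **The new combination of the Eisenstein lines.** -/
theorem sum_moebius_gsum (P : ℕ → ℕ) (N : ℕ) :
    ∑ x ∈ N.divisorsAntidiagonal, (moebius * moebius) x.1 *
      (∑ d ∈ x.2.divisors, ∑ f ∈ (d.gcd (x.2 / d)).divisors, (P f : ℤ)) =
      if N ≠ 0 ∧ IsSquare N then (P (Nat.sqrt N) : ℤ) else 0 := by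
  have h1 : moebius * moebius * gsum P = sqf P := by
    rw [gsum_eq, mul_comm (sqf P), ← mul_assoc, show (moebius : ArithmeticFunction ℤ) * moebius *
      ((ζ : ArithmeticFunction ℤ) * ζ) = (moebius * ζ) * (moebius * ζ) by ring,
      moebius_mul_coe_zeta, one_mul, one_mul]
  have h2 := DFunLike.congr_fun h1 N
  rw [mul_apply] at h2
  exact h2

/-- **The new combination of the Eisenstein lines, with characters.** -/
theorem sum_moebius_nch {Q : ∀ f : ℕ, DirichletCharacter K f → Prop}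
    (hQ : ∀ (f g : ℕ) (h : f ∣ g) (χ : DirichletCharacter K f), g ≠ 0 →
      (Q g (changeLevel h χ) ↔ Q f χ)) {N : ℕ} (hN : N ≠ 0) :
    ∑ x ∈ N.divisorsAntidiagonal, (moebius * moebius) x.1 *
      (∑ d ∈ x.2.divisors, (nch Q (d.gcd (x.2 / d)) : ℤ)) =
      if IsSquare N then (npr Q (Nat.sqrt N) : ℤ) else 0 := by
  have h1 := sum_moebius_gsum (npr Q) N
  rw [show (if N ≠ 0 ∧ IsSquare N then (npr Q (Nat.sqrt N) : ℤ) else 0) =
    if IsSquare N then (npr Q (Nat.sqrt N) : ℤ) else 0 by simp [hN]] at h1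
  rw [← h1]
  refine sum_congr rfl fun x hx => ?_
  have hx2 : x.2 ≠ 0 := (Nat.ne_zero_of_mem_divisorsAntidiagonal hx).2
  congr 1
  refine sum_congr rfl fun d hd => ?_
  have hd0 : 0 < d := Nat.pos_of_mem_divisors hd
  have hg : d.gcd (x.2 / d) ≠ 0 := (Nat.gcd_pos_of_pos_left _ hd0).ne'
  rw [nch_eq hQ hg]
  push_cast
  rfl

theorem sum_moebius_nch_nonneg {Q : ∀ f : ℕ, DirichletCharacter K f → Prop}
    (hQ : ∀ (f g : ℕ) (h : f ∣ g) (χ : DirichletCharacter K f), g ≠ 0 →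
      (Q g (changeLevel h χ) ↔ Q f χ)) {N : ℕ} (hN : N ≠ 0) :
    0 ≤ ∑ x ∈ N.divisorsAntidiagonal, (moebius * moebius) x.1 *
      (∑ d ∈ x.2.divisors, (nch Q (d.gcd (x.2 / d)) : ℤ)) := by
  rw [sum_moebius_nch hQ hN]
  split_ifs <;> positivity

end Gouvea.POS
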