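import Mathlib

/-!
# The cusps of `Γ₀(L)` (MP_d3517d_nt, POS)

The classes of primitive vectors `(u, v)` under `Γ₀(L)`: the invariants are `d = gcd(v, L)` and
`u · (v/d)` modulo `gcd(d, L/d)`.
-/

set_option autoImplicit false

namespace Gouvea.POS

/-- `gcd(d, L/d)` -/
def cg (L d : ℕ) : ℕ := Nat.gcd d (L / d)

lemma cg_dvd_left (L d : ℕ) : cg L d ∣ d := Nat.gcd_dvd_left _ _

lemma cg_dvd_right (L d : ℕ) : cg L d ∣ L / d := Nat.gcd_dvd_right _ _

lemma cg_pos {L d : ℕ} (hd : 0 < d) : 0 < cg L d := Nat.gcd_pos_of_pos_left _ hd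

/-- the second invariant of the vector `(u, v)`, `d = gcd(v, L)` -/
def cs (L d : ℕ) (u v : ℤ) : ZMod (cg L d) := ((u * (v / d) : ℤ) : ZMod (cg L d))

/-- `gcd(v, L)` as a number -/
def cd (L : ℕ) (v : ℤ) : ℕ := Int.gcd v L

lemma cd_dvd_left (L : ℕ) (v : ℤ) : (cd L v : ℤ) ∣ v := Int.gcd_dvd_left _ _

lemma cd_dvd_right (L : ℕ) (v : ℤ) : cd L v ∣ L := by
  have h : (cd L v : ℤ) ∣ (L : ℤ) := Int.gcd_dvd_right _ _
  exact_mod_cast h

lemma cd_pos {L : ℕ} (hL : 0 < L) (v : ℤ) : 0 < cd L v :=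
  Nat.pos_of_ne_zero fun h => by
    have h1 := cd_dvd_right L v
    rw [h, zero_dvd_iff] at h1
    omega

/-- `v/d` and `L/d` are coprime -/
lemma isCoprime_div {L : ℕ} (hL : 0 < L) (v : ℤ) :
    IsCoprime (v / cd L v) ((L / cd L v : ℕ) : ℤ) := by
  have h1 : IsCoprime (v / Int.gcd v L) ((L : ℤ) / Int.gcd v L) := by
    rw [Int.isCoprime_iff_gcd_eq_one]
    exact Int.gcd_div_gcd_div_gcd (cd_pos hL v)
  have h2 : ((L / cd L v : ℕ) : ℤ) = (L : ℤ) / Int.gcd v L := by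
    rw [Int.natCast_div]
    rfl
  rw [h2]
  exact h1

/-- **Invariance** of `gcd(v, L)`. -/
theorem cd_smul {L : ℕ} {u v a b c e : ℤ} (h : a * e - b * c = 1) (hc : (L : ℤ) ∣ c) :
    cd L (c * u + e * v) = cd L v := by
  have he : IsCoprime e (L : ℤ) := by
    obtain ⟨t, rfl⟩ := hc
    exact ⟨a, -b * t, by linear_combination h⟩
  unfold cd
  have h1 : Int.gcd (c * u + e * v) L = Int.gcd (e * v) L := by
    obtain ⟨t, rfl⟩ := hc
    rw [show (L : ℤ) * t * u + e * v = e * v + L * (t * u) by ring]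
    exact Int.gcd_add_mul_left_left _ _ _
  rw [h1]
  rw [mul_comm e v]
  exact Int.gcd_mul_left_left_of_gcd_eq_one (Int.isCoprime_iff_gcd_eq_one.1 he)

/-- **Invariance** of the second invariant. -/
theorem cs_smul {L : ℕ} (hL : 0 < L) {u v a b c e : ℤ} (h : a * e - b * c = 1)
    (hc : (L : ℤ) ∣ c) : cs L (cd L v) (a * u + b * v) (c * u + e * v) = cs L (cd L v) u v := by
  set d := cd L v with hd
  have hd0 : (d : ℤ) ≠ 0 := by
    have := cd_pos hL v
    exact_mod_cast this.ne'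
  obtain ⟨v1, hv1⟩ : (d : ℤ) ∣ v := cd_dvd_left L v
  obtain ⟨L1, hL1⟩ : d ∣ L := cd_dvd_right L v
  have hLd : L / d = L1 := by
    rw [hL1]
    exact Nat.mul_div_cancel_left _ (cd_pos hL v)
  obtain ⟨t, ht⟩ := hc
  have e1 : (c * u + e * v) / d = (L1 : ℤ) * t * u + e * v1 := by
    rw [ht, hL1, hv1]
    push_cast
    rw [show (d : ℤ) * L1 * t * u + e * (d * v1) = d * (L1 * t * u + e * v1) by ring]
    exact Int.mul_ediv_cancel_left _ hd0
  have e2 : v / d = v1 := by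
    rw [hv1]
    exact Int.mul_ediv_cancel_left _ hd0
  unfold cs
  rw [e1, e2, ZMod.intCast_eq_intCast_iff_dvd_sub]
  have g1 : (cg L d : ℤ) ∣ d := by exact_mod_cast cg_dvd_left L d
  have g2 : (cg L d : ℤ) ∣ L1 := by
    have := cg_dvd_right L d
    rw [hLd] at this
    exact_mod_cast this
  have e3 : u * v1 - (a * u + b * v) * (L1 * t * u + e * v1) =
      (L1 : ℤ) * (-(a * u + b * v) * t * u - b * d * t * u * v1) + d * (- b * e * v1 * v1) := by
    have hc' : c = d * L1 * t := by rw [ht, hL1]; push_cast; ring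
    rw [hc'] at h
    rw [hv1]
    linear_combination (-u * v1) * h
  rw [e3]
  exact dvd_add (g2.mul_right _) (g1.mul_right _)

/-- **Separation**: two primitive vectors with the same invariants are equivalent. -/
theorem exists_smul {L : ℕ} (hL : 0 < L) {u v u' v' : ℤ} (h : IsCoprime u v)
    (h' : IsCoprime u' v') (hd : cd L v = cd L v') (hs : cs L (cd L v) u v = cs L (cd L v) u' v') :
    ∃ a b c e : ℤ, a * e - b * c = 1 ∧ (L : ℤ) ∣ c ∧ a * u + b * v = u' ∧ c * u + e * v = v' := by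
  obtain ⟨s, r, hsr⟩ : ∃ s r : ℤ, u * s - r * v = 1 := by
    obtain ⟨x, y, hxy⟩ := h
    exact ⟨x, -y, by linear_combination hxy⟩
  obtain ⟨s', r', hsr'⟩ : ∃ s r : ℤ, u' * s - r * v' = 1 := by
    obtain ⟨x, y, hxy⟩ := h'
    exact ⟨x, -y, by linear_combination hxy⟩
  have hcop := isCoprime_div hL v
  have hcop' := isCoprime_div hL v'
  rw [← hd] at hcop'
  have hd' : (cd L v : ℤ) ∣ v' := by rw [hd]; exact cd_dvd_left L v'
  set d := cd L v with hdd
  have hd0 : (d : ℤ) ≠ 0 := by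
    have := cd_pos hL v
    exact_mod_cast this.ne'
  obtain ⟨v1, hv1⟩ : (d : ℤ) ∣ v := cd_dvd_left L v
  obtain ⟨v1', hv1'⟩ := hd'
  obtain ⟨L1, hL1⟩ : d ∣ L := cd_dvd_right L v
  have hLd : L / d = L1 := by
    rw [hL1]
    exact Nat.mul_div_cancel_left _ (cd_pos hL v)
  have e1 : v / d = v1 := by rw [hv1]; exact Int.mul_ediv_cancel_left _ hd0
  have e1' : v' / d = v1' := by rw [hv1']; exact Int.mul_ediv_cancel_left _ hd0
  rw [e1, hLd] at hcop
  rw [e1', hLd] at hcop'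
  unfold cs at hs
  rw [e1, e1', ZMod.intCast_eq_intCast_iff_dvd_sub] at hs
  have g1 : (cg L d : ℤ) ∣ d := by exact_mod_cast cg_dvd_left L d
  -- the divisibility condition
  have hg : (cg L d : ℤ) ∣ v1' * s - s' * v1 := by
    obtain ⟨x, hx⟩ := hs
    obtain ⟨y, hy⟩ := g1
    have hvv : v = cg L d * (y * v1) := by rw [hv1, hy]; ring
    have hvv' : v' = cg L d * (y * v1') := by rw [hv1', hy]; ring
    rw [hvv] at hsr
    rw [hvv'] at hsr'
    refine ⟨-(v1' * s) * r' * (y * v1') + s' * s * x + s' * v1 * r * (y * v1), ?_⟩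
    linear_combination (-(v1' * s)) * hsr' + (s * s') * hx + (s' * v1) * hsr
  -- Bezout
  have hb : ∃ x y : ℤ, (cg L d : ℤ) = x * (d * (v1 * v1')) + y * L1 := by
    have h1 : IsCoprime (v1 * v1') (L1 : ℤ) := hcop.mul_left hcop'
    have h2 : (cg L d : ℤ) = Int.gcd (d * (v1 * v1')) L1 := by
      have : Int.gcd ((d : ℤ) * (v1 * v1')) L1 = Int.gcd (d : ℤ) L1 :=
        Int.gcd_mul_left_left_of_gcd_eq_one (Int.isCoprime_iff_gcd_eq_one.1 h1)
      rw [this, cg, hLd, Int.gcd_natCast_natCast]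
    refine ⟨Int.gcdA (d * (v1 * v1')) L1, Int.gcdB (d * (v1 * v1')) L1, ?_⟩
    rw [h2, Int.gcd_eq_gcd_ab]
    ring
  obtain ⟨w, hw⟩ := hg
  obtain ⟨x, y, hxy⟩ := hb
  -- the translation
  set m : ℤ := x * w with hm
  refine ⟨u' * s - (u' * m + r') * v, -(u' * r) + (u' * m + r') * u,
    v' * s - (v' * m + s') * v, -(v' * r) + (v' * m + s') * u, ?_, ?_, ?_, ?_⟩
  · linear_combination (u' * s' - r' * v') * hsr + hsr'
  · refine ⟨y * w, ?_⟩
    rw [hL1, hv1, hv1', hm]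
    push_cast
    linear_combination (d : ℤ) * hw + (d : ℤ) * w * hxy
  · linear_combination u' * hsr
  · linear_combination v' * hsr

/-- **Existence** of a vector with given invariants. -/
theorem exists_rep {L d : ℕ} (hL : 0 < L) (hd : d ∣ L) (s : (ZMod (cg L d))ˣ) :
    ∃ u : ℤ, IsCoprime u (d : ℤ) ∧ cd L (d : ℤ) = d ∧ cs L d u d = s := by
  have hd0 : 0 < d := Nat.pos_of_dvd_of_pos hd hL
  have : NeZero d := ⟨hd0.ne'⟩
  obtain ⟨t, ht⟩ := ZMod.unitsMap_surjective (cg_dvd_left L d) s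
  refine ⟨((t : ZMod d).val : ℤ), ?_, ?_, ?_⟩
  · exact Nat.isCoprime_iff_coprime.2 (ZMod.val_coe_unit_coprime t)
  · unfold cd
    rw [Int.gcd_natCast_natCast]
    exact Nat.gcd_eq_left hd
  · unfold cs
    rw [Int.ediv_self (by exact_mod_cast hd0.ne'), mul_one, ← ht, ZMod.unitsMap_val,
      Int.cast_natCast, ZMod.cast_eq_val]

/-- the second invariant is a unit -/
theorem isUnit_cs {L : ℕ} (hL : 0 < L) {u v : ℤ} (h : IsCoprime u v) :
    IsUnit (cs L (cd L v) u v) := by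
  unfold cs
  rw [ZMod.coe_int_isUnit_iff_isCoprime]
  have g1 : (cg L (cd L v) : ℤ) ∣ cd L v := by exact_mod_cast cg_dvd_left L _
  have g2 : (cg L (cd L v) : ℤ) ∣ ((L / cd L v : ℕ) : ℤ) := by exact_mod_cast cg_dvd_right L _
  refine IsCoprime.mul_right ?_ ?_
  · exact (h.symm.of_isCoprime_of_dvd_left (g1.trans (cd_dvd_left L v)))
  · exact ((isCoprime_div hL v).symm.of_isCoprime_of_dvd_left g2)

end Gouvea.POS
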