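import Pool.Agent.Work.MP_d3517d_nt.POS.CuspCls

/-!
# Hecke operators on functions on the cusps of `Γ₀(L)` (MP_d3517d_nt, POS)

For a divisor `d` of `L` and a character `ψ` modulo `gcd(d, L/d)` the function
`E(u, v) = ψ(u · (v/d))` for `gcd(v, L) = d`, and `0` otherwise, is an eigenfunction of all `T_q` and
`U_q` modulo functions supported on smaller `gcd(v, L)`.
-/

set_option autoImplicit false

open Finset

noncomputable section

namespace Gouvea.POS

variable {K : Type*} [Field K]

/-- `gcd(q v, L)` -/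
theorem cd_mul {L : ℕ} (hL : 0 < L) {q : ℕ} (hq : q.Prime) (v : ℤ) :
    cd L (q * v) = if q ∣ L / cd L v then q * cd L v else cd L v := by
  have hcop := isCoprime_div hL v
  set d := cd L v with hd
  have hd0 : (d : ℤ) ≠ 0 := by
    have := cd_pos hL v
    exact_mod_cast this.ne'
  obtain ⟨v1, hv1⟩ : (d : ℤ) ∣ v := cd_dvd_left L v
  obtain ⟨L1, hL1⟩ : d ∣ L := cd_dvd_right L v
  have hLd : L / d = L1 := by
    rw [hL1]
    exact Nat.mul_div_cancel_left _ (cd_pos hL v)
  have e2 : v / d = v1 := by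
    rw [hv1]
    exact Int.mul_ediv_cancel_left _ hd0
  rw [e2, hLd] at hcop
  rw [hLd]
  have h1 : cd L (q * v) = d * Int.gcd (q * v1) L1 := by
    unfold cd
    rw [hL1, hv1]
    push_cast
    rw [show (q : ℤ) * (d * v1) = d * (q * v1) by ring, Int.gcd_mul_left, Int.natAbs_natCast]
  have h2 : Int.gcd (q * v1) L1 = Nat.gcd q L1 := by
    rw [Int.gcd_mul_left_left_of_gcd_eq_one (Int.isCoprime_iff_gcd_eq_one.1 hcop),
      Int.gcd_natCast_natCast]
  rw [h1, h2]
  by_cases hqL : q ∣ L1
  · rw [if_pos hqL, Nat.gcd_eq_left hqL, mul_comm]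
  · rw [if_neg hqL, (Nat.Prime.coprime_iff_not_dvd hq).2 hqL, mul_one]

lemma cd_le_cd_mul {L : ℕ} (hL : 0 < L) {q : ℕ} (hq : q.Prime) (v : ℤ) :
    cd L v ≤ cd L (q * v) := by
  rw [cd_mul hL hq]
  split_ifs
  · exact Nat.le_mul_of_pos_left _ hq.pos
  · exact le_rfl

section Eig

variable {L d : ℕ} {ψ : DirichletCharacter K (cg L d)} {E : ℤ → ℤ → K} {q : ℕ} {al be : K}

lemma cs_add_mul (hL : 0 < L) {v : ℤ} (hv : cd L v = d) (u : ℤ) (b : ℤ) :
    cs L d (u + b * v) (q * v) = q * cs L d u v := by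
  have hd0 : (d : ℤ) ≠ 0 := by
    have := cd_pos hL v
    rw [hv] at this
    exact_mod_cast this.ne'
  obtain ⟨v1, hv1⟩ : (d : ℤ) ∣ v := hv ▸ cd_dvd_left L v
  obtain ⟨g1, hg1⟩ : (cg L d : ℤ) ∣ d := by exact_mod_cast cg_dvd_left L d
  unfold cs
  have e1 : (q : ℤ) * v / d = q * v1 := by
    rw [hv1, show (q : ℤ) * (d * v1) = d * (q * v1) by ring]
    exact Int.mul_ediv_cancel_left _ hd0
  have e2 : v / d = v1 := by rw [hv1]; exact Int.mul_ediv_cancel_left _ hd0
  rw [e1, e2, show ((q : ZMod (cg L d))) = ((q : ℤ) : ZMod (cg L d)) by simp, ← Int.cast_mul,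
    ZMod.intCast_eq_intCast_iff_dvd_sub]
  refine ⟨-(b * g1 * v1 * q * v1), ?_⟩
  rw [hv1]
  linear_combination (-(b * v1 * q * v1)) * hg1

lemma cs_div (hL : 0 < L) {v w : ℤ} (hv : cd L v = d) (u : ℤ) (b : ℤ) (hw : u + b * v = q * w) :
    q * cs L d w v = cs L d u v := by
  have hd0 : (d : ℤ) ≠ 0 := by
    have := cd_pos hL v
    rw [hv] at this
    exact_mod_cast this.ne'
  obtain ⟨v1, hv1⟩ : (d : ℤ) ∣ v := hv ▸ cd_dvd_left L v
  obtain ⟨g1, hg1⟩ : (cg L d : ℤ) ∣ d := by exact_mod_cast cg_dvd_left L d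
  unfold cs
  have e2 : v / d = v1 := by rw [hv1]; exact Int.mul_ediv_cancel_left _ hd0
  rw [e2, show ((q : ZMod (cg L d))) = ((q : ℤ) : ZMod (cg L d)) by simp, ← Int.cast_mul,
    ZMod.intCast_eq_intCast_iff_dvd_sub]
  refine ⟨-(b * g1 * v1 * v1), ?_⟩
  have : u = q * w - b * v := by linear_combination hw
  rw [this, hv1]
  linear_combination (-(b * v1 * v1)) * hg1

lemma cs_mul_left (u v : ℤ) : cs L d (q * u) v = q * cs L d u v := by
  unfold cs
  push_cast
  ring

lemma cs_mul_right (hL : 0 < L) {v : ℤ} (hv : cd L v = d) (u : ℤ) :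
    cs L d u (q * v) = q * cs L d u v := by
  have hd0 : (d : ℤ) ≠ 0 := by
    have := cd_pos hL v
    rw [hv] at this
    exact_mod_cast this.ne'
  obtain ⟨v1, hv1⟩ : (d : ℤ) ∣ v := hv ▸ cd_dvd_left L v
  unfold cs
  have e1 : (q : ℤ) * v / d = q * v1 := by
    rw [hv1, show (q : ℤ) * (d * v1) = d * (q * v1) by ring]
    exact Int.mul_ediv_cancel_left _ hd0
  have e2 : v / d = v1 := by rw [hv1]; exact Int.mul_ediv_cancel_left _ hd0
  rw [e1, e2]
  push_cast
  ring

/-- the value of `ψ` at a prime which does not divide `d` -/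
lemma psi_inv_mul (hq : q.Prime) (hqd : ¬ q ∣ d) :
    ψ⁻¹ (q : ZMod (cg L d)) * ψ (q : ZMod (cg L d)) = 1 := by
  have hu : IsUnit (q : ZMod (cg L d)) := by
    have h1 : Nat.Coprime q (cg L d) := by
      refine (Nat.Prime.coprime_iff_not_dvd hq).2 fun h => hqd (h.trans (cg_dvd_left L d))
    exact (ZMod.isUnit_iff_coprime _ _).2 h1
  rw [← MulChar.mul_apply, inv_mul_cancel, MulChar.one_apply hu]

variable (hL : 0 < L) (hd0 : 0 < d) (hq : q.Prime)
  (hE : ∀ u v, IsCoprime u v → E u v = if cd L v = d then ψ (cs L d u v) else 0)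

include hL hd0 hq hE

/-- the terms of content `1` -/
lemma E_good {u v : ℤ} (h : IsCoprime u v) (hd : d ≤ cd L v) (b : ℤ)
    (hb : ¬ (q : ℤ) ∣ u + b * v) :
    E (u + b * v) (q * v) = if q ∣ L / d then 0 else ψ q * E u v := by
  have h1 : IsCoprime (u + b * v) v := by
    rw [mul_comm b v]
    exact (IsCoprime.add_mul_left_left_iff).2 h
  have h2 : IsCoprime (u + b * v) (q : ℤ) :=
    ((Nat.prime_iff_prime_int.1 hq).coprime_iff_not_dvd.2 hb).symm
  rw [hE _ _ (h2.mul_right h1), hE _ _ h]
  by_cases hv : cd L v = d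
  · rw [if_pos hv, cd_mul hL hq, hv]
    by_cases hqd : q ∣ L / d
    · rw [if_pos hqd, if_pos hqd, if_neg]
      intro h3
      have : d * q = d * 1 := by rw [mul_comm, h3, mul_one]
      exact hq.one_lt.ne' (Nat.eq_of_mul_eq_mul_left hd0 this)
    · rw [if_neg hqd, if_neg hqd, if_pos rfl, cs_add_mul hL hv, map_mul]
  · rw [if_neg hv, if_neg, mul_zero, ite_self]
    have := cd_le_cd_mul hL hq v
    omega

/-- the term of content `q` -/
lemma E_bad {u v w : ℤ} (h : IsCoprime u v) (b : ℤ) (hv : ¬ (q : ℤ) ∣ v)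
    (hw : u + b * v = q * w) :
    E w v = if q ∣ d then 0 else ψ⁻¹ q * E u v := by
  have h1 : IsCoprime w v := by
    have : IsCoprime (q * w) v := by
      rw [← hw, mul_comm b v]
      exact (IsCoprime.add_mul_left_left_iff).2 h
    exact this.of_mul_left_right
  rw [hE _ _ h1, hE _ _ h]
  by_cases hvd : cd L v = d
  · have hqd : ¬ q ∣ d := by
      rintro ⟨t, ht⟩
      refine hv ?_
      have h3 := cd_dvd_left L v
      rw [hvd, ht] at h3
      push_cast at h3
      exact (dvd_mul_right _ _).trans h3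
    rw [if_pos hvd, if_pos hvd, if_neg hqd, ← cs_div (q := q) hL hvd u b hw, map_mul, ← mul_assoc,
      psi_inv_mul hq hqd, one_mul]
  · rw [if_neg hvd, if_neg hvd, mul_zero, ite_self]

/-- **The action of `T_q` and `U_q`.** -/
theorem hecke_E (hhom : ∀ u v, IsCoprime u v → be * E (q * u) (q * v) = al * E u v)
    {u v : ℤ} (h : IsCoprime u v) (hd : d ≤ cd L v) :
    be * (∑ b ∈ range q, E (u + b * v) (q * v) + if q ∣ L then 0 else E (q * u) v) =
      ((if q ∣ d then 0 else al * ψ⁻¹ q) + (if q ∣ L / d then 0 else q * be * ψ q)) * E u v := by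
  -- the case of a different class
  by_cases hvd : cd L v = d
  swap
  · have hE0 : E u v = 0 := by rw [hE _ _ h, if_neg hvd]
    rw [hE0, mul_zero]
    have hsum : be * ∑ b ∈ range q, E (u + b * v) (q * v) = 0 := by
      rw [mul_sum]
      refine sum_eq_zero fun b _ => ?_
      by_cases hb : (q : ℤ) ∣ u + b * v
      · obtain ⟨w, hw⟩ := hb
        have hv : ¬ (q : ℤ) ∣ v := by
          intro hv
          have h3 : (q : ℤ) ∣ u := by
            have := dvd_sub (Dvd.intro w hw.symm) (hv.mul_left (b : ℤ))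
            simpa using this
          have h4 := h.isUnit_of_dvd' h3 hv
          exact (Nat.prime_iff_prime_int.1 hq).not_isUnit h4
        have h1 : IsCoprime w v := by
          have : IsCoprime (q * w) v := by
            rw [← hw, mul_comm (b : ℤ) v]
            exact (IsCoprime.add_mul_left_left_iff).2 h
          exact this.of_mul_left_right
        rw [hw, hhom w v h1, E_bad hL hd0 hq hE h b hv hw, hE0, mul_zero, ite_self, mul_zero]
      · rw [E_good hL hd0 hq hE h hd b hb, hE0, mul_zero, ite_self, mul_zero]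
    have hext : be * (if q ∣ L then 0 else E (q * u) v) = 0 := by
      by_cases hqL : q ∣ L
      · rw [if_pos hqL, mul_zero]
      · rw [if_neg hqL]
        by_cases hv : (q : ℤ) ∣ v
        · obtain ⟨v', rfl⟩ := hv
          have h1 : IsCoprime u v' := h.of_mul_right_right
          rw [hhom u v' h1, hE _ _ h1, if_neg, mul_zero]
          rw [cd_mul hL hq, if_neg] at hvd
          · exact hvd
          · intro h5
            exact hqL (h5.trans (Nat.div_dvd_of_dvd (cd_dvd_right L v')))
        · have h1 : IsCoprime (q * u) v :=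
            ((Nat.prime_iff_prime_int.1 hq).coprime_iff_not_dvd.2 hv).mul_left h
          rw [hE _ _ h1, if_neg hvd, mul_zero]
    rw [mul_add, hsum, hext, add_zero]
  -- the case of the same class
  by_cases hv : (q : ℤ) ∣ v
  · -- all terms have content `1`
    have hu : ¬ (q : ℤ) ∣ u := fun hu =>
      (Nat.prime_iff_prime_int.1 hq).not_isUnit (h.isUnit_of_dvd' hu hv)
    have hsum : ∑ b ∈ range q, E (u + b * v) (q * v) =
        q * (if q ∣ L / d then 0 else ψ q * E u v) := by
      have hg : ∀ b ∈ range q, E (u + b * v) (q * v) = if q ∣ L / d then 0 else ψ q * E u v := by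
        intro b _
        refine E_good hL hd0 hq hE h hd b fun hb => hu ?_
        have := dvd_sub hb (hv.mul_left (b : ℤ))
        simpa using this
      rw [sum_congr rfl hg, sum_const, card_range, nsmul_eq_mul]
    by_cases hqL : q ∣ L
    · have hqd : q ∣ d := by
        have h1 : (q : ℤ) ∣ Int.gcd v L := Int.dvd_coe_gcd hv (by exact_mod_cast hqL)
        rw [← hvd]
        exact_mod_cast h1
      rw [hsum, if_pos hqL, if_pos hqd, add_zero, zero_add]
      split_ifs <;> ring
    · have hqd : ¬ q ∣ d := fun h1 => hqL (h1.trans (hvd ▸ cd_dvd_right L v))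
      have hqd' : ¬ q ∣ L / d := fun h1 =>
        hqL (h1.trans (Nat.div_dvd_of_dvd (hvd ▸ cd_dvd_right L v)))
      rw [hsum, if_neg hqL, if_neg hqd, if_neg hqd', if_neg hqd']
      obtain ⟨v', rfl⟩ := hv
      have h1 : IsCoprime u v' := h.of_mul_right_right
      have hv' : cd L v' = d := by
        rw [cd_mul hL hq, if_neg] at hvd
        · exact hvd
        · intro h5
          exact hqL (h5.trans (Nat.div_dvd_of_dvd (cd_dvd_right L v')))
      have e1 : E u v' = ψ⁻¹ q * E u (q * v') := by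
        rw [hE _ _ h1, hE _ _ h, if_pos hv', if_pos hvd, cs_mul_right hL hv', map_mul, ← mul_assoc,
          psi_inv_mul hq hqd, one_mul]
      rw [mul_add, hhom u v' h1, e1]
      ring
  · -- exactly one term has content `q`
    have hqd : ¬ q ∣ d := by
      intro h1
      apply hv
      have h2 := cd_dvd_left L v
      rw [hvd] at h2
      exact (Int.natCast_dvd_natCast.2 h1).trans h2
    obtain ⟨b0, hb0, hb0'⟩ : ∃ b0 ∈ range q, (q : ℤ) ∣ u + b0 * v := by
      have hc : IsCoprime v (q : ℤ) :=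
        ((Nat.prime_iff_prime_int.1 hq).coprime_iff_not_dvd.2 hv).symm
      obtain ⟨x, y, hxy⟩ := hc
      have hq0 : (0 : ℤ) < q := by exact_mod_cast hq.pos
      refine ⟨((-u * x) % q).toNat, ?_, ?_⟩
      · rw [mem_range]
        have h1 := Int.emod_lt_of_pos (-u * x) hq0
        have h2 := Int.emod_nonneg (-u * x) hq0.ne'
        omega
      · rw [Int.toNat_of_nonneg (Int.emod_nonneg _ hq0.ne'), Int.emod_def]
        refine ⟨u * y - (-u * x / q) * v, ?_⟩
        linear_combination (-u) * hxy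
    have huniq : ∀ b ∈ range q, b ≠ b0 → ¬ (q : ℤ) ∣ u + b * v := by
      intro b hb hne hdv
      have h1 : (q : ℤ) ∣ ((b : ℤ) - b0) * v := by
        have := dvd_sub hdv hb0'
        rwa [show u + b * v - (u + b0 * v) = ((b : ℤ) - b0) * v by ring] at this
      have h2 : (q : ℤ) ∣ (b : ℤ) - b0 :=
        ((Nat.prime_iff_prime_int.1 hq).dvd_or_dvd h1).resolve_right hv
      rw [mem_range] at hb hb0
      obtain ⟨t, ht⟩ := h2
      have ht0 : t = 0 := by
        have hq0 : (0 : ℤ) < q := by exact_mod_cast hq.pos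
        by_contra hne'
        rcases lt_or_gt_of_ne hne' with h3 | h3
        · have : (q : ℤ) * t ≤ q * (-1) := mul_le_mul_of_nonneg_left (by omega) hq0.le
          omega
        · have : (q : ℤ) * 1 ≤ q * t := mul_le_mul_of_nonneg_left (by omega) hq0.le
          omega
      rw [ht0, mul_zero] at ht
      exact hne (by omega)
    obtain ⟨w, hw⟩ := hb0'
    have h1 : IsCoprime w v := by
      have : IsCoprime (q * w) v := by
        rw [← hw, mul_comm (b0 : ℤ) v]
        exact (IsCoprime.add_mul_left_left_iff).2 h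
      exact this.of_mul_left_right
    have hsum : be * ∑ b ∈ range q, E (u + b * v) (q * v) =
        al * (ψ⁻¹ q * E u v) + be * ((q - 1 : ℕ) * (if q ∣ L / d then 0 else ψ q * E u v)) := by
      have hg : ∀ b ∈ (range q).erase b0, E (u + b * v) (q * v) =
          if q ∣ L / d then 0 else ψ q * E u v := fun b hb =>
        E_good hL hd0 hq hE h hd b (huniq b (mem_of_mem_erase hb) (ne_of_mem_erase hb))
      rw [← add_sum_erase _ _ hb0, mul_add, hw, hhom w v h1, E_bad hL hd0 hq hE h b0 hv hw,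
        if_neg hqd, sum_congr rfl hg, sum_const, card_erase_of_mem hb0, card_range, nsmul_eq_mul]
    have hq1 : ((q - 1 : ℕ) : K) = q - 1 := by
      rw [Nat.cast_sub hq.one_lt.le, Nat.cast_one]
    rw [mul_add, hsum, if_neg hqd, hq1]
    by_cases hqL : q ∣ L
    · have hqd' : q ∣ L / d := by
        have h2 : d * (L / d) = L := Nat.mul_div_cancel' (hvd ▸ cd_dvd_right L v)
        have h3 : q ∣ d * (L / d) := by rw [h2]; exact hqL
        exact (hq.dvd_mul.1 h3).resolve_left hqd
      rw [if_pos hqL, if_pos hqd', if_pos hqd']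
      ring
    · have hqd' : ¬ q ∣ L / d := fun h1 =>
        hqL (h1.trans (Nat.div_dvd_of_dvd (hvd ▸ cd_dvd_right L v)))
      rw [if_neg hqL, if_neg hqd', if_neg hqd']
      have h2 : IsCoprime (q * u) v :=
        ((Nat.prime_iff_prime_int.1 hq).coprime_iff_not_dvd.2 hv).mul_left h
      have e1 : E (q * u) v = ψ q * E u v := by
        rw [hE _ _ h2, hE _ _ h, if_pos hvd, cs_mul_left, map_mul]
        rw [if_pos hvd]
      rw [e1]
      ring

end Eig

end Gouvea.POS
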