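import Pool.Agent.Work.MP_d3517d_nt.POS.CuspSys
import Pool.Agent.Work.MP_d3517d_nt.Cnt.ResDefs

/-!
# The systems of eigenvalues of the boundary symbols and of the residues (MP_d3517d_nt, POS)
-/

open Finset Module CongruenceSubgroup
open scoped MatrixGroups

noncomputable section

namespace Gouvea.POS

open Gouvea.Sys Gouvea.Cnt

/-! ### The homogeneous functions attached to `(d, ψ)` -/

/-- the function on primitive vectors -/
def Ep (L d : ℕ) (ψ : DirichletCharacter ℂ (cg L d)) (u v : ℤ) : ℂ :=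
  if cd L v = d then ψ (cs L d u v) else 0

lemma cd_neg (L : ℕ) (v : ℤ) : cd L (-v) = cd L v := by
  unfold cd
  rw [Int.neg_gcd]

lemma Ep_neg (L d : ℕ) (ψ : DirichletCharacter ℂ (cg L d)) (u v : ℤ) :
    Ep L d ψ (-u) (-v) = Ep L d ψ u v := by
  unfold Ep
  rw [cd_neg]
  by_cases h : cd L v = d
  · rw [if_pos h, if_pos h]
    congr 1
    unfold cs
    have h1 : (d : ℤ) ∣ v := h ▸ cd_dvd_left L v
    rw [Int.neg_ediv_of_dvd h1, neg_mul_neg]
  · rw [if_neg h, if_neg h]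

/-- the homogeneous function attached to `(d, ψ)` -/
def Eh (e : ℤ) (L d : ℕ) (ψ : DirichletCharacter ℂ (cg L d)) (v : ℤ × ℤ) : ℂ :=
  if v = (0, 0) then 0
  else ((Int.gcd v.1 v.2 : ℕ) : ℂ) ^ e *
    Ep L d ψ (v.1 / (Int.gcd v.1 v.2 : ℕ)) (v.2 / (Int.gcd v.1 v.2 : ℕ))

/-- every nonzero vector is a positive multiple of a primitive one -/
lemma exists_prim {v : ℤ × ℤ} (hv : v ≠ (0, 0)) : ∃ l : ℕ, 0 < l ∧ ∃ a c : ℤ, IsCoprime a c ∧
    v = (l * a, l * c) := by
  have h0 : 0 < Int.gcd v.1 v.2 := by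
    rw [Nat.pos_iff_ne_zero, Ne, Int.gcd_eq_zero_iff]
    rintro ⟨h1, h2⟩
    exact hv (Prod.ext h1 h2)
  refine ⟨Int.gcd v.1 v.2, h0, v.1 / Int.gcd v.1 v.2, v.2 / Int.gcd v.1 v.2, ?_, ?_⟩
  · rw [Int.isCoprime_iff_gcd_eq_one]
    exact Int.gcd_div_gcd_div_gcd h0
  · rw [Int.mul_ediv_cancel' (Int.gcd_dvd_left _ _), Int.mul_ediv_cancel' (Int.gcd_dvd_right _ _)]

lemma Eh_mul {e : ℤ} (he : Even e) (L d : ℕ) (ψ : DirichletCharacter ℂ (cg L d)) {l : ℤ}
    (hl : l ≠ 0) {a c : ℤ} (h : IsCoprime a c) :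
    Eh e L d ψ (l * a, l * c) = (l : ℂ) ^ e * Ep L d ψ a c := by
  have hne : ((l * a, l * c) : ℤ × ℤ) ≠ (0, 0) := by
    intro h1
    rw [Prod.mk.injEq] at h1
    have ha : a = 0 := (mul_eq_zero.1 h1.1).resolve_left hl
    have hc : c = 0 := (mul_eq_zero.1 h1.2).resolve_left hl
    rw [ha, hc] at h
    exact not_isCoprime_zero_zero h
  have hg : Int.gcd (l * a) (l * c) = l.natAbs := by
    rw [Int.gcd_mul_left, Int.isCoprime_iff_gcd_eq_one.1 h, mul_one]
  unfold Eh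
  rw [if_neg hne]
  simp only [hg]
  have hln : ((l.natAbs : ℕ) : ℂ) ^ e = (l : ℂ) ^ e := by
    rcases Int.natAbs_eq l with h1 | h1
    · conv_rhs => rw [h1]
      simp
    · conv_rhs => rw [h1]
      push_cast
      rw [he.neg_zpow]
      simp
  rw [hln]
  congr 1
  rcases Int.natAbs_eq l with h1 | h1
  · have h2 : ((l.natAbs : ℕ) : ℤ) = l := h1.symm
    rw [h2, Int.mul_ediv_cancel_left _ hl, Int.mul_ediv_cancel_left _ hl]
  · have h2 : ((l.natAbs : ℕ) : ℤ) = -l := by omega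
    rw [h2, Int.ediv_neg, Int.ediv_neg, Int.mul_ediv_cancel_left _ hl,
      Int.mul_ediv_cancel_left _ hl, Ep_neg]

lemma Eh_prim {e : ℤ} (he : Even e) (L d : ℕ) (ψ : DirichletCharacter ℂ (cg L d)) {a c : ℤ}
    (h : IsCoprime a c) : Eh e L d ψ (a, c) = Ep L d ψ a c := by
  have := Eh_mul he L d ψ one_ne_zero h
  simpa using this

lemma isCoprime_vm {g : Matrix (Fin 2) (Fin 2) ℤ} (hg : g.det = 1) {a c : ℤ}
    (h : IsCoprime a c) :
    IsCoprime (g 0 0 * a + g 0 1 * c) (g 1 0 * a + g 1 1 * c) := by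
  obtain ⟨x, y, hxy⟩ := h
  rw [Matrix.det_fin_two] at hg
  refine ⟨x * g 1 1 - y * g 1 0, y * g 0 0 - x * g 0 1, ?_⟩
  linear_combination (x * a + y * c) * hg + hxy

lemma Ep_vm {L d : ℕ} (hL : 0 < L) (ψ : DirichletCharacter ℂ (cg L d)) {g : SL(2, ℤ)}
    (hg : g ∈ Gamma0 L) (a c : ℤ) :
    Ep L d ψ (g.1 0 0 * a + g.1 0 1 * c) (g.1 1 0 * a + g.1 1 1 * c) = Ep L d ψ a c := by
  have hdet := g.2
  rw [Matrix.det_fin_two] at hdet
  have hdiv : (L : ℤ) ∣ g.1 1 0 := by
    rw [Gamma0_mem] at hg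
    exact (ZMod.intCast_zmod_eq_zero_iff_dvd _ _).1 hg
  unfold Ep
  rw [cd_smul (L := L) (u := a) (v := c) hdet hdiv]
  by_cases h : cd L c = d
  · subst h
    rw [if_pos rfl, if_pos rfl, cs_smul hL hdet hdiv]
  · rw [if_neg h, if_neg h]

/-- the function attached to `(d, ψ)` is homogeneous and invariant -/
theorem Eh_mem_HF {e : ℤ} (he : Even e) {L : ℕ} (hL : 0 < L) (d : ℕ)
    (ψ : DirichletCharacter ℂ (cg L d)) : Eh e L d ψ ∈ HF e L := by
  refine ⟨by simp [Eh], fun l hl v => ?_, fun g hg v => ?_⟩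
  · by_cases hv : v = (0, 0)
    · subst hv
      simp [Eh]
    · obtain ⟨m, hm, a, c, h, rfl⟩ := exists_prim hv
      have hm' : (m : ℤ) ≠ 0 := by exact_mod_cast hm.ne'
      have e1 : ((l * (m * a), l * (m * c)) : ℤ × ℤ) = (l * m * a, l * m * c) := by
        rw [mul_assoc, mul_assoc]
      change Eh e L d ψ (l * (m * a), l * (m * c)) = _
      rw [e1, Eh_mul he L d ψ (mul_ne_zero hl hm') h, Eh_mul he L d ψ hm' h]
      push_cast
      rw [mul_zpow, mul_assoc]
  · by_cases hv : v = (0, 0)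
    · subst hv
      simp [Eh, vm]
    · obtain ⟨m, hm, a, c, h, rfl⟩ := exists_prim hv
      have hm' : (m : ℤ) ≠ 0 := by exact_mod_cast hm.ne'
      have e1 : vm g.1 (m * a, m * c) =
          (m * (g.1 0 0 * a + g.1 0 1 * c), m * (g.1 1 0 * a + g.1 1 1 * c)) := by
        unfold vm
        refine Prod.ext ?_ ?_ <;> ring
      rw [e1, Eh_mul he L d ψ hm' (isCoprime_vm g.2 h), Eh_mul he L d ψ hm' h, Ep_vm hL ψ hg]

/-! ### The vectors of `PS.Cusp` -/

lemma inC_prim_iff {u v : ℤ} (h : IsCoprime u v) : inC (u, v) ↔ (4 : ℤ) ∣ v := by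
  constructor
  · rintro ⟨l, a, c, hl, ha, hc, heq⟩
    rw [Prod.mk.injEq] at heq
    rw [heq.2]
    exact hc.mul_left _
  · intro hv
    refine ⟨1, u, v, one_ne_zero, ?_, hv, by simp⟩
    by_contra hu
    rw [Int.not_odd_iff_even] at hu
    have h2 : (2 : ℤ) ∣ v := Dvd.dvd.trans (by norm_num) hv
    have := h.isUnit_of_dvd' hu.two_dvd h2
    exact absurd this (by decide)

lemma inC_mul_iff {l : ℤ} (hl : l ≠ 0) {u v : ℤ} : inC (l * u, l * v) ↔ inC (u, v) := by
  constructor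
  · rintro ⟨m, a, c, hm, ha, hc, heq⟩
    rw [Prod.mk.injEq] at heq
    by_cases h0 : ((u, v) : ℤ × ℤ) = (0, 0)
    · rw [Prod.mk.injEq] at h0
      rw [h0.1, mul_zero] at heq
      have : a = 0 := (mul_eq_zero.1 heq.1.symm).resolve_left hm
      rw [this] at ha
      exact absurd ha (by decide)
    · obtain ⟨k, hk, x, y, h, hxy⟩ := exists_prim h0
      rw [Prod.mk.injEq] at hxy
      have hk' : (k : ℤ) ≠ 0 := by exact_mod_cast hk.ne'
      -- `l k (x, y) = m (a, c)`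
      have e1 : l * k * x = m * a := by rw [← heq.1, hxy.1]; ring
      have e2 : l * k * y = m * c := by rw [← heq.2, hxy.2]; ring
      have e3 : x * c = y * a := by
        have h3 : l * k * m * (x * c) = l * k * m * (y * a) := by
          linear_combination (m * c) * e1 - (m * a) * e2
        exact mul_left_cancel₀ (mul_ne_zero (mul_ne_zero hl hk') hm) h3
      have h4 : x ∣ a := h.dvd_of_dvd_mul_left (by rw [← e3]; exact dvd_mul_right _ _)
      obtain ⟨t, ht⟩ := h4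
      have hx0 : x ≠ 0 := by
        rintro rfl
        rw [zero_mul] at ht
        rw [ht] at ha
        exact absurd ha (by decide)
      have hxo : Odd x := by
        rw [ht] at ha
        exact (Int.odd_mul.1 ha).1
      have hto : Odd t := by
        rw [ht] at ha
        exact (Int.odd_mul.1 ha).2
      have hc' : c = y * t := by
        rw [ht] at e3
        refine mul_left_cancel₀ hx0 ?_
        linear_combination e3
      have hy : (4 : ℤ) ∣ y := by
        have h5 : (4 : ℤ) ∣ y * t := by rw [← hc']; exact hc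
        have h6 : IsCoprime (4 : ℤ) t := by
          have h7 : IsCoprime (2 : ℤ) t :=
            (Int.prime_two.coprime_iff_not_dvd).2 fun h8 => by
              rw [← even_iff_two_dvd] at h8
              exact (Int.not_even_iff_odd.2 hto) h8
          have h8 : (4 : ℤ) = 2 * 2 := by norm_num
          rw [h8]
          exact h7.mul_left h7
        exact h6.dvd_of_dvd_mul_right h5
      exact ⟨k, x, y, hk', hxo, hy, by rw [← hxy.1, ← hxy.2]⟩
  · rintro ⟨m, a, c, hm, ha, hc, heq⟩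
    rw [Prod.mk.injEq] at heq
    exact ⟨l * m, a, c, mul_ne_zero hl hm, ha, hc, by rw [heq.1, heq.2, mul_assoc, mul_assoc]⟩

lemma four_dvd_cd {L : ℕ} (h4 : 4 ∣ L) (v : ℤ) : 4 ∣ cd L v ↔ (4 : ℤ) ∣ v := by
  constructor
  · intro h
    have h1 : ((4 : ℕ) : ℤ) ∣ (cd L v : ℤ) := Int.natCast_dvd_natCast.2 h
    exact h1.trans (cd_dvd_left L v)
  · intro h
    have h1 : ((4 : ℕ) : ℤ) ∣ (Int.gcd v L : ℤ) := Int.dvd_coe_gcd h (by exact_mod_cast h4)
    exact Int.natCast_dvd_natCast.1 h1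

end Gouvea.POS
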