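import Pool.Agent.Work.MP_d3517d_nt.Fin.Level

/-!
# The level combination at `2` (MP_d3517d_nt, positivity)

* `tot0 j L k A c`: the number of systems of level `L` and weight `k` in the class `(A, c)`;
* `lev2_semi`, `lev2_unram`, `lev2_at`: levels `2 M` and `M` in terms of the level `4 M`, `M` odd;
* `den_tot0`: the combination `den` of the numbers at the levels `L e`, `4 ∣ L`, is the number at
  the level `M e` (`e` odd).
-/

set_option autoImplicit false

open MvPolynomial Gouvea.Sys Gouvea.ES Gouvea.Desc Gouvea.Fin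

noncomputable section

namespace Gouvea.POS

variable {p : ℕ} [Fact p.Prime] (j : algebraicClosure ℚ ℂ →+* PadicAlgCl p)

/-- the number of systems of level `L` and weight `k` in the class `(A, c)` -/
def tot0 (L k : ℕ) (A : Set Nat.Primes) (c : Nat.Primes → PadicAlgCl p) : ℝ :=
  if h : L = 0 then 0 else
    haveI : NeZero L := ⟨h⟩
    (tot j L k A c : ℝ)

theorem tot0_eq (L k : ℕ) [NeZero L] (A : Set Nat.Primes) (c : Nat.Primes → PadicAlgCl p) :
    tot0 j L k A c = (tot j L k A c : ℝ) := by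
  rw [tot0, dif_neg (NeZero.ne L)]

theorem tot0_TG {L L' : ℕ} (h : L = L') (k : ℕ) [NeZero L'] (A : Set Nat.Primes)
    (c : Nat.Primes → PadicAlgCl p) : tot0 j L k A c = TG j L' k A c (fun _ => True) := by
  subst h
  rw [tot0_eq, tot_eq]

theorem tot0_nonneg (L k : ℕ) (A : Set Nat.Primes) (c : Nat.Primes → PadicAlgCl p) :
    0 ≤ tot0 j L k A c := by
  unfold tot0
  split_ifs
  · exact le_refl _
  · exact Nat.cast_nonneg _

/-- level `2 M` from level `4 M`, `M` odd -/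
theorem lev2_semi (hI : Int1) (hp : 3 ≤ p) {M k : ℕ} (hM : ¬ 2 ∣ M) (hk : 2 ≤ k)
    {A : Set Nat.Primes} (hA : pr2 ∉ A) (c : Nat.Primes → PadicAlgCl p) :
    tot0 j (2 * M) k A c = tot0 j (4 * M) k A c -
      tot0 j (4 * M) k (insert pr2 A) (Function.update c pr2 0) := by
  have : NeZero M := ⟨fun h => hM (h ▸ dvd_zero 2)⟩
  have h4 : 4 * M = M * 2 * 2 := by ring
  rw [tot0_TG j (mul_comm 2 M), tot0_TG j h4, tot0_TG j h4]
  exact TG_semi j hI hp M k hM hk hA c _

/-- level `M` from level `4 M`, `M` odd, classes without a condition at `2` -/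
theorem lev2_unram (hI : Int1) (hp : 5 ≤ p) {M n : ℕ} (hM : ¬ 2 ∣ M)
    {A : Set Nat.Primes} (hA : pr2 ∉ A) (c : Nat.Primes → PadicAlgCl p)
    (s : PadicAlgCl p) (hs : ‖s‖ ≤ 1) (hsd : rs s ^ 2 = 2 ^ n) :
    2 * tot0 j M (n + 2) A c = tot0 j (4 * M) (n + 2) A c -
      tot0 j (4 * M) (n + 2) (insert pr2 A) (Function.update c pr2 0) -
      (tot0 j (4 * M) (n + 2) (insert pr2 A) (Function.update c pr2 s) +
        tot0 j (4 * M) (n + 2) (insert pr2 A) (Function.update c pr2 (-s))) +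
      (tot0 j (4 * M) (n + 2) (insert pr2 A) (Function.update c pr2 (2 * s)) +
        tot0 j (4 * M) (n + 2) (insert pr2 A) (Function.update c pr2 (-(2 * s)))) := by
  have : NeZero M := ⟨fun h => hM (h ▸ dvd_zero 2)⟩
  have h4 : 4 * M = M * 2 * 2 := by ring
  rw [tot0_TG j (rfl : M = M), tot0_TG j h4, tot0_TG j h4, tot0_TG j h4, tot0_TG j h4,
    tot0_TG j h4, tot0_TG j h4]
  exact TG_unram j hI hp M n hM hA c (fun _ => True) (fun _ _ => Iff.rfl) s hs hsd

open scoped Classical in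
/-- level `M` from level `4 M`, `M` odd, classes with a condition at `2` -/
theorem lev2_at (hI : Int1) {M n : ℕ} (hM : ¬ 2 ∣ M)
    {A : Set Nat.Primes} (hA : pr2 ∈ A) (c : Nat.Primes → PadicAlgCl p) (hc : ‖c pr2‖ ≤ 1)
    (α : PadicAlgCl p) (hα1 : ‖α‖ ≤ 1) (hα : rs α ^ 2 - rs (c pr2) * rs α + 2 ^ (n + 1) = 0)
    (hα0 : rs α ≠ 0) (hαd : rs α ^ 2 ≠ 2 ^ n) :
    (if ‖c pr2 - 2 * α‖ < 1 then (2 : ℝ) else 1) * tot0 j M (n + 2) A c =
      tot0 j (4 * M) (n + 2) A (Function.update c pr2 α) := by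
  have : NeZero M := ⟨fun h => hM (h ▸ dvd_zero 2)⟩
  have h4 : 4 * M = M * 2 * 2 := by ring
  rw [tot0_TG j (rfl : M = M), tot0_TG j h4]
  exact TG_at j hI M n hM hA c hc (fun _ => True) (fun _ _ => Iff.rfl) α hα1 hα hα0 hαd

/-- the conditions of `lev2_at` for an admissible root -/
theorem isRt_rs (hp : 3 ≤ p) {a : PadicAlgCl p} (ha : ‖a‖ ≤ 1) {r n : ℕ} (hr : r = n % (p - 1))
    {α : PadicAlgCl p} (h : IsRt a r α) : ‖α‖ ≤ 1 ∧ rs α ^ 2 - rs a * rs α + 2 ^ (n + 1) = 0 ∧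
      rs α ≠ 0 ∧ rs α ^ 2 ≠ 2 ^ n := by
  subst hr
  have hα1 := h.norm_le ha
  have hsq : ‖α ^ 2‖ ≤ 1 := by
    rw [norm_pow]
    exact pow_le_one₀ (norm_nonneg _) hα1
  have h2r : ∀ r : ℕ, ‖(2 : PadicAlgCl p) ^ r‖ ≤ 1 := fun r => by
    rw [norm_pow]
    exact pow_le_one₀ (norm_nonneg _) norm_two_le
  have e1 : rs α ^ 2 - rs a * rs α + 2 ^ (n + 1) = 0 := by
    have h5 := congrArg rs h.1
    rw [rs_zero, sub_eq_add_neg, rs_add (Sys.norm_add_le_one hsq (by
      rw [norm_neg]; exact norm_mul_le_one ha hα1)) (h2r _), rs_add hsq (by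
      rw [norm_neg]; exact norm_mul_le_one ha hα1), rs_neg (norm_mul_le_one ha hα1),
      rs_mul ha hα1, rs_pow hα1, rs_two_pow, ← two_pow_mod hp n 1] at h5
    rw [← h5]
    ring
  have hne : (2 : kap p) ^ (n + 1) ≠ 0 := pow_ne_zero _ (two_ne hp)
  refine ⟨hα1, e1, ?_, ?_⟩
  · intro h0
    rw [h0] at e1
    apply hne
    linear_combination e1
  · intro h0
    have h6 := two_pow_mod (p := p) hp n 0
    rw [add_zero, add_zero] at h6
    rw [h6, ← rs_two_pow, ← rs_pow hα1, rs_eq_iff hsq (h2r _), h.2] at h0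
    exact lt_irrefl _ h0

/-- **The level combination at `2`.** -/
theorem den_tot0 (hI : Int1) (hp : 5 ≤ p) {N M e : ℕ} (he : ¬ 2 ∣ e) (hMN : M ∣ N)
    {c : Nat.Primes → PadicAlgCl p} (hc : ∀ q, ‖c q‖ ≤ 1) (n : ℕ) :
    den (fun L A c n => tot0 j (L * e) (n + 2) A c) N M c n =
      tot0 j (M * e) (n + 2) (AN p N) c := by
  have hp3 : 3 ≤ p := by omega
  simp only [den]
  split_ifs with h4 h2 hN2
  · rfl
  · obtain ⟨M', rfl⟩ := h2
    have hM' : ¬ 2 ∣ M' * e := by
      intro h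
      rcases Nat.prime_two.dvd_mul.1 h with h | h
      · obtain ⟨m, rfl⟩ := h
        exact h4 ⟨m, by ring⟩
      · exact he h
    have hA : pr2 ∉ AN p N := fun h => h (Dvd.dvd.mul_right ((Dvd.intro _ rfl).trans hMN) p)
    have h := lev2_semi j hI hp3 (k := n + 2) hM' (by omega) hA c
    rw [show 2 * (2 * M') * e = 4 * (M' * e) by ring, show 2 * M' * e = 2 * (M' * e) by ring, h]
  · have hM' : ¬ 2 ∣ M * e := by
      intro h
      rcases Nat.prime_two.dvd_mul.1 h with h | h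
      · exact h2 h
      · exact he h
    have hA : pr2 ∉ AN p N := fun h => h (Dvd.dvd.mul_right hN2 p)
    have hsd : rs (sr p (n % (p - 1))) ^ 2 = 2 ^ n := by
      rw [rs_sr]
      have := two_pow_mod (p := p) hp3 n 0
      simpa using this.symm
    have h := lev2_unram j hI hp hM' hA c (sr p (n % (p - 1))) (norm_sr_le _) hsd
    rw [show 4 * M * e = 4 * (M * e) by ring]
    linarith
  · have hM' : ¬ 2 ∣ M * e := by
      intro h
      rcases Nat.prime_two.dvd_mul.1 h with h | h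
      · exact h2 h
      · exact he h
    have hA : pr2 ∈ AN p N := by
      intro h
      rcases Nat.prime_two.dvd_mul.1 h with h | h
      · exact hN2 h
      · have := (Nat.prime_dvd_prime_iff_eq Nat.prime_two (Fact.out : p.Prime)).1 h
        omega
    obtain ⟨g1, g2, g3, g4⟩ := isRt_rs hp3 (hc pr2) (n := n) rfl
      (isRt_rt hp (hc pr2) (n % (p - 1)))
    have h := lev2_at j hI hM' hA c (hc pr2) _ g1 g2 g3 g4
    have hmu := mu_pos (c pr2) (n % (p - 1))
    have hmu' : mu (c pr2) (n % (p - 1)) * tot0 j (M * e) (n + 2) (AN p N) c =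
        tot0 j (4 * (M * e)) (n + 2) (AN p N)
          (Function.update c pr2 (rt (c pr2) (n % (p - 1)))) := h
    rw [show 4 * M * e = 4 * (M * e) by ring, ← hmu']
    field_simp

end Gouvea.POS
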