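import Pool.Agent.Work.MP_d3517d_nt.Sys.Padic
import Pool.Agent.Work.MP_d3517d_nt.Sys.Finite

/-!
# The reduction of systems of eigenvalues

`O p` is the ring of integers of the algebraic closure of `ℚ_p`, `kk p` its residue field and
`res : O p →+* kk p` the reduction.  If `A : R →+* Matrix ι ι (O p)`, then there is a multiset of
ring homomorphisms `R →+* O p` which gives the systems of eigenvalues of `A` over the algebraic
closure of `ℚ_p` and, reduced, the systems of eigenvalues of the reduction of `A`.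
-/

open Polynomial Module

noncomputable section

namespace Gouvea.Red

open Gouvea.Sys

variable {p : ℕ} [Fact p.Prime]

/-! ### the ring of integers and its residue field -/

/-- the ring of integers of the algebraic closure of `ℚ_p` -/
def O (p : ℕ) [Fact p.Prime] : Subring (PadicAlgCl p) where
  carrier := {x | ‖x‖ ≤ 1}
  mul_mem' := by
    intro a b ha hb
    simp only [Set.mem_ofPred_eq] at ha hb ⊢
    rw [norm_mul]
    exact mul_le_one₀ ha (norm_nonneg _) hb
  one_mem' := by simp
  add_mem' := by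
    intro a b ha hb
    exact norm_add_le_one ha hb
  zero_mem' := by simp
  neg_mem' := by
    intro a ha
    simp only [Set.mem_ofPred_eq] at ha ⊢
    rwa [norm_neg]

theorem mem_O {x : PadicAlgCl p} : x ∈ O p ↔ ‖x‖ ≤ 1 := Iff.rfl

theorem norm_O_le (x : O p) : ‖(x : PadicAlgCl p)‖ ≤ 1 := x.2

/-- the maximal ideal -/
def mm (p : ℕ) [Fact p.Prime] : Ideal (O p) where
  carrier := {x | ‖(x : PadicAlgCl p)‖ < 1}
  add_mem' := by
    intro a b ha hb
    exact norm_add_lt ha hb
  zero_mem' := by simp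
  smul_mem' := by
    intro c x hx
    simp only [Set.mem_ofPred_eq, smul_eq_mul, Subring.coe_mul, norm_mul] at hx ⊢
    exact mul_lt_one_of_nonneg_of_lt_one_right (norm_O_le c) (norm_nonneg _) hx

theorem mem_mm {x : O p} : x ∈ mm p ↔ ‖(x : PadicAlgCl p)‖ < 1 := Iff.rfl

instance mm_isMaximal : (mm p).IsMaximal := by
  rw [Ideal.isMaximal_iff]
  refine ⟨fun h => ?_, fun J x hJ hx hxJ => ?_⟩
  · rw [mem_mm, Subring.coe_one, norm_one] at h
    exact lt_irrefl _ h
  · rw [mem_mm, not_lt] at hx
    have h1 : ‖(x : PadicAlgCl p)‖ = 1 := le_antisymm (norm_O_le x) hx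
    have h2 : ‖(x : PadicAlgCl p)⁻¹‖ ≤ 1 := by rw [norm_inv, h1, inv_one]
    have h3 : (1 : O p) = ⟨(x : PadicAlgCl p)⁻¹, h2⟩ * x := by
      apply Subtype.ext
      have h4 : (x : PadicAlgCl p) ≠ 0 := by
        intro h0
        rw [h0, norm_zero] at h1
        exact zero_ne_one h1
      rw [Subring.coe_mul, Subring.coe_one]
      exact (inv_mul_cancel₀ h4).symm
    rw [h3]
    exact J.mul_mem_left _ hxJ

/-- the residue field -/
def kk (p : ℕ) [Fact p.Prime] : Type := O p ⧸ mm p

instance : Field (kk p) := Ideal.Quotient.field (mm p)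

/-- the reduction -/
def res (p : ℕ) [Fact p.Prime] : O p →+* kk p := Ideal.Quotient.mk (mm p)

theorem res_surjective : Function.Surjective (res p) := Ideal.Quotient.mk_surjective

theorem res_eq_zero_iff {x : O p} : res p x = 0 ↔ ‖(x : PadicAlgCl p)‖ < 1 :=
  Ideal.Quotient.eq_zero_iff_mem

theorem res_eq_iff {x y : O p} : res p x = res p y ↔ ‖(x : PadicAlgCl p) - y‖ < 1 := by
  rw [← sub_eq_zero, ← map_sub, res_eq_zero_iff]
  rfl

theorem res_ne_zero_iff {x : O p} : res p x ≠ 0 ↔ ‖(x : PadicAlgCl p)‖ = 1 := by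
  rw [Ne, res_eq_zero_iff, not_lt]
  exact ⟨fun h => le_antisymm (norm_O_le x) h, fun h => h.ge⟩

instance : CharP (kk p) p := by
  have h1 : ((p : ℕ) : kk p) = 0 := by
    have h2 : ((p : ℕ) : kk p) = res p (p : O p) := by rw [map_natCast]
    rw [h2, res_eq_zero_iff]
    exact norm_p_lt
  have h3 : CharP (kk p) (ringChar (kk p)) := ringChar.charP _
  have h4 : ringChar (kk p) ∣ p := ringChar.dvd h1
  rcases (Nat.dvd_prime (Fact.out : p.Prime)).1 h4 with h5 | h5
  · exfalso
    have h6 : ((1 : ℕ) : kk p) = 0 := by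
      rw [← h5]
      exact ringChar.Nat.cast_ringChar
    rw [Nat.cast_one] at h6
    exact one_ne_zero h6
  · rw [h5] at h3
    exact h3

/-- a root of a monic polynomial with integral coefficients is integral -/
theorem norm_root_le_O {b : PadicAlgCl p} {g : (O p)[X]} (hg : g.Monic)
    (hb : g.eval₂ (O p).subtype b = 0) : ‖b‖ ≤ 1 := by
  by_contra hcon
  push Not at hcon
  have hd : 0 < g.natDegree := by
    rcases Nat.eq_zero_or_pos g.natDegree with h0 | h0
    · rw [hg.natDegree_eq_zero.mp h0] at hb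
      simp at hb
    · exact h0
  rw [eval₂_eq_sum_range, Finset.sum_range_succ, hg.coeff_natDegree, map_one, one_mul] at hb
  have h1 : b ^ g.natDegree =
      - ∑ i ∈ Finset.range g.natDegree, (O p).subtype (g.coeff i) * b ^ i := by
    linear_combination hb
  have h2 : ‖∑ i ∈ Finset.range g.natDegree, (O p).subtype (g.coeff i) * b ^ i‖ ≤
      ‖b‖ ^ (g.natDegree - 1) := by
    apply IsUltrametricDist.norm_sum_le_of_forall_le_of_nonneg (by positivity)
    intro i hi
    rw [norm_mul, norm_pow]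
    have h3 : ‖b‖ ^ i ≤ ‖b‖ ^ (g.natDegree - 1) :=
      pow_le_pow_right₀ hcon.le (by have := Finset.mem_range.1 hi; omega)
    calc ‖(O p).subtype (g.coeff i)‖ * ‖b‖ ^ i ≤ 1 * ‖b‖ ^ i := by
          gcongr
          exact norm_O_le _
      _ ≤ _ := by rwa [one_mul]
  have h4 : ‖b‖ ^ g.natDegree ≤ ‖b‖ ^ (g.natDegree - 1) := by
    rw [← norm_pow, h1, norm_neg]
    exact h2
  have h5 : ‖b‖ ^ (g.natDegree - 1) < ‖b‖ ^ g.natDegree :=
    pow_lt_pow_right₀ hcon (by omega)
  exact absurd h4 (not_le.mpr h5)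

instance : IsAlgClosed (kk p) := by
  refine IsAlgClosed.of_exists_root _ fun f hf hirr => ?_
  obtain ⟨g, hgf, hdeg, hg⟩ := Polynomial.lifts_and_degree_eq_and_monic
    ((Polynomial.mem_lifts f).2 (Polynomial.map_surjective (res p) res_surjective f)) hf
  have h1 : (g.map (O p).subtype).degree ≠ 0 := by
    rw [hg.degree_map, hdeg]
    exact (Polynomial.degree_pos_of_irreducible hirr).ne'
  obtain ⟨b, hb⟩ := IsAlgClosed.exists_root _ h1
  rw [IsRoot.def, eval_map] at hb
  have h2 : ‖b‖ ≤ 1 := norm_root_le_O hg hb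
  refine ⟨res p ⟨b, h2⟩, ?_⟩
  have h3 : g.eval ⟨b, h2⟩ = 0 := by
    apply Subtype.ext
    have h4 := Polynomial.hom_eval₂ g (RingHom.id _) (O p).subtype (⟨b, h2⟩ : O p)
    rw [RingHom.comp_id] at h4
    have h5 : (O p).subtype (⟨b, h2⟩ : O p) = b := rfl
    rw [h5, hb] at h4
    exact h4
  rw [← hgf, eval_map, eval₂_at_apply, h3, map_zero]

/-! ### commuting matrices modulo a common eigenvector -/

section Defl

variable {R : Type*} [CommRing R] {ι : Type*} [Fintype ι] [DecidableEq ι] {S : Type*} [CommRing S]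

theorem defl_aux {A B : Matrix ι ι S} {i₀ : ι} {v : ι → S} {a : S} (hv : v i₀ = 1)
    (h : A.mulVec v = a • v) (j k : ι) :
    ∑ l : {l // l ≠ i₀}, (A j l - v j * A i₀ l) * (B l k - v l * B i₀ k) =
      (A * B) j k - v j * (A * B) i₀ k := by
  have h1 : ∀ j, ∑ l, A j l * v l = a * v j := fun j => congrFun h j
  have h2 : ∑ l : {l // l ≠ i₀}, (A j l - v j * A i₀ l) * (B l k - v l * B i₀ k) =
      ∑ l, (A j l - v j * A i₀ l) * (B l k - v l * B i₀ k) := by
    rw [← Finset.sum_subtype (Finset.univ.erase i₀) (p := fun l => l ≠ i₀)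
      (fun l => by simp) (fun l => (A j l - v j * A i₀ l) * (B l k - v l * B i₀ k)),
      ← Finset.add_sum_erase Finset.univ _ (Finset.mem_univ i₀), hv, one_mul, sub_self,
      mul_zero, zero_add]
  rw [h2, Matrix.mul_apply, Matrix.mul_apply]
  have h4 : ∀ l, (A j l - v j * A i₀ l) * (B l k - v l * B i₀ k) =
      A j l * B l k - v j * (A i₀ l * B l k) - (A j l * v l) * B i₀ k +
        v j * ((A i₀ l * v l) * B i₀ k) := fun l => by ring
  simp only [h4]
  rw [Finset.sum_add_distrib, Finset.sum_sub_distrib, Finset.sum_sub_distrib, ← Finset.mul_sum,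
    ← Finset.sum_mul, ← Finset.mul_sum, ← Finset.sum_mul, h1, h1, hv]
  ring

/-- commuting matrices modulo a common eigenvector with one coordinate equal to one -/
def defl (A : R →+* Matrix ι ι S) (i₀ : ι) (v : ι → S) (χ : R → S) (hv : v i₀ = 1)
    (h : ∀ r, (A r).mulVec v = χ r • v) : R →+* Matrix {j // j ≠ i₀} {j // j ≠ i₀} S where
  toFun r := Matrix.of fun j k => A r j k - v j * A r i₀ k
  map_one' := by
    ext j k
    rw [map_one, Matrix.of_apply, Matrix.one_apply_ne (fun e => k.2 e.symm), mul_zero, sub_zero,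
      Matrix.one_apply, Matrix.one_apply]
    simp only [Subtype.ext_iff]
  map_mul' r s := by
    ext j k
    rw [map_mul, Matrix.of_apply, Matrix.mul_apply]
    exact (defl_aux (A := A r) (B := A s) hv (h r) j k).symm
  map_zero' := by
    ext j k
    rw [map_zero, Matrix.of_apply]
    simp
  map_add' r s := by
    ext j k
    rw [map_add, Matrix.of_apply, Matrix.add_apply, Matrix.add_apply, Matrix.add_apply,
      Matrix.of_apply, Matrix.of_apply]
    ring

theorem defl_apply (A : R →+* Matrix ι ι S) (i₀ : ι) (v : ι → S) (χ : R → S) (hv : v i₀ = 1)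
    (h : ∀ r, (A r).mulVec v = χ r • v) (r : R) (j k : {j // j ≠ i₀}) :
    defl A i₀ v χ hv h r j k = A r j k - v j * A r i₀ k := rfl

theorem map_defl {S' : Type*} [CommRing S'] (σ : S →+* S') (A : R →+* Matrix ι ι S) (i₀ : ι)
    (v : ι → S) (χ : R → S) (hv : v i₀ = 1) (h : ∀ r, (A r).mulVec v = χ r • v)
    (hv' : (fun i => σ (v i)) i₀ = 1)
    (h' : ∀ r, (σ.mapMatrix.comp A r).mulVec (fun i => σ (v i)) = σ (χ r) • fun i => σ (v i)) :
    σ.mapMatrix.comp (defl A i₀ v χ hv h) =
      defl (σ.mapMatrix.comp A) i₀ (fun i => σ (v i)) (fun r => σ (χ r)) hv' h' := by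
  ext r j k
  rw [defl_apply]
  change σ (A r j k - v j * A r i₀ k) = σ (A r j k) - σ (v j) * σ (A r i₀ k)
  rw [map_sub, map_mul]

theorem map_eigen {S' : Type*} [CommRing S'] (σ : S →+* S') (A : R →+* Matrix ι ι S)
    (v : ι → S) (χ : R → S) (h : ∀ r, (A r).mulVec v = χ r • v) (r : R) :
    (σ.mapMatrix.comp A r).mulVec (fun i => σ (v i)) = σ (χ r) • fun i => σ (v i) := by
  funext i
  have h1 := RingHom.map_mulVec σ (A r) v i
  rw [h r, Pi.smul_apply, smul_eq_mul, map_mul] at h1
  exact h1.symm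

theorem Sys_defl {K : Type*} [Field K] [IsAlgClosed K] (A : R →+* Matrix ι ι K) (i₀ : ι)
    (v : ι → K) (χ : R →+* K) (hv : v i₀ = 1) (h : ∀ r, (A r).mulVec v = χ r • v) :
    Sys (matRep A) = {χ} + Sys (matRep (defl A i₀ v χ hv h)) := by
  -- the action on the line
  set ρ : R →+* Module.End K K := (Algebra.lmul K K : K →+* Module.End K K).comp χ with hρ
  have hρa : ∀ r x, ρ r x = χ r * x := fun r x => rfl
  have h1 : Sys ρ = {χ} := by
    refine Sys_of_finrank_one ρ (Module.finrank_self K) fun r => ?_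
    ext
    rw [hρa, LinearMap.smul_apply, Module.End.one_apply, smul_eq_mul]
  rw [← h1]
  refine Sys_exact (f := LinearMap.toSpanSingleton K (ι → K) v)
    (g := LinearMap.pi fun j : {j // j ≠ i₀} =>
      LinearMap.proj (j : ι) - v j • LinearMap.proj (R := K) (φ := fun _ : ι => K) i₀)
    ?_ ?_ ?_ ?_ ?_
  · intro r u
    rw [LinearMap.toSpanSingleton_apply, LinearMap.toSpanSingleton_apply, hρa, map_smul,
      matRep_apply, h r, smul_smul, mul_comm]
  · intro r w
    funext j
    rw [matRep_apply, matRep_apply]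
    change (A r).mulVec w j - v j * (A r).mulVec w i₀ =
      ∑ k : {k // k ≠ i₀}, (A r j k - v j * A r i₀ k) * (w k - v k * w i₀)
    have h2 := defl_aux (A := A r) (B := Matrix.of fun i _ => w i) hv (h r) j i₀
    simp only [Matrix.of_apply] at h2
    rw [h2]
    rfl
  · intro a b hab
    have h2 := congrFun hab i₀
    rw [LinearMap.toSpanSingleton_apply, LinearMap.toSpanSingleton_apply, Pi.smul_apply,
      Pi.smul_apply, hv, smul_eq_mul, smul_eq_mul, mul_one, mul_one] at h2
    exact h2
  · intro w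
    refine ⟨fun i => if hi : i ≠ i₀ then w ⟨i, hi⟩ else 0, ?_⟩
    funext j
    change (if hi : (j : ι) ≠ i₀ then w ⟨j, hi⟩ else 0) -
      v j * (if hi : i₀ ≠ i₀ then w ⟨i₀, hi⟩ else 0) = w j
    rw [dif_pos j.2, dif_neg (fun h => h rfl), mul_zero, sub_zero]
  · ext w
    rw [LinearMap.mem_range, LinearMap.mem_ker]
    constructor
    · rintro ⟨a, rfl⟩
      funext j
      change a * v j - v j * (a * v i₀) = 0
      rw [hv]
      ring
    · intro hw
      refine ⟨w i₀, ?_⟩
      funext j
      rw [LinearMap.toSpanSingleton_apply, Pi.smul_apply, smul_eq_mul]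
      by_cases hj : j = i₀
      · rw [hj, hv, mul_one]
      · have h2 := congrFun hw ⟨j, hj⟩
        change w j - v j * w i₀ = 0 at h2
        linear_combination -h2

end Defl

/-! ### the reduction of systems -/

section Main

variable {R : Type*} [CommRing R]

/-- a homomorphism with integral values -/
def toO (χ : R →+* PadicAlgCl p) (h : ∀ r, ‖χ r‖ ≤ 1) : R →+* O p := χ.codRestrict (O p) h

theorem subtype_toO (χ : R →+* PadicAlgCl p) (h : ∀ r, ‖χ r‖ ≤ 1) :
    (O p).subtype.comp (toO χ h) = χ := by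
  ext r
  rfl

open Classical in
/-- **The reduction of systems of eigenvalues** -/
theorem exists_lift (n : ℕ) : ∀ (ι : Type*) [Fintype ι] [DecidableEq ι], Fintype.card ι = n →
    ∀ A : R →+* Matrix ι ι (O p), ∃ X : Multiset (R →+* O p),
      X.map (fun χ => (O p).subtype.comp χ) = Sys (matRep ((O p).subtype.mapMatrix.comp A)) ∧
      X.map (fun χ => (res p).comp χ) = Sys (matRep ((res p).mapMatrix.comp A)) := by
  induction n with
  | zero =>
    intro ι _ _ hι A
    refine ⟨0, ?_, ?_⟩
    · rw [Multiset.map_zero]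
      symm
      rw [← Multiset.card_eq_zero, card_Sys, Module.finrank_fintype_fun_eq_card, hι]
    · rw [Multiset.map_zero]
      symm
      rw [← Multiset.card_eq_zero, card_Sys, Module.finrank_fintype_fun_eq_card, hι]
  | succ n ih =>
    intro ι _ _ hι A
    -- a common eigenvector
    have h1 : (Sys (matRep ((O p).subtype.mapMatrix.comp A))).card = n + 1 := by
      rw [card_Sys, Module.finrank_fintype_fun_eq_card, hι]
    obtain ⟨χ, hχ⟩ := Multiset.card_pos_iff_exists_mem.1 (by rw [h1]; exact Nat.succ_pos n)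
    obtain ⟨v, hv, hev⟩ := (mem_Sys_iff_exists _).1 hχ
    obtain ⟨i₀, hi₀, hmax⟩ := exists_max_coord hv
    have hne : v i₀ ≠ 0 := norm_pos_iff.1 hi₀
    have hw : ∀ i, ‖(v i₀)⁻¹ * v i‖ ≤ 1 := by
      intro i
      rw [norm_mul, norm_inv, inv_mul_le_iff₀ hi₀, mul_one]
      exact hmax i
    set w : ι → O p := fun i => ⟨(v i₀)⁻¹ * v i, hw i⟩ with hwd
    have hw1 : w i₀ = 1 := Subtype.ext (inv_mul_cancel₀ hne)
    have hχ1 : ∀ r, ‖χ r‖ ≤ 1 := by
      intro r
      exact norm_eig_le zero_le_one (fun i j => norm_O_le (A r i j)) hv (hev r)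
    have hew : ∀ r, (A r).mulVec w = toO χ hχ1 r • w := by
      intro r
      funext i
      apply Subtype.ext
      have h2 := RingHom.map_mulVec (O p).subtype (A r) w i
      have h3 : (fun i => (O p).subtype (w i)) = (v i₀)⁻¹ • v := rfl
      have h4 := congrFun (hev r) i
      change ((O p).subtype.mapMatrix (A r)).mulVec v i = _ at h4
      rw [Pi.smul_apply, smul_eq_mul] at h4
      change (O p).subtype ((A r).mulVec w i) = χ r * ((v i₀)⁻¹ * v i)
      rw [h2]
      change (((A r).map (O p).subtype).mulVec ((v i₀)⁻¹ • v)) i = _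
      rw [Matrix.mulVec_smul, Pi.smul_apply, smul_eq_mul]
      change (v i₀)⁻¹ * ((O p).subtype.mapMatrix (A r)).mulVec v i = _
      rw [h4]
      ring
    have hcard : Fintype.card {j // j ≠ i₀} = n := by
      rw [Fintype.card_subtype_compl, Fintype.card_subtype_eq, hι, Nat.add_sub_cancel]
    obtain ⟨X, hX1, hX2⟩ := ih {j // j ≠ i₀} hcard (defl A i₀ w (toO χ hχ1) hw1 hew)
    refine ⟨toO χ hχ1 ::ₘ X, ?_, ?_⟩
    · have hv' : (fun i => (O p).subtype (w i)) i₀ = 1 := by
        change (O p).subtype (w i₀) = 1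
        rw [hw1, map_one]
      rw [Multiset.map_cons, hX1, map_defl (O p).subtype A i₀ w _ hw1 hew hv'
        (map_eigen _ _ _ _ hew), ← Multiset.singleton_add]
      exact (Sys_defl _ i₀ _ ((O p).subtype.comp (toO χ hχ1)) hv'
        (map_eigen (O p).subtype A w _ hew)).symm
    · have hv' : (fun i => res p (w i)) i₀ = 1 := by
        change res p (w i₀) = 1
        rw [hw1, map_one]
      rw [Multiset.map_cons, hX2, map_defl (res p) A i₀ w _ hw1 hew hv'
        (map_eigen _ _ _ _ hew), ← Multiset.singleton_add]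
      exact (Sys_defl _ i₀ _ ((res p).comp (toO χ hχ1)) hv'
        (map_eigen (res p) A w _ hew)).symm

end Main

/-! ### matrices over `ℤ_p` and over `ℤ` -/

section Zp

/-- `ℤ_p → O p` -/
def zO (p : ℕ) [Fact p.Prime] : ℤ_[p] →+* O p := (zK p).codRestrict (O p) norm_zK_le

theorem subtype_zO : (O p).subtype.comp (zO p) = zK p := by
  ext x
  rfl

/-- the prime field -/
def fK (p : ℕ) [Fact p.Prime] : ZMod p →+* kk p := ZMod.castHom (dvd_refl p) (kk p)

theorem res_zO (x : ℤ_[p]) : res p (zO p x) = fK p (PadicInt.toZMod x) := by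
  have h1 : PadicInt.toZMod (x - ((PadicInt.toZMod x).val : ℤ_[p])) = 0 := by
    rw [map_sub, map_natCast, ZMod.natCast_zmod_val, sub_self]
  have h2 : res p (zO p (x - ((PadicInt.toZMod x).val : ℤ_[p]))) = 0 := by
    rw [res_eq_zero_iff]
    refine lt_of_le_of_lt (norm_zK_lt h1) (inv_lt_one_of_one_lt₀ ?_)
    exact_mod_cast (Fact.out : p.Prime).one_lt
  rw [map_sub, map_sub, map_natCast, map_natCast, sub_eq_zero] at h2
  rw [h2]
  have h3 : fK p (((PadicInt.toZMod x).val : ℕ) : ZMod p) = ((PadicInt.toZMod x).val : kk p) :=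
    map_natCast _ _
  rw [← h3, ZMod.natCast_zmod_val]

theorem res_comp_zO : (res p).comp (zO p) = (fK p).comp PadicInt.toZMod :=
  RingHom.ext res_zO

variable {R : Type*} [CommRing R] {ι : Type*} [Fintype ι] [DecidableEq ι]

/-- commuting matrices over `ℤ_p`, modulo `p`, over the residue field -/
def modP (A : R →+* Matrix ι ι ℤ_[p]) : R →+* Matrix ι ι (kk p) :=
  (fK p).mapMatrix.comp (PadicInt.toZMod.mapMatrix.comp A)

theorem modP_apply (A : R →+* Matrix ι ι ℤ_[p]) (r : R) (i j : ι) :
    modP A r i j = fK p (PadicInt.toZMod (A r i j)) := rfl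

/-- **Reduction of the systems of commuting matrices over `ℤ_p`** -/
theorem exists_lift_zp (A : R →+* Matrix ι ι ℤ_[p]) : ∃ X : Multiset (R →+* O p),
    X.map (fun χ => (O p).subtype.comp χ) = Sys (matRep ((zK p).mapMatrix.comp A)) ∧
      X.map (fun χ => (res p).comp χ) = Sys (matRep (modP A)) := by
  obtain ⟨X, h1, h2⟩ := exists_lift (Fintype.card ι) ι rfl ((zO p).mapMatrix.comp A)
  refine ⟨X, h1, ?_⟩
  have h3 : (res p).mapMatrix.comp ((zO p).mapMatrix.comp A) = modP A := by
    ext r i j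
    exact res_zO (A r i j)
  rw [h2, h3]

/-- **Reduction of the systems of commuting integral matrices** -/
theorem exists_lift_int (A : R →+* Matrix ι ι ℤ) : ∃ X : Multiset (R →+* O p),
    X.map (fun χ => (O p).subtype.comp χ) = Sys (matRep (intRep (PadicAlgCl p) A)) ∧
      X.map (fun χ => (res p).comp χ) = Sys (matRep (intRep (kk p) A)) := by
  obtain ⟨X, h1, h2⟩ := exists_lift (Fintype.card ι) ι rfl
    ((Int.castRingHom (O p)).mapMatrix.comp A)
  have h3 : (O p).subtype.mapMatrix.comp ((Int.castRingHom (O p)).mapMatrix.comp A) =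
      intRep (PadicAlgCl p) A := by
    ext r i j
    exact map_intCast (O p).subtype (A r i j)
  have h4 : (res p).mapMatrix.comp ((Int.castRingHom (O p)).mapMatrix.comp A) =
      intRep (kk p) A := by
    ext r i j
    exact map_intCast (res p) (A r i j)
  exact ⟨X, by rw [h1, h3], by rw [h2, h4]⟩

end Zp

/-! ### counting systems in a residue class -/

section Count

variable {R : Type*} [CommRing R]

theorem card_filter_of_lift {X : Multiset (R →+* O p)} {Y : Multiset (R →+* PadicAlgCl p)}
    {Z : Multiset (R →+* kk p)} (h1 : X.map (fun χ => (O p).subtype.comp χ) = Y)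
    (h2 : X.map (fun χ => (res p).comp χ) = Z) (P : (R →+* PadicAlgCl p) → Prop)
    (Q : (R →+* kk p) → Prop) [DecidablePred P] [DecidablePred Q]
    (hPQ : ∀ χ : R →+* O p, P ((O p).subtype.comp χ) ↔ Q ((res p).comp χ)) :
    (Y.filter P).card = (Z.filter Q).card := by
  rw [← h1, ← h2, Multiset.filter_map, Multiset.filter_map, Multiset.card_map, Multiset.card_map]
  congr 1
  refine Multiset.filter_congr fun χ _ => ?_
  exact hPQ χ

/-- the residue class of the values `c` on the elements `x q`, `q ∈ s` -/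
theorem class_iff {α : Type*} (s : Set α) (x : α → R) (c : α → PadicAlgCl p)
    (hc : ∀ q ∈ s, ‖c q‖ ≤ 1) (d : α → kk p) (hd : ∀ q (hq : q ∈ s), d q = res p ⟨c q, hc q hq⟩)
    (χ : R →+* O p) : (∀ q ∈ s, ‖((O p).subtype.comp χ) (x q) - c q‖ < 1) ↔
      ∀ q ∈ s, ((res p).comp χ) (x q) = d q := by
  constructor
  · intro h q hq
    rw [hd q hq, RingHom.comp_apply, res_eq_iff]
    exact h q hq
  · intro h q hq
    have h1 := h q hq
    rw [hd q hq, RingHom.comp_apply, res_eq_iff] at h1
    exact h1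

open Classical in
/-- the reduction of an element of norm at most one, zero otherwise -/
def resK (x : PadicAlgCl p) : kk p := if h : ‖x‖ ≤ 1 then res p ⟨x, h⟩ else 0

theorem resK_of_le {x : PadicAlgCl p} (h : ‖x‖ ≤ 1) : resK x = res p ⟨x, h⟩ := by
  rw [resK, dif_pos h]

theorem resK_coe (x : O p) : resK (x : PadicAlgCl p) = res p x := resK_of_le x.2

theorem resK_eq_iff {x y : PadicAlgCl p} (hx : ‖x‖ ≤ 1) (hy : ‖y‖ ≤ 1) :
    resK x = resK y ↔ ‖x - y‖ < 1 := by
  rw [resK_of_le hx, resK_of_le hy, res_eq_iff]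

theorem resK_add {x y : PadicAlgCl p} (hx : ‖x‖ ≤ 1) (hy : ‖y‖ ≤ 1) :
    resK (x + y) = resK x + resK y := by
  rw [resK_of_le hx, resK_of_le hy, resK_of_le (norm_add_le_one hx hy), ← map_add]
  rfl

theorem resK_mul {x y : PadicAlgCl p} (hx : ‖x‖ ≤ 1) (hy : ‖y‖ ≤ 1) :
    resK (x * y) = resK x * resK y := by
  rw [resK_of_le hx, resK_of_le hy, resK_of_le ((O p).mul_mem hx hy), ← map_mul]
  rfl

theorem resK_intCast (n : ℤ) : resK (n : PadicAlgCl p) = (n : kk p) := by
  have h1 : (n : PadicAlgCl p) = ((n : O p) : PadicAlgCl p) := rfl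
  rw [h1, resK_coe, map_intCast]

open Classical in
/-- **Counting the systems in a residue class**, for commuting integral matrices -/
theorem card_class_int {ι : Type*} [Fintype ι] [DecidableEq ι] (A : R →+* Matrix ι ι ℤ)
    {α : Type*} (s : Set α) (x : α → R) (c : α → PadicAlgCl p) (hc : ∀ q ∈ s, ‖c q‖ ≤ 1) :
    ((Sys (matRep (intRep (PadicAlgCl p) A))).filter
      fun χ => ∀ q ∈ s, ‖χ (x q) - c q‖ < 1).card =
    ((Sys (matRep (intRep (kk p) A))).filter
      fun ψ => ∀ q ∈ s, ψ (x q) = resK (c q)).card := by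
  obtain ⟨X, h1, h2⟩ := exists_lift_int (p := p) A
  exact card_filter_of_lift h1 h2 _ _ fun χ => class_iff s x c hc _
    (fun q hq => resK_of_le (hc q hq)) χ

open Classical in
/-- **Counting the systems in a residue class**, for commuting matrices over `ℤ_p` -/
theorem card_class_zp {ι : Type*} [Fintype ι] [DecidableEq ι] (A : R →+* Matrix ι ι ℤ_[p])
    {α : Type*} (s : Set α) (x : α → R) (c : α → PadicAlgCl p) (hc : ∀ q ∈ s, ‖c q‖ ≤ 1) :
    ((Sys (matRep ((zK p).mapMatrix.comp A))).filter
      fun χ => ∀ q ∈ s, ‖χ (x q) - c q‖ < 1).card =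
    ((Sys (matRep (modP A))).filter
      fun ψ => ∀ q ∈ s, ψ (x q) = resK (c q)).card := by
  obtain ⟨X, h1, h2⟩ := exists_lift_zp A
  exact card_filter_of_lift h1 h2 _ _ fun χ => class_iff s x c hc _
    (fun q hq => resK_of_le (hc q hq)) χ

end Count

/-! ### block triangular matrices -/

section Reindex

variable {R : Type*} [CommRing R] {K : Type*} [Field K]
  {ι : Type*} [Fintype ι] [DecidableEq ι] {ι' : Type*} [Fintype ι'] [DecidableEq ι']

theorem Sys_reindex (e : ι ≃ ι') (A : R →+* Matrix ι ι K) (A' : R →+* Matrix ι' ι' K)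
    (h : ∀ r i j, A' r (e i) (e j) = A r i j) : Sys (matRep A) = Sys (matRep A') := by
  refine Sys_congr (LinearEquiv.funCongrLeft K K e.symm) fun r u => ?_
  funext i
  obtain ⟨i, rfl⟩ := e.surjective i
  rw [matRep_apply, matRep_apply]
  change (A r).mulVec u (e.symm (e i)) = ∑ j, A' r (e i) j * u (e.symm j)
  rw [e.symm_apply_apply, ← e.sum_comp]
  refine Finset.sum_congr rfl fun j _ => ?_
  rw [h, e.symm_apply_apply]

theorem Sys_of_conj (P Q : Matrix ι ι K) (hPQ : Q * P = 1) (A A' : R →+* Matrix ι ι K)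
    (h : ∀ r, P * A r = A' r * P) : Sys (matRep A) = Sys (matRep A') := by
  have hQP : P * Q = 1 := mul_eq_one_comm.1 hPQ
  refine Sys_congr (LinearEquiv.ofLinearMap P.mulVecLin Q.mulVecLin ?_ ?_) fun r u => ?_
  · rw [← Matrix.mulVecLin_mul, hQP, Matrix.mulVecLin_one]
  · rw [← Matrix.mulVecLin_mul, hPQ, Matrix.mulVecLin_one]
  · rw [matRep_apply, matRep_apply]
    change P.mulVec ((A r).mulVec u) = (A' r).mulVec (P.mulVec u)
    rw [Matrix.mulVec_mulVec, Matrix.mulVec_mulVec, h]

end Reindex

section Block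

variable {R : Type*} [CommRing R] {ι : Type*} [Fintype ι] [DecidableEq ι]
  {S : Type*} [CommRing S]

omit [DecidableEq ι] in
/-- the sum over the indices of a given degree -/
theorem sum_deg (deg : ι → ℕ) (k : ℕ) (f : ι → S) (hf : ∀ i, deg i ≠ k → f i = 0) :
    ∑ i, f i = ∑ i : {x // deg x = k}, f i := by
  rw [← Finset.sum_subtype (Finset.univ.filter fun x => deg x = k) (p := fun x => deg x = k)
    (fun x => by simp) f]
  rw [Finset.sum_filter]
  refine Finset.sum_congr rfl fun i _ => ?_
  split_ifs with h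
  · rfl
  · exact hf i h

/-- the diagonal block in degree `k` of block triangular commuting matrices -/
def blockHom (deg : ι → ℕ) (A : R →+* Matrix ι ι S)
    (hA : ∀ r i j, deg j < deg i → A r i j = 0) (k : ℕ) :
    R →+* Matrix {x // deg x = k} {x // deg x = k} S where
  toFun r := Matrix.of fun x y => A r x y
  map_one' := by
    ext x y
    rw [map_one, Matrix.of_apply, Matrix.one_apply, Matrix.one_apply]
    simp only [Subtype.ext_iff]
  map_mul' r s := by
    ext x y
    rw [map_mul, Matrix.of_apply, Matrix.mul_apply, Matrix.mul_apply]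
    refine sum_deg deg k _ fun i hi => ?_
    rcases lt_or_gt_of_ne hi with h | h
    · rw [hA r x i (by rw [x.2]; exact h), zero_mul]
    · rw [hA s i y (by rw [y.2]; exact h), mul_zero]
  map_zero' := by
    ext x y
    rw [map_zero, Matrix.of_apply]
    rfl
  map_add' r s := by
    ext x y
    rw [map_add, Matrix.of_apply]
    rfl

theorem blockHom_apply (deg : ι → ℕ) (A : R →+* Matrix ι ι S)
    (hA : ∀ r i j, deg j < deg i → A r i j = 0) (k : ℕ) (r : R) (x y : {x // deg x = k}) :
    blockHom deg A hA k r x y = A r x y := rfl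

/-- block triangular on generators -/
theorem block_of_generators {σ : Type*} (deg : ι → ℕ) (A : MvPolynomial σ ℤ →+* Matrix ι ι S)
    (hA : ∀ q i j, deg j < deg i → A (MvPolynomial.X q) i j = 0) :
    ∀ r i j, deg j < deg i → A r i j = 0 := by
  intro r
  induction r using MvPolynomial.induction_on with
  | C a =>
    intro i j hij
    have h1 : (MvPolynomial.C a : MvPolynomial σ ℤ) = (a : MvPolynomial σ ℤ) := by simp
    rw [h1, map_intCast, ← Matrix.diagonal_intCast, Matrix.diagonal_apply_ne]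
    rintro rfl
    exact lt_irrefl _ hij
  | add f g hf hg =>
    intro i j hij
    rw [map_add, Matrix.add_apply, hf i j hij, hg i j hij, add_zero]
  | mul_X f q hf =>
    intro i j hij
    rw [map_mul, Matrix.mul_apply]
    refine Finset.sum_eq_zero fun l _ => ?_
    rcases lt_or_ge (deg l) (deg i) with h | h
    · rw [hf i l h, zero_mul]
    · rw [hA q l j (lt_of_lt_of_le hij h), mul_zero]

variable {K : Type*} [Field K]

/-- the vectors supported in degrees less than `k` -/
def low (K : Type*) [Field K] (deg : ι → ℕ) (k : ℕ) : Submodule K (ι → K) where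
  carrier := {v | ∀ i, k ≤ deg i → v i = 0}
  add_mem' := by
    intro a b ha hb i hi
    rw [Pi.add_apply, ha i hi, hb i hi, add_zero]
  zero_mem' := fun _ _ => rfl
  smul_mem' := by
    intro c x hx i hi
    rw [Pi.smul_apply, hx i hi, smul_zero]

omit [Fintype ι] [DecidableEq ι] in
theorem mem_low {deg : ι → ℕ} {k : ℕ} {v : ι → K} : v ∈ low K deg k ↔ ∀ i, k ≤ deg i → v i = 0 :=
  Iff.rfl

theorem low_stable (deg : ι → ℕ) (A : R →+* Matrix ι ι K)
    (hA : ∀ r i j, deg j < deg i → A r i j = 0) (k : ℕ) (r : R) :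
    ∀ v ∈ low K deg k, matRep A r v ∈ low K deg k := by
  intro v hv i hi
  rw [matRep_apply]
  refine Finset.sum_eq_zero fun j _ => ?_
  change A r i j * v j = 0
  rcases lt_or_ge (deg j) (deg i) with h | h
  · rw [hA r i j h, zero_mul]
  · rw [hv j (hi.trans h), mul_zero]

theorem Sys_low [IsAlgClosed K] (deg : ι → ℕ) (A : R →+* Matrix ι ι K)
    (hA : ∀ r i j, deg j < deg i → A r i j = 0) (k : ℕ) :
    Sys (subRep (matRep A) (low K deg k) (low_stable deg A hA k)) =
      ∑ i ∈ Finset.range k, Sys (matRep (blockHom deg A hA i)) := by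
  induction k with
  | zero =>
    rw [Finset.range_zero, Finset.sum_empty, ← Multiset.card_eq_zero, card_Sys,
      Submodule.finrank_eq_zero]
    rw [eq_bot_iff]
    intro v hv
    rw [Submodule.mem_bot]
    funext i
    exact hv i (Nat.zero_le _)
  | succ k ih =>
    rw [Finset.sum_range_succ, ← ih]
    have hle : low K deg k ≤ low K deg (k + 1) := fun v hv i hi => hv i (by omega)
    refine Sys_exact (f := Submodule.inclusion hle)
      (g := (LinearMap.funLeft K K (fun x : {x // deg x = k} => (x : ι))).comp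
        (low K deg (k + 1)).subtype) ?_ ?_ ?_ ?_ ?_
    · intro r u
      rfl
    · intro r v
      funext x
      rw [matRep_apply]
      change ∑ j, A r x j * (v : ι → K) j = ∑ y : {y // deg y = k}, A r x y * (v : ι → K) y
      refine sum_deg deg k _ fun j hj => ?_
      rcases lt_or_gt_of_ne hj with h | h
      · rw [hA r x j (by rw [x.2]; exact h), zero_mul]
      · rw [v.2 j h, mul_zero]
    · exact Submodule.inclusion_injective hle
    · intro w
      refine ⟨⟨fun i => if hi : deg i = k then w ⟨i, hi⟩ else 0, fun i hi => ?_⟩, ?_⟩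
      · exact dif_neg (by omega)
      · funext x
        change (if hi : deg (x : ι) = k then w ⟨x, hi⟩ else 0) = w x
        rw [dif_pos x.2]
    · ext v
      rw [LinearMap.mem_range, LinearMap.mem_ker]
      constructor
      · rintro ⟨u, rfl⟩
        funext x
        exact u.2 x (by rw [x.2])
      · intro hv
        refine ⟨⟨v, fun i hi => ?_⟩, rfl⟩
        rcases Nat.lt_or_ge k (deg i) with h | h
        · exact v.2 i h
        · exact congrFun hv ⟨i, le_antisymm h hi⟩

/-- **Systems of block triangular matrices** -/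
theorem Sys_block [IsAlgClosed K] (deg : ι → ℕ) (A : R →+* Matrix ι ι K)
    (hA : ∀ r i j, deg j < deg i → A r i j = 0) (n : ℕ) (hn : ∀ i, deg i < n) :
    Sys (matRep A) = ∑ i ∈ Finset.range n, Sys (matRep (blockHom deg A hA i)) := by
  rw [← Sys_low deg A hA n]
  symm
  have htop : low K deg n = ⊤ := by
    rw [eq_top_iff]
    intro v _ i hi
    exact absurd (hn i) (not_lt.2 hi)
  refine Sys_congr (LinearEquiv.ofBijective (low K deg n).subtype
    ⟨(low K deg n).injective_subtype, fun v => ⟨⟨v, by rw [htop]; trivial⟩, rfl⟩⟩) fun r u => rfl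

/-- **Systems of block triangular matrices**, the blocks being indexed by `Fin n` -/
theorem Sys_prod [IsAlgClosed K] {α : Type*} [Fintype α] [DecidableEq α] {n : ℕ}
    (A : R →+* Matrix (α × Fin n) (α × Fin n) K) (g : Fin n → R →+* Matrix α α K)
    (hA : ∀ r x y i j, j < i → A r (x, i) (y, j) = 0)
    (hg : ∀ i r x y, g i r x y = A r (x, i) (y, i)) :
    Sys (matRep A) = ∑ i, Sys (matRep (g i)) := by
  have hA' : ∀ r (i j : α × Fin n), ((j.2 : Fin n) : ℕ) < ((i.2 : Fin n) : ℕ) → A r i j = 0 :=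
    fun r i j hij => hA r i.1 j.1 i.2 j.2 hij
  rw [Sys_block (fun x : α × Fin n => ((x.2 : Fin n) : ℕ)) A hA' n (fun x => x.2.2),
    Finset.sum_range]
  refine Finset.sum_congr rfl fun i _ => ?_
  refine (Sys_reindex ⟨fun a => ⟨(a, i), rfl⟩, fun x => x.1.1, fun a => rfl, fun x => ?_⟩
    (g i) _ fun r a b => ?_).symm
  · obtain ⟨⟨a, j⟩, hj⟩ := x
    have hj' : j = i := Fin.ext hj
    subst hj'
    rfl
  · rw [hg]
    rfl

/-- **Systems of block triangular matrices**, the other orientation -/
theorem Sys_prod' [IsAlgClosed K] {α : Type*} [Fintype α] [DecidableEq α] {n : ℕ}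
    (A : R →+* Matrix (α × Fin n) (α × Fin n) K) (g : Fin n → R →+* Matrix α α K)
    (hA : ∀ r x y i j, i < j → A r (x, i) (y, j) = 0)
    (hg : ∀ i r x y, g i r x y = A r (x, i) (y, i)) :
    Sys (matRep A) = ∑ i, Sys (matRep (g i)) := by
  have hA' : ∀ r (i j : α × Fin n), ((j.2.rev : Fin n) : ℕ) < ((i.2.rev : Fin n) : ℕ) →
      A r i j = 0 := by
    intro r i j hij
    refine hA r i.1 j.1 i.2 j.2 ?_
    have h1 : j.2.rev < i.2.rev := hij
    exact Fin.rev_lt_rev.1 h1
  rw [Sys_block (fun x : α × Fin n => ((x.2.rev : Fin n) : ℕ)) A hA' n (fun x => x.2.rev.2),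
    Finset.sum_range, ← Equiv.sum_comp Fin.revPerm]
  refine Finset.sum_congr rfl fun i _ => ?_
  refine (Sys_reindex ⟨fun a => ⟨(a, i), rfl⟩, fun x => x.1.1, fun a => rfl, fun x => ?_⟩
    (g i) _ fun r a b => ?_).symm
  · obtain ⟨⟨a, j⟩, hj⟩ := x
    have hj' : j = i := Fin.rev_injective (Fin.ext hj)
    subst hj'
    rfl
  · rw [hg]
    rfl

end Block

end Gouvea.Red
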