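import Pool.Agent.Work.MP_d3517d_nt.Posit

/-!
# Positivity from the properties of the graded counts (MP_d3517d_nt)

`d J n i` (`J` in a set of states with a twist `T`) is periodic in `n` and `i`, symmetric under
`i ↦ n - i`, compatible with the twist, and its sums over `i ≤ n` are non negative for all large
`n`.  Then the sum over a period is non negative (`period_nonneg`), and if it is zero then all the
`d J n i` vanish (`all_zero`); so if one of the sums over `i ≤ n` does not vanish, then these sums
grow linearly in the class of `n` (`growth`).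
-/

set_option autoImplicit false

open Finset

namespace Gouvea.Posit

/-- the properties of the graded counts -/
structure IsCnt (P : ℕ) {S : Type*} (T : S → S) (d : S → ℕ → ℕ → ℤ) : Prop where
  per_n : ∀ J n i, d J (n + P) i = d J n i
  per_i : ∀ J n i, d J n (i + P) = d J n i
  rev : ∀ J n, Even n → ∀ i, i ≤ n → d J n (n - i) = d J n i
  tw : ∀ J n, Even n → ∀ i, d J (n + 2) (i + 1) = d (T J) n i
  pos : ∀ J, ∃ n₁ : ℕ, ∀ n, n₁ ≤ n → Even n → 0 ≤ ∑ i ∈ range (n + 1), d J n i

namespace IsCnt

variable {P : ℕ} {S : Type*} {T : S → S} {d : S → ℕ → ℕ → ℤ} (h : IsCnt P T d)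
include h

lemma per_n' (J : S) (n i m : ℕ) : d J (n + P * m) i = d J n i := by
  induction m with
  | zero => simp
  | succ m ih => rw [mul_add, mul_one, ← add_assoc, h.per_n, ih]

lemma per_i' (J : S) (n i m : ℕ) : d J n (i + P * m) = d J n i := by
  induction m with
  | zero => simp
  | succ m ih => rw [mul_add, mul_one, ← add_assoc, h.per_i, ih]

lemma mod_i (J : S) (n i : ℕ) : d J n (i % P) = d J n i := by
  conv_rhs => rw [← Nat.mod_add_div i P]
  rw [h.per_i']

/-- sums over intervals -/
lemma sum_range_add_mul (J : S) (n L m : ℕ) : ∑ i ∈ range (L + P * m), d J n i =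
    ∑ i ∈ range L, d J n i + m * ∑ i ∈ range P, d J n i := by
  induction m with
  | zero => simp
  | succ m ih =>
    have h1 : ∑ i ∈ range P, d J n (L + P * m + i) = ∑ i ∈ range P, d J n i := by
      rcases Nat.eq_zero_or_pos P with hP | hP
      · subst hP; simp
      · refine Finset.sum_nbij' (fun i => (L + P * m + i) % P)
          (fun x => (x + (P - (L + P * m) % P)) % P)
          (fun i _ => mem_range.2 (Nat.mod_lt _ hP)) (fun x _ => mem_range.2 (Nat.mod_lt _ hP))
          (fun i hi => ?_) (fun x hx => ?_) (fun i _ => (h.mod_i J n _).symm)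
        · have h2 := Nat.mod_lt (L + P * m) hP
          have h3 : (L + P * m + i) % P + (P - (L + P * m) % P) ≡ i [MOD P] := by
            have h4 : (L + P * m + i) % P + (P - (L + P * m) % P) ≡
                (L + P * m + i) + (P - (L + P * m) % P) [MOD P] :=
              Nat.ModEq.add_right _ (Nat.mod_modEq _ _)
            refine h4.trans ?_
            have h5 : L + P * m + i + (P - (L + P * m) % P) =
                i + P * ((L + P * m) / P + 1) := by
              have h6 := Nat.mod_add_div (L + P * m) P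
              zify [h2.le]
              zify at h6
              linear_combination -h6
            rw [h5]
            exact Nat.add_mul_mod_self_left _ _ _
          rw [h3]
          exact Nat.mod_eq_of_lt (mem_range.1 hi)
        · have h2 := Nat.mod_lt (L + P * m) hP
          have h3 : L + P * m + (x + (P - (L + P * m) % P)) % P ≡ x [MOD P] := by
            have h4 : L + P * m + (x + (P - (L + P * m) % P)) % P ≡
                L + P * m + (x + (P - (L + P * m) % P)) [MOD P] :=
              Nat.ModEq.add_left _ (Nat.mod_modEq _ _)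
            refine h4.trans ?_
            have h5 : L + P * m + (x + (P - (L + P * m) % P)) =
                x + P * ((L + P * m) / P + 1) := by
              have h6 := Nat.mod_add_div (L + P * m) P
              zify [h2.le]
              zify at h6
              linear_combination -h6
            rw [h5]
            exact Nat.add_mul_mod_self_left _ _ _
          rw [h3]
          exact Nat.mod_eq_of_lt (mem_range.1 hx)
    rw [mul_add, mul_one, ← add_assoc, Finset.sum_range_add, ih, h1]
    push_cast
    ring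

/-- **The sum over a period is non negative.** -/
theorem period_nonneg [NeZero P] (J : S) {n : ℕ} (hn : Even n) :
    0 ≤ ∑ i ∈ range P, d J n i := by
  by_contra hneg
  push Not at hneg
  obtain ⟨n₁, hn₁⟩ := h.pos J
  set A : ℤ := ∑ i ∈ range (n + 1), d J n i with hA
  -- a large weight in the class
  set m : ℕ := 2 * (n₁ + A.natAbs + 1) with hm
  have hP := NeZero.pos P
  have hle : n₁ ≤ n + P * m := by
    have : 1 * m ≤ P * m := Nat.mul_le_mul_right _ hP
    omega
  have hev : Even (n + P * m) := hn.add ((even_two_mul _).mul_left _)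
  have h1 := hn₁ _ hle hev
  have e1 : n + P * m + 1 = n + 1 + P * m := by ring
  rw [e1] at h1
  have e2 : ∀ i ∈ range (n + 1 + P * m), d J (n + P * m) i = d J n i :=
    fun i _ => h.per_n' J n i m
  rw [Finset.sum_congr rfl e2, h.sum_range_add_mul, ← hA] at h1
  have h2 : (m : ℤ) * ∑ i ∈ range P, d J n i ≤ (m : ℤ) * (-1) :=
    mul_le_mul_of_nonneg_left (by omega) (by positivity)
  have h3 : (A.natAbs : ℤ) = |A| := Int.natCast_natAbs A
  have h4 := le_abs_self A
  have h5 : (m : ℤ) = 2 * (n₁ + A.natAbs + 1) := by rw [hm]; push_cast; ring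
  have h6 : (0 : ℤ) ≤ n₁ := by positivity
  have h7 := abs_nonneg A
  nlinarith

/-- the function on residue classes -/
lemma val_cast [NeZero P] (J : S) (n k : ℕ) : d J n ((k : ZMod P)).val = d J n k := by
  rw [ZMod.val_natCast, h.mod_i]

lemma sum_zmod [NeZero P] (J : S) (n : ℕ) :
    ∑ x : ZMod P, d J n x.val = ∑ i ∈ range P, d J n i := by
  refine Finset.sum_nbij' (fun x => x.val) (fun i => (i : ZMod P))
    (fun x _ => mem_range.2 (ZMod.val_lt _)) (fun i _ => mem_univ _) (fun x _ => ?_)
    (fun i hi => ?_) (fun x _ => rfl)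
  · exact ZMod.natCast_zmod_val x
  · rw [ZMod.val_natCast, Nat.mod_eq_of_lt (mem_range.1 hi)]

/-- **If the sum over a period is zero, then everything is zero.** -/
theorem all_zero [NeZero P] (J : S) {n : ℕ} (hn : Even n)
    (h0 : ∑ i ∈ range P, d J n i = 0) (i : ℕ) : d J n i = 0 := by
  -- the states
  let X : Type _ := {x : S × ℕ // Even x.2}
  let tw : X → X := fun x => ⟨(T x.1.1, x.1.2 + P * 2 + (P * 2 - 2)), by
    have h1 : Even (P * 2 - 2) := ⟨P - 1, by omega⟩
    exact (x.2.add ⟨P, by ring⟩).add h1⟩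
  have hPpos := NeZero.pos P
  have key := core_states (P := P) (X := X) (fun x => ((x.1.2 : ℕ) : ZMod P)) tw
    (fun x => by
      show ((x.1.2 + P * 2 + (P * 2 - 2) : ℕ) : ZMod P) = ((x.1.2 : ℕ) : ZMod P) - 2
      have h1 : ((x.1.2 + P * 2 + (P * 2 - 2) + 2 : ℕ) : ZMod P) = (x.1.2 : ZMod P) := by
        have : x.1.2 + P * 2 + (P * 2 - 2) + 2 = x.1.2 + P * 4 := by omega
        rw [this]
        push_cast
        rw [ZMod.natCast_self]
        ring
      rw [← h1]
      push_cast
      ring)
    (fun x k => d x.1.1 x.1.2 k.val)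
    (fun x k => by
      show d (T x.1.1) (x.1.2 + P * 2 + (P * 2 - 2)) k.val = d x.1.1 x.1.2 (k + 1).val
      rw [← h.tw _ _ (tw x).2]
      have h1 : x.1.2 + P * 2 + (P * 2 - 2) + 2 = x.1.2 + P * 4 := by omega
      have h2 : (k + 1).val = (k.val + 1) % P := by
        conv_lhs => rw [← ZMod.natCast_zmod_val k]
        rw [← Nat.cast_one, ← Nat.cast_add, ZMod.val_natCast]
      show d x.1.1 (x.1.2 + P * 2 + (P * 2 - 2) + 2) (k.val + 1) = _
      rw [h1, h.per_n', h2, h.mod_i])
    (fun x k => by
      show d x.1.1 x.1.2 (((x.1.2 : ℕ) : ZMod P) - k).val = d x.1.1 x.1.2 k.val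
      -- a large weight
      have h1 : k.val ≤ x.1.2 + P * (2 * k.val) := by
        have : 1 * (2 * k.val) ≤ P * (2 * k.val) := Nat.mul_le_mul_right _ hPpos
        omega
      have h2 := h.rev x.1.1 (x.1.2 + P * (2 * k.val)) (x.2.add ((even_two_mul _).mul_left _))
        k.val h1
      rw [h.per_n', h.per_n'] at h2
      rw [← h2, ← h.val_cast (P := P) x.1.1 x.1.2 (x.1.2 + P * (2 * k.val) - k.val)]
      congr 2
      rw [Nat.cast_sub h1]
      push_cast
      rw [ZMod.natCast_self, ZMod.natCast_zmod_val]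
      ring)
    (fun x => by
      obtain ⟨n₁, hn₁⟩ := h.pos x.1.1
      refine ⟨x.1.2 + P * (2 * n₁), by push_cast; rw [ZMod.natCast_self]; ring, ?_⟩
      have h1 : n₁ ≤ x.1.2 + P * (2 * n₁) := by
        have : 1 * (2 * n₁) ≤ P * (2 * n₁) := Nat.mul_le_mul_right _ hPpos
        omega
      refine (hn₁ _ h1 (x.2.add ((even_two_mul _).mul_left _))).trans (le_of_eq ?_)
      refine Finset.sum_congr rfl fun i _ => ?_
      show d x.1.1 (x.1.2 + P * (2 * n₁)) i = d x.1.1 x.1.2 ((i : ZMod P)).val
      rw [h.per_n', h.val_cast])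
    ⟨(J, n), hn⟩ (by
      show ∑ k : ZMod P, d J n k.val = 0
      rw [h.sum_zmod, h0]) (i : ZMod P)
  have h1 : d J n ((i : ZMod P)).val = 0 := key
  rwa [h.val_cast] at h1

/-- **Growth.** If one of the sums does not vanish in the class of `n₀`, then the sums grow at
least like `(n + 1) / P`. -/
theorem growth [NeZero P] (J : S) {n₀ n' : ℕ} (hn₀ : Even n₀)
    (hcl : n' ≡ n₀ [MOD P]) (hne : ∑ i ∈ range (n' + 1), d J n' i ≠ 0) :
    ∃ C : ℤ, ∀ n, n ≡ n₀ [MOD P] →
      ((n + 1) / P : ℕ) - C ≤ ∑ i ∈ range (n + 1), d J n i := by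
  -- the function depends on the class only
  have hcls : ∀ n, n ≡ n₀ [MOD P] → ∀ i, d J n i = d J n₀ i := by
    intro n hn i
    have h1 : ∀ m k, d J (m % P) k = d J m k := by
      intro m k
      conv_rhs => rw [← Nat.mod_add_div m P]
      rw [h.per_n']
    rw [← h1 n, ← h1 n₀, hn]
  have hper : 1 ≤ ∑ i ∈ range P, d J n₀ i := by
    have h1 := h.period_nonneg (P := P) J hn₀
    rcases h1.lt_or_eq with h2 | h2
    · omega
    · exfalso
      apply hne
      refine Finset.sum_eq_zero fun i _ => ?_
      rw [hcls _ hcl]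
      exact h.all_zero J hn₀ h2.symm i
  refine ⟨∑ i ∈ range P, |d J n₀ i|, fun n hn => ?_⟩
  have e1 : ∑ i ∈ range (n + 1), d J n i = ∑ i ∈ range (n + 1), d J n₀ i :=
    Finset.sum_congr rfl fun i _ => hcls n hn i
  have e2 : n + 1 = (n + 1) % P + P * ((n + 1) / P) := (Nat.mod_add_div _ _).symm
  have e3 : ∑ i ∈ range (n + 1), d J n₀ i = ∑ i ∈ range ((n + 1) % P), d J n₀ i +
      ((n + 1) / P : ℕ) * ∑ i ∈ range P, d J n₀ i := by
    conv_lhs => rw [e2]
    exact h.sum_range_add_mul J n₀ _ _
  rw [e1, e3]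
  have h2 : -(∑ i ∈ range P, |d J n₀ i|) ≤ ∑ i ∈ range ((n + 1) % P), d J n₀ i := by
    have h3 : ∑ i ∈ range ((n + 1) % P), |d J n₀ i| ≤ ∑ i ∈ range P, |d J n₀ i| := by
      refine Finset.sum_le_sum_of_subset_of_nonneg ?_ fun i _ _ => abs_nonneg _
      exact Finset.range_subset_range.2 (Nat.mod_lt _ (NeZero.pos P)).le
    have h4 : -(∑ i ∈ range ((n + 1) % P), |d J n₀ i|) ≤
        ∑ i ∈ range ((n + 1) % P), d J n₀ i := by
      rw [← Finset.sum_neg_distrib]
      exact Finset.sum_le_sum fun i _ => neg_abs_le _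
    linarith
  have h5 : (((n + 1) / P : ℕ) : ℤ) * 1 ≤ (((n + 1) / P : ℕ) : ℤ) * ∑ i ∈ range P, d J n₀ i :=
    mul_le_mul_of_nonneg_left hper (by positivity)
  linarith

end IsCnt

end Gouvea.Posit
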