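import Pool.Agent.Work.MP_d3517d_nt.Idem
import Pool.Agent.Work.MP_d3517d_nt.Hodge
import Pool.Agent.Work.MP_d3517d_nt.Sys.Padic

/-!
# The idempotent of an ideal at the Iwahori level (MP_d3517d_nt)

`exists_summE` : the summand at an ideal with its ranks `finrank (idNil H I n i)` and the
characterisation of its image at the Iwahori level; `count_E` : the number of systems of
eigenvalues at the Iwahori level which are small on an ideal is the sum of these ranks.
-/

open Finset Filter Topology Pool.Agent.Gouv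

noncomputable section

namespace Gouvea

variable {p : ℕ} [Fact p.Prime] {h : ℕ} {E V : Type} [Fintype E] [DecidableEq E] [Fintype V]
  [DecidableEq V] {D : Dat p h E V} {R : Type} [CommRing R]

theorem exists_summEV (H : HRep D R) (I : Ideal R) (n : ℕ) (hn : Even n) :
    ∃ s : Summ D n, (∀ i : Fin (n + 1), s.d i = Module.finrank (ZMod p) (idNil H I n i)) ∧
      (∀ v : E × Fin (n + 1) → ℚ_[p],
        (∀ t ∈ I, ∀ i, Tendsto (fun N : ℕ => ((toQ (H.TE n hn t)) ^ N).mulVec v i) atTop (𝓝 0)) ↔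
        (toQ s.εE).mulVec v = v) ∧
      ∀ v : V × Fin (n + 1) → ℚ_[p],
        (∀ t ∈ I, ∀ i, Tendsto (fun N : ℕ => ((toQ (H.TV n hn t)) ^ N).mulVec v i) atTop (𝓝 0)) ↔
        (toQ s.εV).mulVec v = v := by
  set φ : R →+* Matrix (E × Fin (n + 1)) (E × Fin (n + 1)) (ZMod p) ×
      Matrix (V × Fin (n + 1)) (V × Fin (n + 1)) (ZMod p) :=
    ((RingHom.mapMatrix PadicInt.toZMod).comp (H.TE n hn)).prod
      ((RingHom.mapMatrix PadicInt.toZMod).comp (H.TV n hn)) with hφ
  have hφ1 : ∀ x, (φ x).1 = (H.TE n hn x).map PadicInt.toZMod := fun x => rfl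
  have hφ2 : ∀ x, (φ x).2 = (H.TV n hn x).map PadicInt.toZMod := fun x => rfl
  have : Finite (Matrix (E × Fin (n + 1)) (E × Fin (n + 1)) (ZMod p)) :=
    inferInstanceAs (Finite (E × Fin (n + 1) → E × Fin (n + 1) → ZMod p))
  have : Finite (Matrix (V × Fin (n + 1)) (V × Fin (n + 1)) (ZMod p)) :=
    inferInstanceAs (Finite (V × Fin (n + 1) → V × Fin (n + 1) → ZMod p))
  obtain ⟨t, ht, htt, hbig⟩ := exists_big φ I
  have hE0 : (H.TE n hn t * H.TE n hn t).map PadicInt.toZMod =
      (H.TE n hn t).map PadicInt.toZMod := by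
    rw [← map_mul, ← hφ1, ← hφ1, map_mul, htt]
  have hV0 : (H.TV n hn t * H.TV n hn t).map PadicInt.toZMod =
      (H.TV n hn t).map PadicInt.toZMod := by
    rw [← map_mul, ← hφ2, ← hφ2, map_mul, htt]
  obtain ⟨eE, hEl, hEi, hEm⟩ := exists_limit (H.TE n hn) t hE0
  obtain ⟨eV, hVl, hVi, hVm⟩ := exists_limit (H.TV n hn) t hV0
  have hcW : eE * D.W n = D.W n * eE := by
    have h1 : Tendsto (fun k => H.TE n hn (tt t k) * D.W n) atTop (𝓝 (eE * D.W n)) :=
      ((continuous_id.matrix_mul continuous_const).tendsto eE).comp hEl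
    have h2 : Tendsto (fun k => D.W n * H.TE n hn (tt t k)) atTop (𝓝 (D.W n * eE)) :=
      ((continuous_const.matrix_mul continuous_id).tendsto eE).comp hEl
    simp only [H.comW] at h1
    exact tendsto_nhds_unique h1 h2
  have hcι : eE * D.ι n = D.ι n * eV := by
    have h1 : Tendsto (fun k => H.TE n hn (tt t k) * D.ι n) atTop (𝓝 (eE * D.ι n)) :=
      ((continuous_id.matrix_mul continuous_const).tendsto eE).comp hEl
    have h2 : Tendsto (fun k => D.ι n * H.TV n hn (tt t k)) atTop (𝓝 (D.ι n * eV)) :=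
      ((continuous_const.matrix_mul continuous_id).tendsto eV).comp hVl
    simp only [H.comι] at h1
    exact tendsto_nhds_unique h1 h2
  have hcπ : D.π n * eE = eV * D.π n := by
    have h1 : Tendsto (fun k => D.π n * H.TE n hn (tt t k)) atTop (𝓝 (D.π n * eE)) :=
      ((continuous_const.matrix_mul continuous_id).tendsto eE).comp hEl
    have h2 : Tendsto (fun k => H.TV n hn (tt t k) * D.π n) atTop (𝓝 (eV * D.π n)) :=
      ((continuous_id.matrix_mul continuous_const).tendsto eV).comp hVl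
    simp only [H.comπ] at h1
    exact tendsto_nhds_unique h1 h2
  have hcE : ∀ u, eE * H.TE n hn u = H.TE n hn u * eE := by
    intro u
    have h1 : Tendsto (fun k => H.TE n hn (tt t k) * H.TE n hn u) atTop
        (𝓝 (eE * H.TE n hn u)) :=
      ((continuous_id.matrix_mul continuous_const).tendsto eE).comp hEl
    have h2 : Tendsto (fun k => H.TE n hn u * H.TE n hn (tt t k)) atTop
        (𝓝 (H.TE n hn u * eE)) :=
      ((continuous_const.matrix_mul continuous_id).tendsto eE).comp hEl
    have h3 : ∀ k, H.TE n hn (tt t k) * H.TE n hn u = H.TE n hn u * H.TE n hn (tt t k) := by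
      intro k
      rw [← map_mul, mul_comm, map_mul]
    simp only [h3] at h1
    exact tendsto_nhds_unique h1 h2
  have hcV : ∀ u, eV * H.TV n hn u = H.TV n hn u * eV := by
    intro u
    have h1 : Tendsto (fun k => H.TV n hn (tt t k) * H.TV n hn u) atTop
        (𝓝 (eV * H.TV n hn u)) :=
      ((continuous_id.matrix_mul continuous_const).tendsto eV).comp hVl
    have h2 : Tendsto (fun k => H.TV n hn u * H.TV n hn (tt t k)) atTop
        (𝓝 (H.TV n hn u * eV)) :=
      ((continuous_const.matrix_mul continuous_id).tendsto eV).comp hVl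
    have h3 : ∀ k, H.TV n hn (tt t k) * H.TV n hn u = H.TV n hn u * H.TV n hn (tt t k) := by
      intro k
      rw [← map_mul, mul_comm, map_mul]
    simp only [h3] at h1
    exact tendsto_nhds_unique h1 h2
  have hs1 : (1 - eE) * (1 - eE) = 1 - eE := by
    rw [sub_mul, mul_sub, mul_sub, hEi]
    simp
  have hs2 : (1 - eV) * (1 - eV) = 1 - eV := by
    rw [sub_mul, mul_sub, mul_sub, hVi]
    simp
  have hs3 : (1 - eE) * D.W n = D.W n * (1 - eE) := by
    rw [sub_mul, mul_sub, hcW, one_mul, mul_one]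
  have hs4 : (1 - eE) * D.ι n = D.ι n * (1 - eV) := by
    rw [Matrix.sub_mul, Matrix.mul_sub, hcι, Matrix.one_mul, Matrix.mul_one]
  have hs5 : D.π n * (1 - eE) = (1 - eV) * D.π n := by
    rw [Matrix.sub_mul, Matrix.mul_sub, hcπ, Matrix.one_mul, Matrix.mul_one]
  have hs6 : ∀ x y, y.2 < x.2 → (p : ℤ_[p]) ∣ (1 - eE) x y := by
    intro x y hxy
    have hne : x ≠ y := by
      rintro rfl
      exact lt_irrefl _ hxy
    rw [Matrix.sub_apply, Matrix.one_apply_ne hne, zero_sub, dvd_neg]
    have h1 := dvd_of_map_eq hEm x y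
    have h2 := H.tri n hn t x y hxy
    have h3 := dvd_add h1 h2
    simpa using h3
  refine ⟨⟨1 - eE, 1 - eV, hs1, hs2, hs3, hs4, hs5, hs6⟩, ?_, ?_, ?_⟩
  · intro i
    rw [Summ.d]
    set G := grHom H n hn i t with hG
    have hmat : (Matrix.of fun e e' : E => PadicInt.toZMod ((1 - eE) (e, i) (e', i))) =
        1 - G := by
      ext e e'
      have h1 : PadicInt.toZMod (eE (e, i) (e', i)) = G e e' := by
        have h2 := congrFun (congrFun hEm (e, i)) (e', i)
        simp only [Matrix.map_apply] at h2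
        rw [h2, H.gr_eq, hG, grHom_apply]
      rw [Matrix.of_apply, Matrix.sub_apply, map_sub, h1, Matrix.sub_apply]
      congr 1
      by_cases he : e = e'
      · subst he
        simp
      · rw [Matrix.one_apply_ne he, Matrix.one_apply_ne (by simpa using he), map_zero]
    rw [hmat, Matrix.rank]
    have hker : ∀ x : R, (φ x).1 = 0 → grHom H n hn i x = 0 := by
      intro x hx
      ext e e'
      rw [grHom_apply, ← H.gr_eq n hn]
      have h2 := congrFun (congrFun hx (e, i)) (e', i)
      rw [hφ1] at h2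
      simpa using h2
    have hGG : G * G = G := by
      have h1 := hker (t * t - t) (by rw [map_sub, map_mul, htt, sub_self]; rfl)
      rw [map_sub, map_mul, sub_eq_zero] at h1
      exact h1
    have hGu : ∀ u ∈ I, ∃ k, grHom H n hn i u ^ k * (1 - G) = 0 := by
      intro u hu
      obtain ⟨k, _, hk⟩ := hbig u hu
      refine ⟨k, ?_⟩
      have h1 := hker (u ^ k * (1 - t)) (by
        rw [map_mul, map_pow, map_sub, map_one, hk]
        rfl)
      rw [map_mul, map_pow, map_sub, map_one] at h1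
      exact h1
    have hsub : LinearMap.range (1 - G).mulVecLin = idNil H I n i := by
      ext v
      constructor
      · rintro ⟨w, rfl⟩ u hu
        obtain ⟨k, hk⟩ := hGu u hu
        refine ⟨k, ?_⟩
        rw [← grHom_apply H n hn, Matrix.mulVecLin_apply, Matrix.mulVec_mulVec, hk,
          Matrix.zero_mulVec]
      · intro hv
        obtain ⟨k, hk⟩ := hv t ht
        have h1 : G.mulVec v = 0 := by
          rw [← grHom_apply H n hn, ← hG] at hk
          have h2 : ∀ k : ℕ, G * G ^ k = G := by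
            intro k
            induction k with
            | zero => simp
            | succ k ih => rw [pow_succ, ← mul_assoc, ih, hGG]
          rw [← h2 k, ← Matrix.mulVec_mulVec, hk, Matrix.mulVec_zero]
        refine ⟨v, ?_⟩
        rw [Matrix.mulVecLin_apply, Matrix.sub_mulVec, Matrix.one_mulVec, h1, sub_zero]
    rw [hsub]
  · intro v
    refine tendsto_iff (H.TE n hn) ht hEi hEm hcE (fun u hu => ?_) v
    obtain ⟨k, hk, hk'⟩ := hbig u hu
    refine ⟨k, hk, ?_⟩
    have h1 : φ u ^ k * (1 - φ t) = φ (u ^ k * (1 - t)) := by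
      rw [map_mul, map_pow, map_sub, map_one]
    rw [h1] at hk'
    have h2 := hφ1 (u ^ k * (1 - t))
    rw [hk', map_mul, map_pow, map_sub, map_one] at h2
    exact h2.symm
  · intro v
    refine tendsto_iff (H.TV n hn) ht hVi hVm hcV (fun u hu => ?_) v
    obtain ⟨k, hk, hk'⟩ := hbig u hu
    refine ⟨k, hk, ?_⟩
    have h1 : φ u ^ k * (1 - φ t) = φ (u ^ k * (1 - t)) := by
      rw [map_mul, map_pow, map_sub, map_one]
    rw [h1] at hk'
    have h2 := hφ2 (u ^ k * (1 - t))
    rw [hk', map_mul, map_pow, map_sub, map_one] at h2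
    exact h2.symm

theorem exists_summE (H : HRep D R) (I : Ideal R) (n : ℕ) (hn : Even n) :
    ∃ s : Summ D n, (∀ i : Fin (n + 1), s.d i = Module.finrank (ZMod p) (idNil H I n i)) ∧
      ∀ v : E × Fin (n + 1) → ℚ_[p],
        (∀ t ∈ I, ∀ i, Tendsto (fun N : ℕ => ((toQ (H.TE n hn t)) ^ N).mulVec v i) atTop (𝓝 0)) ↔
        (toQ s.εE).mulVec v = v := by
  obtain ⟨s, h1, h2, -⟩ := exists_summEV H I n hn
  exact ⟨s, h1, h2⟩

/-- the ranks of the graded pieces -/
def dE (H : HRep D R) (I : Ideal R) (n i : ℕ) : ℕ := Module.finrank (ZMod p) (idNil H I n i)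

theorem dE_n (H : HRep D R) (I : Ideal R) (n i : ℕ) : dE H I (n + (p - 1)) i = dE H I n i := by
  have h1 : idNil H I (n + (p - 1)) i = idNil H I n i := by
    ext v
    change (∀ t ∈ I, ∃ k, ((H.gr (n + (p - 1)) i t) ^ k).mulVec v = 0) ↔
      (∀ t ∈ I, ∃ k, ((H.gr n i t) ^ k).mulVec v = 0)
    simp only [H.gr_n]
  rw [dE, h1]
  rfl

theorem dE_i (H : HRep D R) (I : Ideal R) (n i : ℕ) : dE H I n (i + (p - 1)) = dE H I n i := by
  have h1 : idNil H I n (i + (p - 1)) = idNil H I n i := by
    ext v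
    change (∀ t ∈ I, ∃ k, ((H.gr n (i + (p - 1)) t) ^ k).mulVec v = 0) ↔
      (∀ t ∈ I, ∃ k, ((H.gr n i t) ^ k).mulVec v = 0)
    simp only [H.gr_i]
  rw [dE, h1]
  rfl

/-- **The summands at an ideal**, with explicit ranks. -/
theorem exists_summ_dE (H : HRep D R) (I : Ideal R) :
    ∃ s : ∀ n, Even n → Summ D n,
      (∀ n hn i, (s n hn).d i = dE H I n i) ∧
      ∀ n hn (v : V × Fin (n + 1) → ℚ_[p]),
        (∀ t ∈ I, ∀ i, Tendsto (fun N : ℕ => ((toQ (H.TV n hn t)) ^ N).mulVec v i) atTop (𝓝 0)) ↔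
        (toQ (s n hn).εV).mulVec v = v := by
  choose s h1 _ h3 using exists_summEV H I
  exact ⟨s, h1, h3⟩

/-- the ranks are symmetric -/
theorem dE_rev (H : HRep D R) (I : Ideal R) {n : ℕ} (hn : Even n) {i : ℕ} (hi : i ≤ n) :
    dE H I n (n - i) = dE H I n i := by
  obtain ⟨s, hs, -⟩ := exists_summE H I n hn
  have h1 := s.d_rev hn ⟨i, Nat.lt_succ_of_le hi⟩
  rw [hs, hs] at h1
  have h2 : ((Fin.rev ⟨i, Nat.lt_succ_of_le hi⟩ : Fin (n + 1)) : ℕ) = n - i := by
    rw [Fin.val_rev]
    simp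
  rw [h2] at h1
  exact h1.symm

open Classical in
/-- **The number of systems at the Iwahori level.** -/
theorem count_E (H : HRep D R) (I : Ideal R) {n : ℕ} (hn : Even n) :
    ((Sys.Sys (Sys.matRep (Sys.toK (H.TE n hn)))).filter fun χ => ∀ u ∈ I, ‖χ u‖ < 1).card =
      ∑ i ∈ range (n + 1), dE H I n i := by
  obtain ⟨s, hs, hs2⟩ := exists_summE H I n hn
  have h1 := (Sys.spec_part (RingHom.id R) (H.TE n hn) I s.εE s.idE 0 (by simp) hs2).1
  simp only [RingHom.id_apply] at h1
  rw [← h1, ← s.sum_d hn, Finset.sum_range]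
  exact Finset.sum_congr rfl fun i _ => hs i

end Gouvea
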